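import Pool.Agent.Lib.H3F.N2

/-! # N3: natural maps are given by rules (a) -/

set_option autoImplicit false

namespace Pool.Agent.Lib.H3F

variable {R : Type} {ar : R → Type} [∀ r, Finite (ar r)] {d : ℕ}

/-- **Natural maps are given by rules.**

Proof. Take `lam Ŝ X r s := F (Ŝ.image Fin.val) (up X) r (fun i => (s i : ℕ))`.  Let `S ⊆ U = rg t`, `k = U.card ≤ d`
(`card_rg`, `hd`), `f = nth U`, which is strictly monotone on `range k` (`nth_mono`).  By definition (`if_pos`)
`lo lam C S r t ↔ F S' (up (nrm d U C)) r (fun i => pos U (t i))` with `S' = (S.image (ps d U)).image Fin.val = S.image (pos U)`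
(`ps_val`).  `S' ⊆ range k` (`pos_lt`), `S'.image f = S` (`nth_pos`), and
`EqS (range k) (up (nrm d U C)) (cm f C)`: for `s` in `range k`, `up (nrm d U C) r s` says that there is `s'` with values
`s i` (unique; exists as `s i < k ≤ d`) with `nrm d U C r s'`, i.e. `C r (fun i => nth U (s i))`.  So `hF` gives
`F S' (up _) r (fun i => pos U (t i)) ↔ F S C r (fun i => nth U (pos U (t i))) = F S C r t` (`nth_pos`). -/
theorem raw_exists (hd : ∀ r, Nat.card (ar r) ≤ d) (F : Finset ℕ → Str R ar ℕ → Str R ar ℕ)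
    (hF : NatF F) : ∃ lam : LoD R ar d, ∀ (C : Str R ar ℕ) (S : Finset ℕ) (r : R) (t : ar r → ℕ),
      S ⊆ rg t → (lo lam C S r t ↔ F S C r t) := by
  refine ⟨fun Ŝ X r s => F (Ŝ.image Fin.val) (up X) r (fun i => ((s i : Fin (d + 1)) : ℕ)), ?_⟩
  intro C S r t hS
  have hU : (rg t).card ≤ d := le_trans (card_rg t) (hd r)
  have hm : ∀ i, t i ∈ rg t := fun i => (mem_rg t (t i)).2 ⟨i, rfl⟩
  have hps : ∀ x ∈ rg t, ((ps d (rg t) x : Fin (d + 1)) : ℕ) = pos (rg t) x := fun x hx =>
    ps_val d (rg t) x hx hU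
  have himg : (S.image (ps d (rg t))).image Fin.val = S.image (pos (rg t)) := by
    rw [Finset.image_image]
    exact Finset.image_congr fun x hx => hps x (hS hx)
  have hsub : S.image (pos (rg t)) ⊆ Finset.range (rg t).card := by
    intro y hy
    obtain ⟨x, hx, rfl⟩ := Finset.mem_image.1 hy
    exact Finset.mem_range.2 (pos_lt (rg t) x (hS hx))
  have hback : (S.image (pos (rg t))).image (nth (rg t)) = S := by
    ext y
    simp only [Finset.mem_image]
    constructor
    · rintro ⟨z, ⟨x, hx, rfl⟩, rfl⟩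
      rw [nth_pos (rg t) x (hS hx)]
      exact hx
    · intro hy
      exact ⟨pos (rg t) y, ⟨y, hy, rfl⟩, nth_pos (rg t) y (hS hy)⟩
  have hE : EqS (Finset.range (rg t).card : Set ℕ) (up (nrm d (rg t) C)) (cm (nth (rg t)) C) := by
    intro r' s hs
    have hlt : ∀ i, s i < (rg t).card := fun i => Finset.mem_range.1 (Finset.mem_coe.1 (hs i))
    show (∃ s' : ar r' → Fin (d + 1), (∀ i, s i = (s' i : ℕ)) ∧
      (∀ i, ((s' i : Fin (d + 1)) : ℕ) < (rg t).card) ∧
        C r' (fun i => nth (rg t) (s' i : Fin (d + 1)))) ↔ C r' (fun i => nth (rg t) (s i))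
    constructor
    · rintro ⟨s', h1, -, h3⟩
      have h4 : (fun i => nth (rg t) (s i)) = fun i => nth (rg t) (s' i : Fin (d + 1)) := by
        funext i
        rw [h1 i]
      rw [h4]
      exact h3
    · intro h3
      exact ⟨fun i => ⟨s i, by have := hlt i; omega⟩, fun i => rfl, fun i => hlt i, h3⟩
  have key : F (S.image (pos (rg t))) (up (nrm d (rg t) C)) r (fun i => pos (rg t) (t i)) ↔
      F ((S.image (pos (rg t))).image (nth (rg t))) C r (fun i => nth (rg t) (pos (rg t) (t i))) :=
    hF (nth (rg t)) (Finset.range (rg t).card) (S.image (pos (rg t))) C (up (nrm d (rg t) C))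
      (nth_mono (rg t)) hsub hE r (fun i => pos (rg t) (t i))
      (fun i => Finset.mem_coe.2 (Finset.mem_range.2 (pos_lt (rg t) (t i) (hm i))))
  have ht : (fun i => nth (rg t) (pos (rg t) (t i))) = t := by
    funext i
    exact nth_pos (rg t) (t i) (hm i)
  rw [hback, ht] at key
  have hp : (fun i => ((ps d (rg t) (t i) : Fin (d + 1)) : ℕ)) = fun i => pos (rg t) (t i) := by
    funext i
    exact hps (t i) (hm i)
  unfold lo
  rw [if_pos hS]
  show F ((S.image (ps d (rg t))).image Fin.val) (up (nrm d (rg t) C)) r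
    (fun i => ((ps d (rg t) (t i) : Fin (d + 1)) : ℕ)) ↔ F S C r t
  rw [himg, hp]
  exact key

end Pool.Agent.Lib.H3F
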