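import Pool.Agent.Lib.H3F.N2
import Pool.Agent.Lib.H3F.N3a

/-! # N3: natural maps are given by rules (b) -/

set_option autoImplicit false

namespace Pool.Agent.Lib.H3F

variable {R : Type} {ar : R → Type} [∀ r, Finite (ar r)] {d : ℕ}

/-- The rule of a natural map which changes only the tuples containing the marked set.

Proof. `raw_exists`, and `lo_of_not` for the other tuples; `funext`, `propext`. -/
theorem raw_exists' (hd : ∀ r, Nat.card (ar r) ≤ d) (F : Finset ℕ → Str R ar ℕ → Str R ar ℕ)
    (hF : NatF F) (h : ∀ C S r t, ¬ S ⊆ rg t → (F S C r t ↔ C r t)) :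
    ∃ lam : LoD R ar d, ∀ (C : Str R ar ℕ) (S : Finset ℕ), lo lam C S = F S C := by
  obtain ⟨lam, hlam⟩ := raw_exists hd F hF
  refine ⟨lam, fun C S => ?_⟩
  funext r t
  apply propext
  by_cases hS : S ⊆ rg t
  · exact hlam C S r t hS
  · exact (lo_of_not lam C S r t hS).trans (h C S r t hS).symm

/-- Composition of local operations at the same set.

Proof. `raw_exists'` for `F S C = lo lam (lo mu C S) S`: natural by `lo_nat` twice (the inner result satisfies the hypothesis
of the outer one), and outside of the tuples containing `S` both are `C` (`lo_of_not`). -/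
theorem lo_comp (hd : ∀ r, Nat.card (ar r) ≤ d) (lam mu : LoD R ar d) :
    ∃ nu : LoD R ar d, ∀ (C : Str R ar ℕ) (S : Finset ℕ), lo nu C S = lo lam (lo mu C S) S := by
  obtain ⟨nu, hnu⟩ := raw_exists' (d := d) hd
    (fun S C => lo lam (lo mu C S) S : Finset ℕ → Str R ar ℕ → Str R ar ℕ)
    (fun f D S C C' hf hS h => lo_nat lam f D S (lo mu C (S.image f)) (lo mu C' S) hf hS
      (lo_nat mu f D S C C' hf hS h))
    (fun C S r t h => (lo_of_not lam (lo mu C S) S r t h).trans (lo_of_not mu C S r t h))
  exact ⟨nu, fun C S => hnu C S⟩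

/-- Powers of a local operation.

Proof. Induction on `m` with `Function.iterate_succ_apply'`: `m = 0` is `idLo` (`lo_idLo`), step `lo_comp`. -/
theorem lo_iter (hd : ∀ r, Nat.card (ar r) ≤ d) (lam : LoD R ar d) (m : ℕ) :
    ∃ nu : LoD R ar d, ∀ (C : Str R ar ℕ) (S : Finset ℕ),
      lo nu C S = (fun B => lo lam B S)^[m] C := by
  induction m with
  | zero =>
    exact ⟨idLo, fun C S => funext fun r => funext fun t => propext (lo_idLo hd C S r t)⟩
  | succ m ih =>
    obtain ⟨nu, hnu⟩ := ih
    obtain ⟨nu', hnu'⟩ := lo_comp hd lam nu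
    refine ⟨nu', fun C S => ?_⟩
    rw [hnu', hnu, Function.iterate_succ_apply']

end Pool.Agent.Lib.H3F
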