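import Pool.Agent.Lib.H3F.N2
import Pool.Agent.Lib.H3F.N3a
import Pool.Agent.Lib.H3F.N3b

/-! # N3: natural maps are given by rules (c) -/

set_option autoImplicit false

namespace Pool.Agent.Lib.H3F

variable {R : Type} {ar : R → Type} [∀ r, Finite (ar r)] {d : ℕ}

/-- **The powers of a local operation are eventually periodic**, uniformly.

Proof. `LoD R ar d` is finite (`[Finite R]`, the types `ar r` are finite: `Str R ar (Fin (d+1))` is a finite pi type).  Choose for
every `m` a rule `nu m` by `lo_iter`; two of them agree (`Finite.exists_ne_map_eq_of_infinite`), say `nu a = nu (a + b)`, `b ≥ 1`. -/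
theorem lo_period [Finite R] (hd : ∀ r, Nat.card (ar r) ≤ d) (lam : LoD R ar d) :
    ∃ a b : ℕ, 1 ≤ b ∧ ∀ (C : Str R ar ℕ) (S : Finset ℕ),
      (fun B => lo lam B S)^[a + b] C = (fun B => lo lam B S)^[a] C := by
  choose nu hnu using fun m : ℕ => lo_iter hd lam m
  have hP : Finite Prop := inferInstance
  have h1 : ∀ r, Finite ((ar r → Fin (d + 1)) → Prop) := fun r => inferInstance
  have h2 : Finite (Str R ar (Fin (d + 1))) := inferInstanceAs
    (Finite (∀ r : R, (ar r → Fin (d + 1)) → Prop))
  have h3 : Finite (LoD R ar d) := inferInstanceAs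
    (Finite (Finset (Fin (d + 1)) → Str R ar (Fin (d + 1)) → Str R ar (Fin (d + 1))))
  obtain ⟨x, y, hxy, h⟩ := Finite.exists_ne_map_eq_of_infinite nu
  rcases Nat.lt_or_gt_of_ne hxy with hlt | hlt
  · refine ⟨x, y - x, by omega, fun C S => ?_⟩
    rw [show x + (y - x) = y by omega, ← hnu y C S, ← hnu x C S, h]
  · refine ⟨y, x - y, by omega, fun C S => ?_⟩
    rw [show y + (x - y) = x by omega, ← hnu y C S, ← hnu x C S, h]

/-- **Some power is idempotent.**

Proof. `lo_period` gives `a`, `b`; then `F^[x + b * j] = F^[x]` for all `x ≥ a` (induction on `j`, `Function.iterate_add_apply`);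
take `m = b * (a + 1) ≥ a` (and `m ≥ 1`): `F^[m + m] = F^[m + b * (a + 1)] = F^[m]`. -/
theorem lo_idem [Finite R] (hd : ∀ r, Nat.card (ar r) ≤ d) (lam : LoD R ar d) :
    ∃ m : ℕ, 1 ≤ m ∧ ∀ (C : Str R ar ℕ) (S : Finset ℕ),
      (fun B => lo lam B S)^[m + m] C = (fun B => lo lam B S)^[m] C := by
  obtain ⟨a, b, hb, h⟩ := lo_period hd lam
  have key : ∀ (S : Finset ℕ) (C : Str R ar ℕ) (x j : ℕ), a ≤ x →
      (fun B => lo lam B S)^[x + b * j] C = (fun B => lo lam B S)^[x] C := by
    intro S C x j hx
    induction j with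
    | zero => rfl
    | succ j ih =>
      have e1 : x + b * (j + 1) = (x - a + b * j) + (a + b) := by
        rw [Nat.mul_add, Nat.mul_one]
        generalize b * j = w
        omega
      have e2 : x + b * j = (x - a + b * j) + a := by
        generalize b * j = w
        omega
      rw [e1, Function.iterate_add_apply, h C S, ← Function.iterate_add_apply, ← e2, ih]
  have hm : a ≤ b * (a + 1) := by
    calc a ≤ 1 * (a + 1) := by omega
      _ ≤ b * (a + 1) := Nat.mul_le_mul_right _ hb
  refine ⟨b * (a + 1), ?_, fun C S => ?_⟩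
  · calc 1 ≤ 1 * (a + 1) := by omega
      _ ≤ b * (a + 1) := Nat.mul_le_mul_right _ hb
  · exact key S C (b * (a + 1)) (a + 1) hm

end Pool.Agent.Lib.H3F
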