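import Pool.Agent.Lib.H3F.N3a
import Pool.Agent.Lib.H3F.N3b
import Pool.Agent.Lib.H3F.N3c

/-! # N3: natural maps are given by rules (all parts) -/
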