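import Pool.Agent.Lib.H3F.K1
import Pool.Agent.Lib.H3F.N3

/-! # B1: isomorphism types over the marked points (a) -/

set_option autoImplicit false

namespace Pool.Agent.Lib.H3F

variable {R : Type} {ar : R → Type} {κ : Type}

/-- Proof. `θ = id`. -/
theorem Iso_refl (m : κ → ℕ) (C : Str R ar ℕ) (P : Finset ℕ) : Iso m C P m C P := by
  refine ⟨id, Set.injOn_id _, strictMonoOn_id, Finset.image_id, fun s => rfl, ?_⟩
  exact EqS.refl _ _

/-- Proof. Compose the maps: if `θ`, `θ'` are the two maps then `θ' ∘ θ`; `θ` maps `P ∪ range m` into `P' ∪ range m'`. -/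
theorem Iso_trans {m m' m'' : κ → ℕ} {C C' C'' : Str R ar ℕ} {P P' P'' : Finset ℕ}
    (h : Iso m C P m' C' P') (h' : Iso m' C' P' m'' C'' P'') : Iso m C P m'' C'' P'' := by
  obtain ⟨θ, h1, h2, h3, h4, h5⟩ := h
  obtain ⟨θ', k1, k2, k3, k4, k5⟩ := h'
  have hmap : ∀ x ∈ (P : Set ℕ) ∪ Set.range m, θ x ∈ (P' : Set ℕ) ∪ Set.range m' := by
    rintro x (hx | ⟨s, rfl⟩)
    · left
      rw [← h3]
      exact Finset.mem_coe.2 (Finset.mem_image_of_mem θ (Finset.mem_coe.1 hx))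
    · right
      exact ⟨s, (h4 s).symm⟩
  have hP : ∀ x ∈ (P : Set ℕ), θ x ∈ (P' : Set ℕ) := by
    intro x hx
    rw [← h3]
    exact Finset.mem_coe.2 (Finset.mem_image_of_mem θ (Finset.mem_coe.1 hx))
  refine ⟨fun x => θ' (θ x), ?_, ?_, ?_, ?_, ?_⟩
  · intro x hx y hy hxy
    exact h1 hx hy (k1 (hmap x hx) (hmap y hy) hxy)
  · intro x hx y hy hxy
    exact k2 (hP x hx) (hP y hy) (h2 hx hy hxy)
  · rw [← k3, ← h3, Finset.image_image]
    rfl
  · intro s
    change θ' (θ (m s)) = m'' s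
    rw [h4, k4]
  · exact h5.trans (k5.cm θ _ hmap)

/-- Proof. `θ' = Function.invFunOn θ (P ∪ range m)`: `θ' (θ x) = x` for `x ∈ P ∪ range m`; every element of
`P' ∪ range m'` is `θ x` for such an `x`. -/
theorem Iso_symm {m m' : κ → ℕ} {C C' : Str R ar ℕ} {P P' : Finset ℕ}
    (h : Iso m C P m' C' P') : Iso m' C' P' m C P := by
  obtain ⟨θ, h1, h2, h3, h4, h5⟩ := h
  have hinv : ∀ x ∈ (P : Set ℕ) ∪ Set.range m,
      Function.invFunOn θ ((P : Set ℕ) ∪ Set.range m) (θ x) = x := by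
    intro x hx
    exact h1.leftInvOn_invFunOn hx
  have hsur : ∀ y ∈ (P' : Set ℕ) ∪ Set.range m', ∃ x ∈ (P : Set ℕ) ∪ Set.range m, θ x = y := by
    rintro y (hy | ⟨s, rfl⟩)
    · rw [← h3] at hy
      obtain ⟨x, hx, rfl⟩ := Finset.mem_image.1 (Finset.mem_coe.1 hy)
      exact ⟨x, Or.inl (Finset.mem_coe.2 hx), rfl⟩
    · exact ⟨m s, Or.inr ⟨s, rfl⟩, h4 s⟩
  have hsurP : ∀ y ∈ (P' : Set ℕ), ∃ x ∈ (P : Set ℕ), θ x = y := by
    intro y hy
    rw [← h3] at hy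
    obtain ⟨x, hx, rfl⟩ := Finset.mem_image.1 (Finset.mem_coe.1 hy)
    exact ⟨x, Finset.mem_coe.2 hx, rfl⟩
  refine ⟨Function.invFunOn θ ((P : Set ℕ) ∪ Set.range m), ?_, ?_, ?_, ?_, ?_⟩
  · intro y hy y' hy' hyy
    obtain ⟨x, hx, rfl⟩ := hsur y hy
    obtain ⟨x', hx', rfl⟩ := hsur y' hy'
    rw [hinv x hx, hinv x' hx'] at hyy
    rw [hyy]
  · intro y hy y' hy' hyy
    obtain ⟨x, hx, rfl⟩ := hsurP y hy
    obtain ⟨x', hx', rfl⟩ := hsurP y' hy'
    rw [hinv x (Or.inl hx), hinv x' (Or.inl hx')]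
    exact (h2.lt_iff_lt hx hx').1 hyy
  · rw [← h3, Finset.image_image]
    have h6 : P.image (Function.invFunOn θ ((P : Set ℕ) ∪ Set.range m) ∘ θ) = P.image id := by
      apply Finset.image_congr
      intro x hx
      exact hinv x (Or.inl hx)
    rw [h6, Finset.image_id]
  · intro s
    rw [← h4 s]
    exact hinv (m s) (Or.inr ⟨s, rfl⟩)
  · intro r t ht
    choose u hu using fun i => hsur (t i) (ht i)
    have h6 := h5 r u fun i => (hu i).1
    have h7 : (fun i => θ (u i)) = t := funext fun i => (hu i).2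
    have h8 : (fun i => Function.invFunOn θ ((P : Set ℕ) ∪ Set.range m) (t i)) = u := by
      funext i
      rw [← (hu i).2]
      exact hinv (u i) (hu i).1
    change C' r t ↔ C r (fun i => Function.invFunOn θ ((P : Set ℕ) ∪ Set.range m) (t i))
    rw [h8]
    have h9 : C r u ↔ C' r (fun i => θ (u i)) := h6
    rw [h7] at h9
    exact h9.symm

/-- Proof. The same `θ`. -/
theorem Iso_isoS {m m' : κ → ℕ} {C C' : Str R ar ℕ} {P P' : Finset ℕ}
    (h : Iso m C P m' C' P') : IsoS C P C' P' := by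
  obtain ⟨θ, h1, h2, h3, h4, h5⟩ := h
  exact ⟨θ, h2, h3, h5.mono Set.subset_union_left⟩

/-- Proof. As `Iso_trans`. -/
theorem IsoS_trans {C C' C'' : Str R ar ℕ} {P P' P'' : Finset ℕ}
    (h : IsoS C P C' P') (h' : IsoS C' P' C'' P'') : IsoS C P C'' P'' := by
  obtain ⟨θ, h2, h3, h5⟩ := h
  obtain ⟨θ', k2, k3, k5⟩ := h'
  have hP : ∀ x ∈ (P : Set ℕ), θ x ∈ (P' : Set ℕ) := by
    intro x hx
    rw [← h3]
    exact Finset.mem_coe.2 (Finset.mem_image_of_mem θ (Finset.mem_coe.1 hx))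
  refine ⟨fun x => θ' (θ x), ?_, ?_, ?_⟩
  · intro x hx y hy hxy
    exact k2 (hP x hx) (hP y hy) (h2 hx hy hxy)
  · rw [← k3, ← h3, Finset.image_image]
    rfl
  · exact h5.trans (k5.cm θ _ hP)

/-- Proof. As `Iso_symm`. -/
theorem IsoS_symm {C C' : Str R ar ℕ} {P P' : Finset ℕ} (h : IsoS C P C' P') :
    IsoS C' P' C P := by
  obtain ⟨θ, h2, h3, h5⟩ := h
  have h1 : Set.InjOn θ (P : Set ℕ) := h2.injOn
  have hinv : ∀ x ∈ (P : Set ℕ), Function.invFunOn θ (P : Set ℕ) (θ x) = x := by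
    intro x hx
    exact h1.leftInvOn_invFunOn hx
  have hsurP : ∀ y ∈ (P' : Set ℕ), ∃ x ∈ (P : Set ℕ), θ x = y := by
    intro y hy
    rw [← h3] at hy
    obtain ⟨x, hx, rfl⟩ := Finset.mem_image.1 (Finset.mem_coe.1 hy)
    exact ⟨x, Finset.mem_coe.2 hx, rfl⟩
  refine ⟨Function.invFunOn θ (P : Set ℕ), ?_, ?_, ?_⟩
  · intro y hy y' hy' hyy
    obtain ⟨x, hx, rfl⟩ := hsurP y hy
    obtain ⟨x', hx', rfl⟩ := hsurP y' hy'
    rw [hinv x hx, hinv x' hx']
    exact (h2.lt_iff_lt hx hx').1 hyy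
  · rw [← h3, Finset.image_image]
    have h6 : P.image (Function.invFunOn θ (P : Set ℕ) ∘ θ) = P.image id := by
      apply Finset.image_congr
      intro x hx
      exact hinv x hx
    rw [h6, Finset.image_id]
  · intro r t ht
    choose u hu using fun i => hsurP (t i) (ht i)
    have h6 := h5 r u fun i => (hu i).1
    have h7 : (fun i => θ (u i)) = t := funext fun i => (hu i).2
    have h8 : (fun i => Function.invFunOn θ (P : Set ℕ) (t i)) = u := by
      funext i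
      rw [← (hu i).2]
      exact hinv (u i) (hu i).1
    change C' r t ↔ C r (fun i => Function.invFunOn θ (P : Set ℕ) (t i))
    rw [h8]
    have h9 : C r u ↔ C' r (fun i => θ (u i)) := h6
    rw [h7] at h9
    exact h9.symm

/-- Proof. `θ = id`. -/
theorem IsoS_of_eqS {C C' : Str R ar ℕ} {P : Finset ℕ} (h : EqS (P : Set ℕ) C C') :
    IsoS C P C' P := by
  exact ⟨id, strictMonoOn_id, Finset.image_id, h⟩

/-- Proof. `θ = f`, `P' = P.image f`, the hypothesis is the definition (`EqS`). -/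
theorem Iso_of_map (f : ℕ → ℕ) (m : κ → ℕ) (C C' : Str R ar ℕ) (P : Finset ℕ)
    (hf : Set.InjOn f ((P : Set ℕ) ∪ Set.range m)) (hm : StrictMonoOn f (P : Set ℕ))
    (h : EqS ((P : Set ℕ) ∪ Set.range m) C' (cm f C)) :
    Iso m C' P (fun s => f (m s)) C (P.image f) := by
  exact ⟨f, hf, hm, rfl, fun s => rfl, h⟩

/-- Proof. `P' = P.image θ`, `θ` injective on `P`. -/
theorem Iso_card {m m' : κ → ℕ} {C C' : Str R ar ℕ} {P P' : Finset ℕ}
    (h : Iso m C P m' C' P') : P.card = P'.card := by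
  obtain ⟨θ, h1, h2, h3, h4, h5⟩ := h
  rw [← h3]
  exact (Finset.card_image_of_injOn h2.injOn).symm

/-- Proof. If `m' s = θ (m s) ∈ P' = θ (P)` then `m s ∈ P` by injectivity on `P ∪ range m`. -/
theorem Iso_mem {m m' : κ → ℕ} {C C' : Str R ar ℕ} {P P' : Finset ℕ}
    (h : Iso m C P m' C' P') (s : κ) : m s ∈ P ↔ m' s ∈ P' := by
  obtain ⟨θ, h1, h2, h3, h4, h5⟩ := h
  constructor
  · intro hs
    rw [← h3, ← h4 s]
    exact Finset.mem_image_of_mem θ hs
  · intro hs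
    rw [← h3, ← h4 s] at hs
    obtain ⟨x, hx, hxs⟩ := Finset.mem_image.1 hs
    have h6 : x = m s := h1 (Or.inl (Finset.mem_coe.2 hx)) (Or.inr ⟨s, rfl⟩) hxs
    rw [← h6]
    exact hx

end Pool.Agent.Lib.H3F
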