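import Pool.Agent.Lib.H3F.K1
import Pool.Agent.Lib.H3F.N3
import Pool.Agent.Lib.H3F.B1a

/-! # B1: isomorphism types over the marked points (b) -/

set_option autoImplicit false

namespace Pool.Agent.Lib.H3F

variable {R : Type} {ar : R → Type} {κ : Type}

/-- Proof. `θ` maps `P.filter (∃ s, m s = ·)` bijectively onto `P'.filter (∃ s, m' s = ·)` (`Finset.card_bij` or the image);
for `θ x = m' s = θ (m s)` with `x ∈ P` injectivity gives `x = m s`. -/
theorem Iso_mk {m m' : κ → ℕ} {C C' : Str R ar ℕ} {P P' : Finset ℕ}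
    (h : Iso m C P m' C' P') : mk m P = mk m' P' := by
  obtain ⟨θ, hinj, _, him, hms, _⟩ := h
  classical
  unfold mk
  refine Finset.card_bij (fun x _ => θ x) ?_ ?_ ?_
  · intro x hx
    rw [Finset.mem_filter] at hx ⊢
    obtain ⟨hx1, s, hs⟩ := hx
    refine ⟨?_, s, ?_⟩
    · rw [← him]
      exact Finset.mem_image_of_mem θ hx1
    · rw [← hms s, hs]
  · intro x hx y hy hxy
    exact hinj (Or.inl (Finset.mem_coe.2 (Finset.mem_filter.1 hx).1))
      (Or.inl (Finset.mem_coe.2 (Finset.mem_filter.1 hy).1)) hxy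
  · intro y hy
    rw [Finset.mem_filter] at hy
    obtain ⟨hy1, s, hs⟩ := hy
    rw [← him, Finset.mem_image] at hy1
    obtain ⟨x, hx, hxy⟩ := hy1
    refine ⟨x, Finset.mem_filter.2 ⟨hx, s, ?_⟩, hxy⟩
    apply hinj (Or.inr ⟨s, rfl⟩) (Or.inl (Finset.mem_coe.2 hx))
    rw [hms s, hs, hxy]

/-- Proof. Filter of a subset: `Finset.card_le_card`. -/
theorem mk_mono (m : κ → ℕ) {E E' : Finset ℕ} (h : E' ⊆ E) : mk m E' ≤ mk m E := by
  classical
  unfold mk
  exact Finset.card_le_card (Finset.filter_subset_filter _ h)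

/-- Proof. The filters are equal (`Finset.eq_of_subset_of_card_le`). -/
theorem mk_eq (m : κ → ℕ) {E E' : Finset ℕ} (h : E' ⊆ E) (h' : mk m E ≤ mk m E') (s : κ)
    (hs : m s ∈ E) : m s ∈ E' := by
  classical
  unfold mk at h'
  have h1 := Finset.eq_of_subset_of_card_le
    (Finset.filter_subset_filter (fun x => ∃ s, m s = x) h) h'
  have h2 : m s ∈ E.filter fun x => ∃ s, m s = x := Finset.mem_filter.2 ⟨hs, s, rfl⟩
  rw [← h1] at h2
  exact (Finset.mem_filter.1 h2).1

/-- Proof. `Finset.card_filter_le`. -/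
theorem mk_le (m : κ → ℕ) (E : Finset ℕ) : mk m E ≤ E.card := by
  classical
  unfold mk
  exact Finset.card_filter_le _ _

end Pool.Agent.Lib.H3F
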