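import Pool.Agent.Lib.H3F.B1a
import Pool.Agent.Lib.H3F.B1b

/-! # B1: isomorphism types over the marked points (all parts) -/
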