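import Pool.Agent.Lib.H3F.B1

/-! # B2: connection of a set to the marked points (a) -/

set_option autoImplicit false

namespace Pool.Agent.Lib.H3F

variable {R : Type} {ar : R → Type} {κ : Type}

/-- Proof. Second alternative. -/
theorem Con_self (E : Finset ℕ) (m : κ → ℕ) (C : Str R ar ℕ) : Con E E m C := by
  intro r t _ h
  exact Or.inr h

/-- A subset with the same marked points is connected through a smaller set.

Proof. Let `t` be a tuple with `C r t` in `E' ∪ marks`.  By `h`: if `t` is in `E`, every entry which is a marked point is in `E'`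
by `h'`, so `t` is in `E'`.  If `t` is in `P ∪ marks`: an entry which is not a marked point is in `E'` and in `P`. -/
theorem Con_sub {E P E' : Finset ℕ} {m : κ → ℕ} {C : Str R ar ℕ} (h : Con E P m C) (hE : E' ⊆ E)
    (h' : ∀ s, m s ∈ E → m s ∈ E') : Con E' (P ∩ E') m C := by
  intro r t hC ht
  rcases h r t hC (fun i => (ht i).imp (fun hi => hE hi) id) with h1 | h1
  · refine Or.inl fun i => ?_
    rcases ht i with h2 | ⟨s, hs⟩
    · exact h2
    · have h3 := h' s (by rw [hs]; exact h1 i)
      rw [hs] at h3
      exact h3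
  · refine Or.inr fun i => ?_
    rcases ht i with h2 | h2
    · rcases h1 i with h3 | h3
      · exact Or.inl (Finset.mem_inter.2 ⟨h3, h2⟩)
      · exact Or.inr h3
    · exact Or.inr h2

/-- Proof. A tuple in `D ∪ marks` with `C r t` is in `D` or in `P ∪ marks`; in the second case it is in `P ⊆ D` or in
`Q ∪ marks`. -/
theorem Con_trans {D P Q : Finset ℕ} {m : κ → ℕ} {C : Str R ar ℕ} (h : Con D P m C)
    (h' : Con P Q m C) (hP : P ⊆ D) : Con D Q m C := by
  intro r t hC ht
  rcases h r t hC ht with h1 | h1
  · exact Or.inl h1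
  · rcases h' r t hC h1 with h2 | h2
    · exact Or.inl fun i => hP (h2 i)
    · exact Or.inr h2

/-- Proof. `Con` speaks about tuples in `E ∪ marks` only. -/
theorem Con_congr {E P : Finset ℕ} {m : κ → ℕ} {C C' : Str R ar ℕ}
    (h : EqS ((E : Set ℕ) ∪ Set.range m) C C') (hC : Con E P m C) : Con E P m C' := by
  intro r t hC' ht
  refine hC r t ((h r t fun i => ?_).2 hC') ht
  rcases ht i with h1 | ⟨s, hs⟩
  · exact Or.inl (Finset.mem_coe.2 h1)
  · exact Or.inr ⟨s, hs⟩

end Pool.Agent.Lib.H3F
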