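import Pool.Agent.Lib.H3F.B1
import Pool.Agent.Lib.H3F.B2a

/-! # B2: connection of a set to the marked points (b) -/

set_option autoImplicit false

namespace Pool.Agent.Lib.H3F

variable {R : Type} {ar : R → Type} {κ : Type}

/-- Proof. Let `θ` be the isomorphism from `(m, C, P)` to `(m', C', P')`.  `Q' = Q.image θ`: a tuple `t'` in `P' ∪ marks'` with
`C' r t'` is `θ ∘ t` with `t` in `P ∪ marks`, `C r t`; so `t` is in `P` or in `Q ∪ marks`.  The other claims: `θ` is injective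
on `P`; for `m' u ∈ P'` we have `m u ∈ P` (`Iso_mem`), so `m u ∈ Q` and `m' u = θ (m u)`. -/
theorem Con_iso {m m' : κ → ℕ} {C C' : Str R ar ℕ} {P P' Q : Finset ℕ}
    (h : Iso m C P m' C' P') (hQ : Q ⊆ P) (hm : ∀ u, m u ∈ P → m u ∈ Q) (hC : Con P Q m C) :
    ∃ Q' ⊆ P', Q'.card = Q.card ∧ (∀ u, m' u ∈ P' → m' u ∈ Q') ∧ Con P' Q' m' C' := by
  have hmem := fun s => Iso_mem h s
  obtain ⟨θ, hinj, _, him, hms, heq⟩ := h
  refine ⟨Q.image θ, ?_, ?_, ?_, ?_⟩
  · rw [← him]
    exact Finset.image_subset_image hQ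
  · refine Finset.card_image_of_injOn ?_
    intro x hx y hy hxy
    exact hinj (Or.inl (Finset.mem_coe.2 (hQ (Finset.mem_coe.1 hx))))
      (Or.inl (Finset.mem_coe.2 (hQ (Finset.mem_coe.1 hy)))) hxy
  · intro u hu
    have h1 : m u ∈ Q := hm u ((hmem u).2 hu)
    rw [← hms u]
    exact Finset.mem_image_of_mem θ h1
  · intro r t' hC' ht'
    have hex : ∀ i, ∃ x, x ∈ ((P : Set ℕ) ∪ Set.range m) ∧ θ x = t' i := by
      intro i
      rcases ht' i with h1 | ⟨s, hs⟩
      · rw [← him, Finset.mem_image] at h1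
        obtain ⟨x, hx, hxt⟩ := h1
        exact ⟨x, Or.inl (Finset.mem_coe.2 hx), hxt⟩
      · exact ⟨m s, Or.inr ⟨s, rfl⟩, by rw [hms s, hs]⟩
    choose x hx hxt using hex
    have hx2 : C r x := by
      refine (heq r x hx).2 ?_
      have h3 : (fun i => θ (x i)) = t' := funext hxt
      show C' r (fun i => θ (x i))
      rw [h3]
      exact hC'
    have hx3 : ∀ i, x i ∈ P ∨ ∃ s, m s = x i := by
      intro i
      rcases hx i with h1 | ⟨s, hs⟩
      · exact Or.inl (Finset.mem_coe.1 h1)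
      · exact Or.inr ⟨s, hs⟩
    rcases hC r x hx2 hx3 with h4 | h4
    · refine Or.inl fun i => ?_
      rw [← hxt i, ← him]
      exact Finset.mem_image_of_mem θ (h4 i)
    · refine Or.inr fun i => ?_
      rcases h4 i with h5 | ⟨s, hs⟩
      · refine Or.inl ?_
        rw [← hxt i]
        exact Finset.mem_image_of_mem θ h5
      · refine Or.inr ⟨s, ?_⟩
        rw [← hms s, hs, hxt i]

end Pool.Agent.Lib.H3F
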