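import Pool.Agent.Lib.H3F.B2
import Pool.Agent.Lib.H3F.N3

/-! # B3: the rule of a natural map at a type over the marked points (definitions) -/

set_option autoImplicit false

namespace Pool.Agent.Lib.H3F

variable {R : Type} {ar : R → Type} [∀ r, Finite (ar r)] {d : ℕ} {κ : Type}

/-- The value of `N` at the tuple `t` when its range is glued freely to the marked points along `P`, with the
type of `(m₀, C₀, P₀)`. -/
def Val (N : (κ → ℕ) → Str R ar ℕ → Str R ar ℕ) (m₀ : κ → ℕ) (C₀ : Str R ar ℕ) (P₀ : Finset ℕ)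
    (P : Finset ℕ) (C : Str R ar ℕ) (r : R) (t : ar r → ℕ) : Prop :=
  ∃ (m : κ → ℕ) (C' : Str R ar ℕ), Iso m C' P m₀ C₀ P₀ ∧ P ⊆ rg t ∧
    (∀ u, m u ∈ rg t → m u ∈ P) ∧ Con (rg t) P m C' ∧ EqS ((rg t : Finset ℕ) : Set ℕ) C' C ∧
    N m C' r t

end Pool.Agent.Lib.H3F
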