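import Pool.Agent.Lib.H3F.B2
import Pool.Agent.Lib.H3F.N3
import Pool.Agent.Lib.H3F.B3z
import Pool.Agent.Lib.H3F.B3a

/-! # B3: the rule of a natural map at a type over the marked points (b) -/

set_option autoImplicit false

namespace Pool.Agent.Lib.H3F

variable {R : Type} {ar : R → Type} [∀ r, Finite (ar r)] {d : ℕ} {κ : Type}

/-- One direction of the naturality of `Val`.

Proof. Let `m`, `C₁` be the witnesses for `t`.  Let `B` be larger than all elements of `D.image f`, `g x = f x` for `x ∈ D` and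
`g x = B + x` otherwise: `g` is injective.  Witnesses for `fun i => f (t i)`: `fun s => g (m s)` and the image structure
`C₂ r t' = ∃ t₁, (∀ i, t' i = g (t₁ i)) ∧ C₁ r t₁`; `cm g C₂ = C₁` (`g` injective).  `Iso`: compose the isomorphism of
`(m, C₁, S)` with `g` (`Iso_of_map` and `Iso_symm`, `Iso_trans`).  The other conditions transfer along the injective map `g`
(`rg_comp`; `C₂ = C` on `(rg t).image f`: from `C₁ = C' = cm f C` on `rg t`).  `N`: `Ntr` for `g`, `D := univ`, `U := rg t`. -/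
theorem Val_map (N : (κ → ℕ) → Str R ar ℕ → Str R ar ℕ) (hN : Ntr N) (m₀ : κ → ℕ)
    (C₀ : Str R ar ℕ) (P₀ : Finset ℕ) (f : ℕ → ℕ) (D S : Finset ℕ) (C C' : Str R ar ℕ)
    (hf : StrictMonoOn f (D : Set ℕ)) (hS : S ⊆ D) (h : EqS (D : Set ℕ) C' (cm f C)) (r : R)
    (t : ar r → ℕ) (ht : ∀ i, t i ∈ D) (hV : Val N m₀ C₀ P₀ S C' r t) :
    Val N m₀ C₀ P₀ (S.image f) C r (fun i => f (t i)) := by
  classical
  obtain ⟨m, C₁, hI, hSt, hm, hCon, hE, hNv⟩ := hV
  have htD : rg t ⊆ D := (rg_sub t D).2 ht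
  -- an injective map extending f on D
  obtain ⟨B, hB⟩ : ∃ B : ℕ, ∀ x ∈ D.image f, x < B :=
    ⟨(D.image f).sup id + 1, fun x hx => Nat.lt_succ_of_le (Finset.le_sup (f := id) hx)⟩
  let g : ℕ → ℕ := fun x => if x ∈ D then f x else B + x
  have hgD : ∀ x ∈ D, g x = f x := fun x hx => if_pos hx
  have hg : Function.Injective g := by
    intro x y hxy
    simp only [g] at hxy
    by_cases hx : x ∈ D <;> by_cases hy : y ∈ D
    · rw [if_pos hx, if_pos hy] at hxy
      exact hf.injOn hx hy hxy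
    · rw [if_pos hx, if_neg hy] at hxy
      have := hB _ (Finset.mem_image_of_mem f hx)
      omega
    · rw [if_neg hx, if_pos hy] at hxy
      have := hB _ (Finset.mem_image_of_mem f hy)
      omega
    · rw [if_neg hx, if_neg hy] at hxy
      omega
  let C₂ : Str R ar ℕ := fun r t' => ∃ t₁ : ar r → ℕ, (∀ i, t' i = g (t₁ i)) ∧ C₁ r t₁
  have hC₂ : ∀ r (t₁ : ar r → ℕ), C₂ r (fun i => g (t₁ i)) ↔ C₁ r t₁ := by
    intro r t₁
    constructor
    · rintro ⟨t₂, h1, h2⟩
      have : t₁ = t₂ := funext fun i => hg (h1 i)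
      rw [this]
      exact h2
    · intro h1
      exact ⟨t₁, fun i => rfl, h1⟩
  have hSg : S.image g = S.image f := Finset.image_congr fun x hx => hgD x (hS hx)
  have hrgg : rg (fun i => f (t i)) = (rg t).image g := by
    rw [rg_comp]
    exact (Finset.image_congr fun x hx => hgD x (htD hx)).symm
  have hmono : StrictMonoOn g (S : Set ℕ) := by
    intro x hx y hy hxy
    rw [hgD x (hS hx), hgD y (hS hy)]
    exact hf (hS hx) (hS hy) hxy
  have hI2 : Iso m C₁ S (fun s => g (m s)) C₂ (S.image g) :=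
    Iso_of_map g m C₂ C₁ S hg.injOn hmono (fun r t₁ _ => (hC₂ r t₁).symm)
  refine ⟨fun s => g (m s), C₂, ?_, ?_, ?_, ?_, ?_, ?_⟩
  · rw [← hSg]
    exact Iso_trans (Iso_symm hI2) hI
  · rw [← hSg, hrgg]
    exact Finset.image_subset_image hSt
  · intro u hu
    rw [hrgg] at hu
    obtain ⟨x, hx, hxu⟩ := Finset.mem_image.1 hu
    have h1 : x = m u := hg hxu
    rw [h1] at hx
    rw [← hSg]
    exact Finset.mem_image_of_mem g (hm u hx)
  · rintro r' t' ⟨t₁, h1, h2⟩ h3
    have e : t' = fun i => g (t₁ i) := funext h1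
    subst e
    have h4 : ∀ i, t₁ i ∈ rg t ∨ ∃ s, m s = t₁ i := by
      intro i
      rcases h3 i with h5 | ⟨s, hs⟩
      · rw [hrgg] at h5
        obtain ⟨x, hx, hxu⟩ := Finset.mem_image.1 h5
        rw [← hg hxu]
        exact Or.inl hx
      · exact Or.inr ⟨s, hg hs⟩
    rcases hCon r' t₁ h2 h4 with h5 | h5
    · left
      intro i
      rw [hrgg]
      exact Finset.mem_image_of_mem g (h5 i)
    · right
      intro i
      rcases h5 i with h6 | ⟨s, hs⟩
      · left
        rw [← hSg]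
        exact Finset.mem_image_of_mem g h6
      · exact Or.inr ⟨s, congrArg g hs⟩
  · intro r' t' ht'
    have h1 : ∀ i, ∃ x ∈ rg t, g x = t' i := by
      intro i
      have h2 := ht' i
      rw [Finset.mem_coe, hrgg] at h2
      exact Finset.mem_image.1 h2
    choose u hu hut using h1
    have e : t' = fun i => g (u i) := funext fun i => (hut i).symm
    rw [e, hC₂]
    have h2 := hE r' u hu
    have h3 := h r' u (fun i => htD (hu i))
    have e2 : (fun i => g (u i)) = fun i => f (u i) := funext fun i => hgD _ (htD (hu i))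
    rw [h2, h3, e2]
    rfl
  · have h1 := hN g Set.univ ((rg t : Finset ℕ) : Set ℕ) m C₂ C₁ hg.injOn (fun _ => Set.mem_univ _)
      (Set.subset_univ _) (fun x hx y hy hxy => by
        rw [hgD x (htD hx), hgD y (htD hy)]
        exact hf (htD hx) (htD hy) hxy) (fun r t₁ _ => (hC₂ r t₁).symm) r t
      (fun i => (mem_rg t _).2 ⟨i, rfl⟩)
    have h2 := h1.1 hNv
    have e2 : (fun i => g (t i)) = fun i => f (t i) := funext fun i => hgD _ (ht i)
    have h3 : N (fun s => g (m s)) C₂ r (fun i => g (t i)) := h2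
    rw [e2] at h3
    exact h3

end Pool.Agent.Lib.H3F
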