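import Pool.Agent.Lib.H3F.B2
import Pool.Agent.Lib.H3F.N3
import Pool.Agent.Lib.H3F.B3z
import Pool.Agent.Lib.H3F.B3a
import Pool.Agent.Lib.H3F.B3b

/-! # B3: the rule of a natural map at a type over the marked points (c) -/

set_option autoImplicit false

namespace Pool.Agent.Lib.H3F

variable {R : Type} {ar : R → Type} [∀ r, Finite (ar r)] {d : ℕ} {κ : Type}

open Classical in
/-- **`Val` is natural.**

Proof. If `IsoS C' S C₀ P₀` (equivalent to `IsoS C (S.image f) C₀ P₀`: compose with `f` or its inverse) and `S ⊆ rg t`: `Val_map` for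
`f`, and for the inverse of `f` on `D.image f` (strictly monotone there; `C = cm f⁻¹ C'` on `D.image f`).  Otherwise use
`EqS D C' (cm f C)`.  (`S ⊆ rg t ↔ S.image f ⊆ rg (f ∘ t)` as `f` is injective on `D`.) -/
theorem Val_nat (N : (κ → ℕ) → Str R ar ℕ → Str R ar ℕ) (hN : Ntr N) (m₀ : κ → ℕ)
    (C₀ : Str R ar ℕ) (P₀ : Finset ℕ) :
    NatF (fun P C r t => if P ⊆ rg t ∧ IsoS C P C₀ P₀ then Val N m₀ C₀ P₀ P C r t else C r t :
      Finset ℕ → Str R ar ℕ → Str R ar ℕ) := by
  intro f D S C C' hf hS h r t ht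
  have hinj : Set.InjOn f (D : Set ℕ) := hf.injOn
  -- the inverse map
  obtain ⟨g, hg⟩ : ∃ g : ℕ → ℕ, ∀ x ∈ D, g (f x) = x := by
    refine ⟨Function.invFunOn f (D : Set ℕ), fun x hx => ?_⟩
    exact hinj.leftInvOn_invFunOn hx
  have hgm : StrictMonoOn g ((D.image f : Finset ℕ) : Set ℕ) := by
    intro a ha b hb hab
    rw [Finset.mem_coe, Finset.mem_image] at ha hb
    obtain ⟨x, hx, rfl⟩ := ha
    obtain ⟨y, hy, rfl⟩ := hb
    rw [hg x hx, hg y hy]
    exact (hf.lt_iff_lt hx hy).1 hab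
  have hgi : (S.image f).image g = S := by
    ext y
    simp only [Finset.mem_image]
    constructor
    · rintro ⟨_, ⟨x, hx, rfl⟩, rfl⟩
      rw [hg x (hS hx)]
      exact hx
    · intro hy
      exact ⟨f y, ⟨y, hy, rfl⟩, hg y (hS hy)⟩
  have hC : EqS ((D.image f : Finset ℕ) : Set ℕ) C (cm g C') := by
    intro r t ht
    have h1 : ∀ i, ∃ x ∈ D, f x = t i := fun i => Finset.mem_image.1 (ht i)
    choose u hu hut using h1
    have h2 := h r u hu
    have e1 : (fun i => f (u i)) = t := funext hut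
    have e2 : (fun i => g (t i)) = u := funext fun i => by rw [← hut i, hg _ (hu i)]
    show C r t ↔ C' r (fun i => g (t i))
    rw [e2, h2]
    show C r t ↔ C r (fun i => f (u i))
    rw [e1]
  have hsub : S ⊆ rg t ↔ S.image f ⊆ rg (fun i => f (t i)) := by
    rw [rg_comp]
    constructor
    · exact fun h => Finset.image_subset_image h
    · intro h x hx
      obtain ⟨y, hy, hyx⟩ := Finset.mem_image.1 (h (Finset.mem_image_of_mem f hx))
      have hyD : y ∈ D := by
        obtain ⟨i, rfl⟩ := (mem_rg t y).1 hy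
        exact ht i
      rw [← hinj hyD (hS hx) hyx]
      exact hy
  have hiso1 : IsoS C' S C (S.image f) :=
    ⟨f, hf.mono (by exact_mod_cast hS), rfl, h.mono (by exact_mod_cast hS)⟩
  have hiso : IsoS C' S C₀ P₀ ↔ IsoS C (S.image f) C₀ P₀ :=
    ⟨fun h => IsoS_trans (IsoS_symm hiso1) h, fun h => IsoS_trans hiso1 h⟩
  show (if S ⊆ rg t ∧ IsoS C' S C₀ P₀ then Val N m₀ C₀ P₀ S C' r t else C' r t) ↔
    (if S.image f ⊆ rg (fun i => f (t i)) ∧ IsoS C (S.image f) C₀ P₀ then
      Val N m₀ C₀ P₀ (S.image f) C r (fun i => f (t i)) else C r (fun i => f (t i)))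
  by_cases hc : S ⊆ rg t ∧ IsoS C' S C₀ P₀
  · rw [if_pos hc, if_pos ⟨hsub.1 hc.1, hiso.1 hc.2⟩]
    constructor
    · exact fun hV => Val_map N hN m₀ C₀ P₀ f D S C C' hf hS h r t ht hV
    · intro hV
      have h3 := Val_map N hN m₀ C₀ P₀ g (D.image f) (S.image f) C' C hgm
        (Finset.image_subset_image hS) hC r (fun i => f (t i))
        (fun i => Finset.mem_image_of_mem f (ht i)) hV
      rw [hgi] at h3
      have e : (fun i => g (f (t i))) = t := funext fun i => hg _ (ht i)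
      rw [e] at h3
      exact h3
  · rw [if_neg hc, if_neg (fun h' => hc ⟨hsub.2 h'.1, hiso.2 h'.2⟩)]
    exact h r t ht

end Pool.Agent.Lib.H3F
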