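import Pool.Agent.Lib.H3F.B2
import Pool.Agent.Lib.H3F.N3
import Pool.Agent.Lib.H3F.B3z
import Pool.Agent.Lib.H3F.B3a
import Pool.Agent.Lib.H3F.B3b
import Pool.Agent.Lib.H3F.B3c

/-! # B3: the rule of a natural map at a type over the marked points (d) -/

set_option autoImplicit false

namespace Pool.Agent.Lib.H3F

variable {R : Type} {ar : R → Type} [∀ r, Finite (ar r)] {d : ℕ} {κ : Type}

/-- **The rule of a natural map at a type over the marked points.**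

Proof. `raw_exists'` for the natural map of `Val_nat`; the first claim is `Val_iff` (`Iso_isoS`), the second is `if_neg`. -/
theorem lam_exists (hd : ∀ r, Nat.card (ar r) ≤ d) (N : (κ → ℕ) → Str R ar ℕ → Str R ar ℕ)
    (hN : Ntr N) (m₀ : κ → ℕ) (C₀ : Str R ar ℕ) (P₀ : Finset ℕ) :
    ∃ lam : LoD R ar d,
      (∀ (m : κ → ℕ) (C : Str R ar ℕ) (P E : Finset ℕ) (r : R) (t : ar r → ℕ),
        Iso m C P m₀ C₀ P₀ → P ⊆ E → (∀ u, m u ∈ E → m u ∈ P) → Con E P m C → P ⊆ rg t →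
          (∀ i, t i ∈ E) → (lo lam C P r t ↔ N m C r t)) ∧
      ∀ (C : Str R ar ℕ) (P : Finset ℕ), ¬ IsoS C P C₀ P₀ → lo lam C P = C := by
  classical
  obtain ⟨lam, hlam⟩ := raw_exists' (d := d) hd
    (fun P C r t => if P ⊆ rg t ∧ IsoS C P C₀ P₀ then Val N m₀ C₀ P₀ P C r t else C r t)
    (Val_nat N hN m₀ C₀ P₀)
    (fun C S r t h => by rw [if_neg (fun h' => h h'.1)])
  refine ⟨lam, fun m C P E r t hI hP hm hC hPt ht => ?_, fun C P hn => ?_⟩
  · have h1 := congrFun (congrFun (hlam C P) r) t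
    rw [h1]
    show (if P ⊆ rg t ∧ IsoS C P C₀ P₀ then Val N m₀ C₀ P₀ P C r t else C r t) ↔ N m C r t
    rw [if_pos ⟨hPt, Iso_isoS hI⟩]
    exact Val_iff N hN m₀ C₀ P₀ m C P E r t hI hP hm hC hPt ht
  · rw [hlam]
    funext r t
    show (if P ⊆ rg t ∧ IsoS C P C₀ P₀ then Val N m₀ C₀ P₀ P C r t else C r t) = C r t
    rw [if_neg (fun h' => hn h'.2)]

end Pool.Agent.Lib.H3F
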