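import Pool.Agent.Lib.H3F.B3z
import Pool.Agent.Lib.H3F.B3a
import Pool.Agent.Lib.H3F.B3b
import Pool.Agent.Lib.H3F.B3c
import Pool.Agent.Lib.H3F.B3d

/-! # B3: the rule of a natural map at a type over the marked points (all parts) -/
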