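import Pool.Agent.Lib.H3F.B2

/-! # B4: gluing freely to the marked points (a) -/

set_option autoImplicit false

namespace Pool.Agent.Lib.H3F

variable {R : Type} {ar : R → Type} {κ : Type} {V : Type} {M : Str R ar V}

/-- The age in terms of structures on finite sets of natural numbers.

Proof. `→`: restrict `a` to the subtype.  `←`: extend `a : D → V` by any value (`V` is nonempty), `Set.InjOn`. -/
theorem K_iff_Ag [Nonempty V] (D : Finset ℕ) (C : Str R ar ℕ) :
    K M D C ↔ Ag M {x : ℕ // x ∈ D} (cm Subtype.val C) := by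
  classical
  constructor
  · rintro ⟨a, ha, hC⟩
    refine ⟨fun x => a x.1, ?_, ?_⟩
    · intro x y hxy
      exact Subtype.ext (ha (Finset.mem_coe.2 x.2) (Finset.mem_coe.2 y.2) hxy)
    · funext r t
      exact propext (hC r (fun i => (t i).1) (fun i => Finset.mem_coe.2 (t i).2)).symm
  · rintro ⟨a, ha, hC⟩
    have hb : ∀ x (hx : x ∈ D),
        (if h : x ∈ D then a ⟨x, h⟩ else Classical.arbitrary V) = a ⟨x, hx⟩ :=
      fun x hx => dif_pos hx
    refine ⟨fun x => if h : x ∈ D then a ⟨x, h⟩ else Classical.arbitrary V, ?_, ?_⟩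
    · intro x hx y hy hxy
      have hx' : x ∈ D := Finset.mem_coe.1 hx
      have hy' : y ∈ D := Finset.mem_coe.1 hy
      have hxy' : a ⟨x, hx'⟩ = a ⟨y, hy'⟩ := by
        rw [← hb x hx', ← hb y hy']
        exact hxy
      exact congrArg Subtype.val (ha hxy')
    · intro r t ht
      have ht' : ∀ i, t i ∈ D := fun i => Finset.mem_coe.1 (ht i)
      have h1 := congrFun (congrFun hC r) (fun i => (⟨t i, ht' i⟩ : {x : ℕ // x ∈ D}))
      have h2 : (fun i => (if h : t i ∈ D then a ⟨t i, h⟩ else Classical.arbitrary V)) =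
          fun i => a ⟨t i, ht' i⟩ := by
        funext i
        exact hb (t i) (ht' i)
      change C r t ↔ M r (fun i => (if h : t i ∈ D then a ⟨t i, h⟩ else Classical.arbitrary V))
      rw [h2]
      exact iff_of_eq h1.symm

/-- Free amalgamation for structures on finite sets of natural numbers.

Proof. `K_iff_Ag` three times; `hM.fa.am` for the type `{x // x ∈ X ∪ Y}`, the sets `{u | u.1 ∈ X}`, `{u | u.1 ∈ Y}`; the
structures on these subtypes are in the age by `hM.fa.her` along the obvious injective maps to `{x // x ∈ X}`, `{x // x ∈ Y}`. -/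
theorem K_glue [Nonempty V] (hM : HFA M) (X Y : Finset ℕ) (C : Str R ar ℕ)
    (h : ∀ r (t : ar r → ℕ), C r t → (∀ i, t i ∈ X ∪ Y) → (∀ i, t i ∈ X) ∨ (∀ i, t i ∈ Y))
    (hX : K M X C) (hY : K M Y C) : K M (X ∪ Y) C := by
  rw [K_iff_Ag] at hX hY ⊢
  refine hM.fa.am {x : ℕ // x ∈ X ∪ Y} (cm Subtype.val C) {u | u.1 ∈ X} {u | u.1 ∈ Y} ?_ ?_ ?_ ?_
  · intro u
    exact Finset.mem_union.1 u.2
  · intro r t ht
    exact h r (fun i => (t i).1) ht (fun i => (t i).2)
  · refine hM.fa.her {x : ℕ // x ∈ X} ({u : {x : ℕ // x ∈ X ∪ Y} | u.1 ∈ X} : Set _)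
      (fun u => ⟨u.1.1, u.2⟩) (cm Subtype.val C) ?_ hX
    intro u v huv
    have h1 : u.1.1 = v.1.1 := congrArg (fun z : {x : ℕ // x ∈ X} => z.1) huv
    exact Subtype.ext (Subtype.ext h1)
  · refine hM.fa.her {x : ℕ // x ∈ Y} ({u : {x : ℕ // x ∈ X ∪ Y} | u.1 ∈ Y} : Set _)
      (fun u => ⟨u.1.1, u.2⟩) (cm Subtype.val C) ?_ hY
    intro u v huv
    have h1 : u.1.1 = v.1.1 := congrArg (fun z : {x : ℕ // x ∈ Y} => z.1) huv
    exact Subtype.ext (Subtype.ext h1)

end Pool.Agent.Lib.H3F
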