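import Pool.Agent.Lib.H3F.B2
import Pool.Agent.Lib.H3F.B4a

/-! # B4: gluing freely to the marked points (b) -/

set_option autoImplicit false

namespace Pool.Agent.Lib.H3F

variable {R : Type} {ar : R → Type} {κ : Type} {V : Type} {M : Str R ar V}

/-- **Gluing a structure freely to the marked points.**

Proof. Let `T₀ = P₀ ∪ range m₀` (a finset: the filter of `D₀`, or `D₀.filter (fun x => x ∈ P₀ ∨ ∃ s, m₀ s = x)`) and `θ` the
isomorphism from `P` to `P₀` (`IsoS`).  Let `B` be larger than all elements of `D` and `q x` = the element of `P` with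
`θ (q x) = x` if `x ∈ P₀`, `q x = B + x` otherwise (`θ` is injective on `P` with image `P₀`).  `q` is injective on `T₀`
(the values for `x ∈ P₀` are in `P ⊆ D`, the others are `≥ B`).  Put `m = fun s => q (m₀ s)`, `D₁ = D ∪ T₀.image q`,
`C₁ r t = ((∀ i, t i ∈ D) ∧ C r t) ∨ ∃ t₀, (∀ i, t₀ i ∈ T₀) ∧ (∀ i, t i = q (t₀ i)) ∧ C₀ r t₀`.
(1) `C₁ = C` on `D`: a tuple `t = q ∘ t₀` in `D` has `t₀` in `P₀`, and `C r t ↔ C₀ r (θ ∘ t) = C₀ r t₀`.
(2) `cm q C₁ = C₀` on `T₀`: if `q ∘ t₀` is in `D` then `t₀` is in `P₀` and again `C r (q ∘ t₀) ↔ C₀ r t₀`; `q` is injective on `T₀`.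
(3) `K M D₁ C₁`: `K_glue` with `X = D`, `Y = T₀.image q`: `K M D C₁` by (1) and `K_congr`, `K M (T₀.image q) C₁` by (2),
`K_cm_conv`, `K_congr` and `K_mono` from `hA.inK`; every tuple of `C₁` is in one of the two.
(4) `Adm`: `m` is injective, `cm m C₁ = cm m₀ C₀ = A` by (2).
(5) `Iso m C₁ P m₀ C₀ P₀` is `Iso_symm` of the isomorphism `q` (`Iso_of_map`-like: `q` on `P₀ ∪ range m₀`, strictly monotone on
`P₀` as the inverse of `θ`, `P₀.image q = P`).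
(6) If `m u = q (m₀ u) ∈ D` then `m₀ u ∈ P₀` and `m u ∈ P`.
(7) `Con D P m C₁`: a tuple of `C₁` is in `D` or `q ∘ t₀` with `t₀` in `T₀ = P₀ ∪ marks`, which is in `P ∪ range m`. -/
theorem glue_exists [Nonempty V] (hM : HFA M) (A : Str R ar κ) (D₀ : Finset ℕ) (m₀ : κ → ℕ)
    (C₀ : Str R ar ℕ) (P₀ : Finset ℕ) (hA : Adm M A D₀ m₀ C₀) (hP₀ : P₀ ⊆ D₀) (D : Finset ℕ)
    (C : Str R ar ℕ) (P : Finset ℕ) (hK : K M D C) (hP : P ⊆ D) (hI : IsoS C P C₀ P₀) :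
    ∃ (m : κ → ℕ) (C₁ : Str R ar ℕ) (D₁ : Finset ℕ), Adm M A D₁ m C₁ ∧ D ⊆ D₁ ∧
      EqS (D : Set ℕ) C₁ C ∧ Iso m C₁ P m₀ C₀ P₀ ∧ (∀ u, m u ∈ D → m u ∈ P) ∧ Con D P m C₁ := by
  classical
  obtain ⟨θ, hθ, hθP, hθC⟩ := hI
  obtain ⟨T₀, hT₀⟩ : ∃ T₀ : Finset ℕ, ∀ x, x ∈ T₀ ↔ x ∈ D₀ ∧ (x ∈ P₀ ∨ ∃ s, m₀ s = x) :=
    ⟨D₀.filter (fun x => x ∈ P₀ ∨ ∃ s, m₀ s = x), fun x => Finset.mem_filter⟩
  have hT₀D : T₀ ⊆ D₀ := fun x hx => ((hT₀ x).1 hx).1
  have hPT : ∀ x ∈ P₀, x ∈ T₀ := fun x hx => (hT₀ x).2 ⟨hP₀ hx, Or.inl hx⟩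
  have hmT : ∀ s, m₀ s ∈ T₀ := fun s => (hT₀ _).2 ⟨hA.mem s, Or.inr ⟨s, rfl⟩⟩
  obtain ⟨B, hB⟩ : ∃ B : ℕ, ∀ x ∈ D, x < B :=
    ⟨D.sup id + 1, fun x hx => Nat.lt_succ_of_le (Finset.le_sup (f := id) hx)⟩
  have hex : ∀ x, ∃ y, (x ∈ P₀ → y ∈ P ∧ θ y = x) ∧ (x ∉ P₀ → y = B + x) := by
    intro x
    by_cases hx : x ∈ P₀
    · have h1 : x ∈ P.image θ := by
        rw [hθP]
        exact hx
      obtain ⟨y, hy, hyx⟩ := Finset.mem_image.1 h1
      exact ⟨y, fun _ => ⟨hy, hyx⟩, fun h => absurd hx h⟩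
    · exact ⟨B + x, fun h => absurd h hx, fun _ => rfl⟩
  choose q hq1 hq2 using hex
  have hqD : ∀ x, q x ∈ D → x ∈ P₀ := by
    intro x hx
    by_contra h
    have h1 := hB _ hx
    rw [hq2 x h] at h1
    exact absurd h1 (Nat.not_lt.2 (Nat.le_add_right B x))
  have hqinj : Function.Injective q := by
    intro x y hxy
    by_cases hx : x ∈ P₀
    · have hy : y ∈ P₀ := by
        apply hqD
        rw [← hxy]
        exact hP (hq1 x hx).1
      rw [← (hq1 x hx).2, ← (hq1 y hy).2, hxy]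
    · have hy : y ∉ P₀ := by
        intro hy
        apply hx
        apply hqD
        rw [hxy]
        exact hP (hq1 y hy).1
      have h1 : B + x = B + y := by
        rw [← hq2 x hx, ← hq2 y hy, hxy]
      exact Nat.add_left_cancel h1
  have hkey : ∀ (r : R) (t₀ : ar r → ℕ), (∀ i, t₀ i ∈ P₀) →
      (C r (fun i => q (t₀ i)) ↔ C₀ r t₀) := by
    intro r t₀ ht₀
    have h1 := hθC r (fun i => q (t₀ i)) (fun i => Finset.mem_coe.2 (hq1 _ (ht₀ i)).1)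
    have h2 : (fun i => θ (q (t₀ i))) = t₀ := by
      funext i
      exact (hq1 _ (ht₀ i)).2
    have h3 : C r (fun i => q (t₀ i)) ↔ C₀ r (fun i => θ (q (t₀ i))) := h1
    rw [h2] at h3
    exact h3
  obtain ⟨C₁, hC₁⟩ : ∃ C₁ : Str R ar ℕ, ∀ r (t : ar r → ℕ), C₁ r t ↔
      (((∀ i, t i ∈ D) ∧ C r t) ∨
        ∃ t₀ : ar r → ℕ, (∀ i, t₀ i ∈ T₀) ∧ (∀ i, t i = q (t₀ i)) ∧ C₀ r t₀) :=
    ⟨fun r t => ((∀ i, t i ∈ D) ∧ C r t) ∨
        ∃ t₀ : ar r → ℕ, (∀ i, t₀ i ∈ T₀) ∧ (∀ i, t i = q (t₀ i)) ∧ C₀ r t₀,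
      fun r t => Iff.rfl⟩
  have E1 : EqS (D : Set ℕ) C₁ C := by
    intro r t ht
    rw [hC₁]
    constructor
    · rintro (⟨-, h⟩ | ⟨t₀, -, hq, h⟩)
      · exact h
      · have h1 : ∀ i, t₀ i ∈ P₀ := by
          intro i
          apply hqD
          rw [← hq i]
          exact Finset.mem_coe.1 (ht i)
        have h2 : t = fun i => q (t₀ i) := by
          funext i
          exact hq i
        rw [h2]
        exact (hkey r t₀ h1).2 h
    · intro h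
      exact Or.inl ⟨fun i => Finset.mem_coe.1 (ht i), h⟩
  have E2 : EqS (T₀ : Set ℕ) (cm q C₁) C₀ := by
    intro r t₀ ht₀
    show C₁ r (fun i => q (t₀ i)) ↔ C₀ r t₀
    rw [hC₁]
    constructor
    · rintro (⟨h1, h⟩ | ⟨t₁, -, hq, h⟩)
      · exact (hkey r t₀ (fun i => hqD _ (h1 i))).1 h
      · have h2 : t₀ = t₁ := by
          funext i
          exact hqinj (hq i)
        rw [h2]
        exact h
    · intro h
      exact Or.inr ⟨t₀, fun i => Finset.mem_coe.1 (ht₀ i), fun i => rfl, h⟩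
  have hPq : P₀.image q = P := by
    ext p
    rw [Finset.mem_image]
    constructor
    · rintro ⟨x, hx, rfl⟩
      exact (hq1 x hx).1
    · intro hp
      have h1 : θ p ∈ P₀ := by
        rw [← hθP]
        exact Finset.mem_image_of_mem θ hp
      refine ⟨θ p, h1, ?_⟩
      have h2 := hq1 _ h1
      exact hθ.injOn (Finset.mem_coe.2 h2.1) (Finset.mem_coe.2 hp) h2.2
  refine ⟨fun s => q (m₀ s), C₁, D ∪ T₀.image q, ⟨?_, ?_, ?_, ?_⟩, Finset.subset_union_left, E1,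
    ?_, ?_, ?_⟩
  · intro s s' h
    exact hA.inj (hqinj h)
  · intro s
    exact Finset.mem_union_right _ (Finset.mem_image_of_mem q (hmT s))
  · rw [← hA.str]
    funext r t
    apply propext
    exact E2 r (fun i => m₀ (t i)) (fun i => Finset.mem_coe.2 (hmT (t i)))
  · refine K_glue hM D (T₀.image q) C₁ ?_ (K_congr E1.symm hK)
      (K_cm_conv q hqinj.injOn (K_congr E2.symm (K_mono hT₀D hA.inK)))
    intro r t h _
    rcases (hC₁ r t).1 h with ⟨h1, -⟩ | ⟨t₀, h1, h2, -⟩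
    · exact Or.inl h1
    · refine Or.inr fun i => ?_
      rw [h2 i]
      exact Finset.mem_image_of_mem q (h1 i)
  · have h1 : StrictMonoOn q (P₀ : Set ℕ) := by
      intro x hx y hy hxy
      have h2 := hq1 x (Finset.mem_coe.1 hx)
      have h3 := hq1 y (Finset.mem_coe.1 hy)
      have h4 := hθ.lt_iff_lt (Finset.mem_coe.2 h2.1) (Finset.mem_coe.2 h3.1)
      rw [h2.2, h3.2] at h4
      exact h4.1 hxy
    have h2 : EqS ((P₀ : Set ℕ) ∪ Set.range m₀) C₀ (cm q C₁) := by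
      refine E2.symm.mono ?_
      rintro x (hx | ⟨s, rfl⟩)
      · exact Finset.mem_coe.2 (hPT x (Finset.mem_coe.1 hx))
      · exact Finset.mem_coe.2 (hmT s)
    have h3 := Iso_of_map q m₀ C₁ C₀ P₀ hqinj.injOn h1 h2
    rw [hPq] at h3
    exact Iso_symm h3
  · intro u hu
    exact (hq1 _ (hqD _ hu)).1
  · intro r t h _
    rcases (hC₁ r t).1 h with ⟨h1, -⟩ | ⟨t₀, h1, h2, -⟩
    · exact Or.inl h1
    · refine Or.inr fun i => ?_
      rcases ((hT₀ _).1 (h1 i)).2 with h3 | ⟨s, hs⟩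
      · left
        rw [h2 i]
        exact (hq1 _ h3).1
      · right
        refine ⟨s, ?_⟩
        show q (m₀ s) = t i
        rw [hs, h2 i]

end Pool.Agent.Lib.H3F
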