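import Pool.Agent.Lib.H3F.B4a
import Pool.Agent.Lib.H3F.B4b

/-! # B4: gluing freely to the marked points (all parts) -/
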