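import Pool.Agent.Lib.H3F.N4

/-! # N5: applying rules at all subsets (a) -/

set_option autoImplicit false

namespace Pool.Agent.Lib.H3F

variable {R : Type} {ar : R → Type} [∀ r, Finite (ar r)] {d : ℕ}

/-- Sets outside of `E` do not act on `E`.

Proof. Induction on `l`, for all `C`, `C'` with `EqS E C C'` (generalise).  For `P :: l`: if `P ⊆ E` both sides apply `lo (Λ P) · P`
(`lo_congr`).  If not, the left side applies it but on tuples in `E` nothing changes (`lo_of_not`: `P ⊆ rg t ⊆ E` is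
impossible, `rg_sub`). -/
theorem fo_filter (Λ : Finset ℕ → LoD R ar d) (E : Finset ℕ) (l : List (Finset ℕ)) :
    ∀ C C' : Str R ar ℕ, EqS (E : Set ℕ) C C' →
      EqS (E : Set ℕ) (fo Λ l C) (fo Λ (l.filter (fun P => decide (P ⊆ E))) C') := by
  induction l with
  | nil =>
    intro C C' h
    exact h
  | cons P l ih =>
    intro C C' h
    show EqS (E : Set ℕ) (fo Λ l (lo (Λ P) C P)) _
    by_cases hP : P ⊆ E
    · rw [List.filter_cons_of_pos (by simpa using hP)]
      show EqS (E : Set ℕ) _ (fo Λ (l.filter (fun P => decide (P ⊆ E))) (lo (Λ P) C' P))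
      exact ih _ _ (lo_congr (Λ P) E P C C' h)
    · rw [List.filter_cons_of_neg (by simpa using hP)]
      refine ih _ _ fun r t ht => ?_
      have hn : ¬ P ⊆ rg t := fun hsub => hP (hsub.trans ((rg_sub t E).2 ht))
      rw [lo_of_not (Λ P) C P r t hn]
      exact h r t ht

/-- Proof. `fo_filter` and `subs_filter`. -/
theorem fo_restrict (Λ : Finset ℕ → LoD R ar d) (D E : Finset ℕ) (h : E ⊆ D) (C C' : Str R ar ℕ)
    (hC : EqS (E : Set ℕ) C C') : EqS (E : Set ℕ) (fo Λ (subs D) C) (fo Λ (subs E) C') := by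
  have h1 := fo_filter Λ E (subs D) C C' hC
  rw [subs_filter D E h] at h1
  exact h1

/-- Proof. For a tuple `t` in `D`: `fo_restrict` with `E = rg t` (`rg_sub`), evaluated at `t`. -/
theorem fa_eq (Λ : Finset ℕ → LoD R ar d) (D : Finset ℕ) (C : Str R ar ℕ) :
    EqS (D : Set ℕ) (fa Λ C) (fo Λ (subs D) C) := by
  intro r t ht
  have h1 := fo_restrict Λ D (rg t) ((rg_sub t D).2 ht) C C (EqS.refl _ _)
  exact (h1 r t fun i => Finset.mem_coe.2 ((mem_rg t (t i)).2 ⟨i, rfl⟩)).symm

end Pool.Agent.Lib.H3F
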