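import Pool.Agent.Lib.H3F.N4
import Pool.Agent.Lib.H3F.N5a

/-! # N5: applying rules at all subsets (b) -/

set_option autoImplicit false

namespace Pool.Agent.Lib.H3F

variable {R : Type} {ar : R → Type} [∀ r, Finite (ar r)] {d : ℕ}

/-- Proof. Induction on `l`, for all `C`, `C'` (generalise): `lo_nat`. -/
theorem fo_nat (Λ Λ' : Finset ℕ → LoD R ar d) (f : ℕ → ℕ) (D : Finset ℕ)
    (hf : StrictMonoOn f (D : Set ℕ)) (l : List (Finset ℕ)) (hl : ∀ P ∈ l, P ⊆ D)
    (hΛ : ∀ P ∈ l, Λ' P = Λ (P.image f)) : ∀ C C' : Str R ar ℕ, EqS (D : Set ℕ) C' (cm f C) →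
      EqS (D : Set ℕ) (fo Λ' l C') (cm f (fo Λ (l.map (fun P => P.image f)) C)) := by
  induction l with
  | nil =>
    intro C C' h
    exact h
  | cons P l ih =>
    intro C C' h
    have h1 := lo_nat (Λ (P.image f)) f D P C C' hf (hl P List.mem_cons_self) h
    have h2 : Λ' P = Λ (P.image f) := hΛ P List.mem_cons_self
    have h3 := ih (fun Q hQ => hl Q (List.mem_cons_of_mem _ hQ))
      (fun Q hQ => hΛ Q (List.mem_cons_of_mem _ hQ)) (lo (Λ (P.image f)) C (P.image f))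
      (lo (Λ' P) C' P) (by rw [h2]; exact h1)
    exact h3

/-- **Applying rules at all subsets is natural.**

Proof. For a tuple `t` in `D` let `E = rg t ⊆ D`; `rg (fun i => f (t i)) = E.image f` (`rg_comp`), `subs (E.image f)` is
`(subs E).map (image f)` (`subs_image`), so `fo_nat` on `E` at the tuple `t` (unfold `fa`; `mem_subs`). -/
theorem fa_nat (Λ Λ' : Finset ℕ → LoD R ar d) (f : ℕ → ℕ) (D : Finset ℕ)
    (hf : StrictMonoOn f (D : Set ℕ)) (hΛ : ∀ P ⊆ D, Λ' P = Λ (P.image f)) (C C' : Str R ar ℕ)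
    (hC : EqS (D : Set ℕ) C' (cm f C)) : EqS (D : Set ℕ) (fa Λ' C') (cm f (fa Λ C)) := by
  intro r t ht
  have hE : rg t ⊆ D := (rg_sub t D).2 ht
  have hEs : ((rg t : Finset ℕ) : Set ℕ) ⊆ (D : Set ℕ) := fun x hx => hE hx
  have hfE : StrictMonoOn f ((rg t : Finset ℕ) : Set ℕ) := hf.mono hEs
  have h1 := fo_nat Λ Λ' f (rg t) hfE (subs (rg t)) (fun P hP => (mem_subs (rg t) P).1 hP)
    (fun P hP => hΛ P (((mem_subs (rg t) P).1 hP).trans hE)) C C' (hC.mono hEs) r t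
    (fun i => (mem_rg t (t i)).2 ⟨i, rfl⟩)
  have h2 : subs (rg (fun i => f (t i))) = (subs (rg t)).map (fun P => P.image f) := by
    rw [rg_comp, subs_image f (rg t) hfE]
  have h3 : cm f (fa Λ C) r t = fo Λ (subs (rg (fun i => f (t i)))) C r (fun i => f (t i)) := rfl
  rw [h3, h2]
  exact h1

end Pool.Agent.Lib.H3F
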