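import Pool.Agent.Lib.H3F.N4
import Pool.Agent.Lib.H3F.N5a
import Pool.Agent.Lib.H3F.N5b

/-! # N5: applying rules at all subsets (c) -/

set_option autoImplicit false

namespace Pool.Agent.Lib.H3F

variable {R : Type} {ar : R → Type} [∀ r, Finite (ar r)] {d : ℕ}

/-- Proof. Induction on `l`; the invariant is carried through the list. -/
theorem fo_inv (Λ : Finset ℕ → LoD R ar d) (I : Str R ar ℕ → Prop) (l : List (Finset ℕ))
    (h : ∀ P ∈ l, ∀ B, I B → I (lo (Λ P) B P)) : ∀ C, I C → I (fo Λ l C) := by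
  induction l with
  | nil =>
    intro C hC
    exact hC
  | cons P l ih =>
    intro C hC
    exact ih (fun P' hP' => h P' (List.mem_cons_of_mem P hP')) _ (h P List.mem_cons_self C hC)

/-- Proof. `fo_inv` with `I B = EqS E B C`: `lo_congr` and `h`. -/
theorem fo_triv (Λ : Finset ℕ → LoD R ar d) (E : Finset ℕ) (l : List (Finset ℕ))
    (C : Str R ar ℕ) (h : ∀ P ∈ l, EqS (E : Set ℕ) (lo (Λ P) C P) C) :
    EqS (E : Set ℕ) (fo Λ l C) C :=
  fo_inv Λ (fun B => EqS (E : Set ℕ) B C) l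
    (fun P hP B hB => (lo_congr (Λ P) E P B C hB).trans (h P hP)) C (EqS.refl _ _)

/-- One nontrivial factor.

Proof. Write `l = l₁ ++ P :: l₂` with `P ∉ l₁`, `P ∉ l₂` (`List.append_of_mem`, `Nodup`; `List.foldl_append`).  After `l₁` the
structure is `B` on `E` (`fo_triv` with `h1`), after `P` it is `C` on `E` (`lo_congr`, `h0`), after `l₂` still `C` (`fo_triv` with
`h2` and `lo_congr`: state `fo_triv` for the actual structure, which is only equal to `C` on `E`; use `fo_inv` with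
`I B' = EqS E B' C`). -/
theorem fo_one (Λ : Finset ℕ → LoD R ar d) (E P : Finset ℕ) (l : List (Finset ℕ)) (hl : l.Nodup)
    (hP : P ∈ l) (B C : Str R ar ℕ)
    (h1 : ∀ P' ∈ l, P' ≠ P → EqS (E : Set ℕ) (lo (Λ P') B P') B)
    (h2 : ∀ P' ∈ l, P' ≠ P → EqS (E : Set ℕ) (lo (Λ P') C P') C)
    (h0 : EqS (E : Set ℕ) (lo (Λ P) B P) C) : EqS (E : Set ℕ) (fo Λ l B) C := by
  obtain ⟨l₁, l₂, rfl⟩ := List.append_of_mem hP
  have hn := List.nodup_append.1 hl
  have hP1 : ∀ P' ∈ l₁, P' ≠ P := fun P' hP' => hn.2.2 P' hP' P List.mem_cons_self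
  have hP2 : ∀ P' ∈ l₂, P' ≠ P := fun P' hP' e =>
    (List.nodup_cons.1 hn.2.1).1 (e ▸ hP')
  have e1 : EqS (E : Set ℕ) (fo Λ l₁ B) B := fo_triv Λ E l₁ B fun P' hP' =>
    h1 P' (List.mem_append_left _ hP') (hP1 P' hP')
  have e2 : EqS (E : Set ℕ) (lo (Λ P) (fo Λ l₁ B) P) C := (lo_congr (Λ P) E P _ _ e1).trans h0
  have e3 : EqS (E : Set ℕ) (fo Λ l₂ (lo (Λ P) (fo Λ l₁ B) P)) C :=
    fo_inv Λ (fun B' => EqS (E : Set ℕ) B' C) l₂
      (fun P' hP' B' hB' => (lo_congr (Λ P') E P' B' C hB').trans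
        (h2 P' (List.mem_append_right _ (List.mem_cons_of_mem P hP')) (hP2 P' hP'))) _ e2
  have e4 : fo Λ (l₁ ++ P :: l₂) B = fo Λ l₂ (lo (Λ P) (fo Λ l₁ B) P) := by
    unfold fo
    rw [List.foldl_append, List.foldl_cons]
  rw [e4]
  exact e3

end Pool.Agent.Lib.H3F
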