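import Pool.Agent.Lib.H3F.N5a
import Pool.Agent.Lib.H3F.N5b
import Pool.Agent.Lib.H3F.N5c

/-! # N5: applying rules at all subsets (all parts) -/
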