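import Pool.Agent.Lib.H3F.K2
import Pool.Agent.Lib.H3F.N3
import Pool.Agent.Lib.H3F.N5

/-! # E2: local operations are invertible (a) -/

set_option autoImplicit false

namespace Pool.Agent.Lib.H3F

open Equiv

variable {R : Type} {ar : R → Type} [∀ r, Finite (ar r)] {d : ℕ} {V : Type} {M : Str R ar V}
  {G : Subgroup (Perm V)} {e : LoD R ar d}

/-- A composition of self-maps of a finite set which is injective has injective factors.

Proof. Induction on `l`.  `f :: l`: the composition `x ↦ foldl l (f x)` is injective on `s`, so `f` is injective on `s`, hence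
(`s` finite, `f` maps `s` to `s`) `f '' s = s`, so `foldl l` is injective on `s`; induction hypothesis. -/
theorem foldl_inj {α β : Type} (s : Set α) (hs : s.Finite) (F : β → α → α) (l : List β)
    (hm : ∀ b ∈ l, ∀ x ∈ s, F b x ∈ s)
    (hi : Set.InjOn (fun x => l.foldl (fun y b => F b y) x) s) :
    ∀ b ∈ l, Set.InjOn (F b) s := by
  induction l with
  | nil => intro b hb; exact absurd hb (List.not_mem_nil)
  | cons a l ih =>
    have ha : Set.MapsTo (F a) s s := fun x hx => hm a (List.mem_cons_self) x hx
    have hinj : Set.InjOn (F a) s := by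
      intro x hx y hy hxy
      apply hi hx hy
      show l.foldl (fun y b => F b y) (F a x) = l.foldl (fun y b => F b y) (F a y)
      rw [hxy]
    have himg : F a '' s = s :=
      Set.Finite.eq_of_subset_of_encard_le' hs (Set.image_subset_iff.2 ha)
        (le_of_eq hinj.encard_image.symm)
    have hl : Set.InjOn (fun x => l.foldl (fun y b => F b y) x) s := by
      intro u hu v hv huv
      have hu2 := hu
      have hv2 := hv
      rw [← himg] at hu2 hv2
      obtain ⟨x, hx, rfl⟩ := hu2
      obtain ⟨y, hy, rfl⟩ := hv2
      exact congrArg (F a) (hi hx hy huv)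
    intro b hb
    rcases List.mem_cons.1 hb with rfl | hb
    · exact hinj
    · exact ih (fun c hc x hx => hm c (List.mem_cons_of_mem a hc) x hx) hl b hb


end Pool.Agent.Lib.H3F
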