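import Pool.Agent.Lib.H3F.K2
import Pool.Agent.Lib.H3F.N3
import Pool.Agent.Lib.H3F.N5
import Pool.Agent.Lib.H3F.E2a

/-! # E2: local operations are invertible (b) -/

set_option autoImplicit false

namespace Pool.Agent.Lib.H3F

open Equiv

variable {R : Type} {ar : R → Type} [∀ r, Finite (ar r)] {d : ℕ} {V : Type} {M : Str R ar V}
  {G : Subgroup (Perm V)} {e : LoD R ar d}

/-- The rule `lam` at all sets with `j` elements is a rule at `∅`.

Proof. `raw_exists'` for `F S C = if S = ∅ then fa Λ C else C` with `Λ P = if P.card = j then lam else idLo`; or: `NatF` for `S = ∅`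
is `fa_nat` (`Λ P = Λ (P.image f)` for `P ⊆ D` because `(P.image f).card = P.card`), for `S ≠ ∅` trivial; the tuples with `¬ S ⊆ rg t`
have `S ≠ ∅`. -/
theorem all_op (hd : ∀ r, Nat.card (ar r) ≤ d) (lam : LoD R ar d) (j : ℕ) :
    ∃ φ : LoD R ar d, ∀ C : Str R ar ℕ,
      lo φ C ∅ = fa (fun P => if P.card = j then lam else idLo) C := by
  have hnat : NatF (fun S C => if S = ∅ then fa (fun P => if P.card = j then lam else idLo) C
      else C : Finset ℕ → Str R ar ℕ → Str R ar ℕ) := by
    intro f D S C C' hf hS h
    show EqS (D : Set ℕ)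
      (if S = ∅ then fa (fun P => if P.card = j then lam else idLo) C' else C')
      (cm f (if S.image f = ∅ then fa (fun P => if P.card = j then lam else idLo) C else C))
    by_cases hS0 : S = ∅
    · rw [if_pos hS0, if_pos (by rw [hS0, Finset.image_empty])]
      refine fa_nat _ _ f D hf ?_ C C' h
      intro P hP
      have h1 : (P.image f).card = P.card :=
        card_image_mono f P (hf.mono (Finset.coe_subset.2 hP))
      show (if P.card = j then lam else idLo) = if (P.image f).card = j then lam else idLo
      rw [h1]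
    · rw [if_neg hS0, if_neg (by rw [Finset.image_eq_empty]; exact hS0)]
      exact h
  have hloc : ∀ (C : Str R ar ℕ) (S : Finset ℕ) (r : R) (t : ar r → ℕ), ¬ S ⊆ rg t →
      ((if S = ∅ then fa (fun P => if P.card = j then lam else idLo) C else C) r t ↔ C r t) := by
    intro C S r t hS
    have hS0 : S ≠ ∅ := by
      rintro rfl
      exact hS (Finset.empty_subset _)
    rw [if_neg hS0]
  obtain ⟨φ, hφ⟩ := raw_exists' (d := d) hd _ hnat hloc
  refine ⟨φ, fun C => ?_⟩
  rw [hφ C ∅]
  exact if_pos rfl

end Pool.Agent.Lib.H3F
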