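import Pool.Agent.Lib.H3F.K2
import Pool.Agent.Lib.H3F.N3
import Pool.Agent.Lib.H3F.N5
import Pool.Agent.Lib.H3F.E2a
import Pool.Agent.Lib.H3F.E2b

/-! # E2: local operations are invertible (c) -/

set_option autoImplicit false

namespace Pool.Agent.Lib.H3F

open Equiv

variable {R : Type} {ar : R → Type} [∀ r, Finite (ar r)] {d : ℕ} {V : Type} {M : Str R ar V}
  {G : Subgroup (Perm V)} {e : LoD R ar d}

/-- Restricting a structure to a finite set: there are finitely many restricted structures.

Proof. A structure which is false outside of `D` is determined by its values at the tuples in `D`, i.e. by an element of the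
finite type `∀ r, (ar r → D) → Prop`; `Set.Finite.of_injOn` or `Set.Finite.subset` of a range. -/
theorem finite_res [Finite R] (D : Finset ℕ) :
    {C : Str R ar ℕ | ∀ r t, C r t → ∀ i, t i ∈ D}.Finite := by
  classical
  let φ : Str R ar ℕ → (∀ r : R, (ar r → D) → Prop) := fun C r t => C r (fun i => (t i : ℕ))
  have hinj : Set.InjOn φ {C : Str R ar ℕ | ∀ r t, C r t → ∀ i, t i ∈ D} := by
    intro C hC C' hC' h
    funext r t
    by_cases ht : ∀ i, t i ∈ D
    · have h1 := congrFun (congrFun h r) (fun i => ⟨t i, ht i⟩)
      exact h1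
    · have h1 : ¬ C r t := fun h2 => ht (hC r t h2)
      have h2 : ¬ C' r t := fun h2 => ht (hC' r t h2)
      exact propext ⟨fun h3 => absurd h3 h1, fun h3 => absurd h3 h2⟩
  have hfin : Finite (∀ r : R, (ar r → D) → Prop) := inferInstance
  exact Set.Finite.of_injOn (Set.mapsTo_univ φ _) hinj Set.finite_univ


end Pool.Agent.Lib.H3F
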