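import Pool.Agent.Lib.H3F.K2
import Pool.Agent.Lib.H3F.N3
import Pool.Agent.Lib.H3F.N5
import Pool.Agent.Lib.H3F.E2a
import Pool.Agent.Lib.H3F.E2b
import Pool.Agent.Lib.H3F.E2c

/-! # E2: local operations are invertible (d) -/

set_option autoImplicit false

namespace Pool.Agent.Lib.H3F

open Equiv

variable {R : Type} {ar : R → Type} [∀ r, Finite (ar r)] {d : ℕ} {V : Type} {M : Str R ar V}
  {G : Subgroup (Perm V)} {e : LoD R ar d}

/-- **A local operation is injective on the structures fixed by `e`.**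

Proof. `φ` of `all_op`.  For `C` in `Ke` on `D`: `lo φ C ∅ = fa Λ C = fo Λ (subs D) C` on `D` (`fa_eq`), and every factor
satisfies `Rel` and stays in `Ke` (`IsLo` for `P ⊆ D`, `P.card = j`, `mem_subs`; `IsLo_id` otherwise): `fo_inv` with
`I B = Rel M G D C B ∧ Ke M e D B` (`Rel_trans`).  So `Star` applies: `lo φ · ∅` is injective on `Ke` (as equality on `D`).  Let
`s` be the set of the structures `C` in `Ke M e D` which are false outside of `D`: finite (`finite_res`).  Let
`F P C = (lo (Λ P) C P)` restricted to `D` (`fun r t => (∀ i, t i ∈ D) ∧ lo (Λ P) C P r t`); it maps `s` to `s`.  The composition of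
the `F P`, `P ∈ subs D`, is `fo Λ (subs D)` on `D` (induction, `lo_congr`), so it is injective on `s`; `foldl_inj` gives: `F S` is
injective on `s` for our `S`.  Finally restrict `C`, `C'` to `D`. -/
theorem lo_injOn [Finite R] (hd : ∀ r, Nat.card (ar r) ≤ d) (hM : HFA M) (hG : Au M ≤ G)
    (hst : Star M G e) (j : ℕ) (lam : LoD R ar d) (hl : IsLo M G e j lam) (D : Finset ℕ)
    (C C' : Str R ar ℕ) (S : Finset ℕ) (hC : Ke M e D C) (hC' : Ke M e D C') (hS : S ⊆ D)
    (hj : S.card = j) (h : EqS (D : Set ℕ) (lo lam C S) (lo lam C' S)) :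
    EqS (D : Set ℕ) C C' := by
  obtain ⟨φ, hφ⟩ := all_op (d := d) hd lam j
  let Λ : Finset ℕ → LoD R ar d := fun P => if P.card = j then lam else idLo
  have hφ' : ∀ C : Str R ar ℕ, lo φ C ∅ = fa Λ C := hφ
  have hA : ∀ (D P : Finset ℕ) (B : Str R ar ℕ), P ⊆ D → Ke M e D B →
      Rel M G D B (lo (Λ P) B P) ∧ Ke M e D (lo (Λ P) B P) := by
    intro D P B hP hB
    by_cases hc : P.card = j
    · have h1 : Λ P = lam := if_pos hc
      rw [h1]
      exact hl D B P hB hP hc
    · have h1 : Λ P = idLo := if_neg hc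
      rw [h1]
      exact IsLo_id hd P.card D B P hB hP rfl
  have hB : ∀ (D : Finset ℕ) (C : Str R ar ℕ), Ke M e D C →
      Rel M G D C (lo φ C ∅) ∧ Ke M e D (lo φ C ∅) := by
    intro D C hC
    have h1 := fo_inv Λ (fun B => Rel M G D C B ∧ Ke M e D B) (subs D)
      (fun P hP B hB => by
        have h2 := hA D P B ((mem_subs D P).1 hP) hB.2
        exact ⟨Rel_trans hM hG hB.1 h2.1, h2.2⟩) C ⟨Rel_refl hC.1, hC⟩
    have h3 : EqS (D : Set ℕ) (fo Λ (subs D) C) (lo φ C ∅) := by
      rw [hφ']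
      exact (fa_eq Λ D C).symm
    exact ⟨Rel_congr (EqS.refl _ _) h3 h1.1, Ke_congr h3 h1.2⟩
  have hstar := hst φ hB
  let s : Set (Str R ar ℕ) := {C | Ke M e D C ∧ ∀ r t, C r t → ∀ i, t i ∈ D}
  have hs : s.Finite := (finite_res D).subset fun C hC => hC.2
  let F : Finset ℕ → Str R ar ℕ → Str R ar ℕ := fun P C r t =>
    (∀ i, t i ∈ D) ∧ lo (Λ P) C P r t
  have hF : ∀ P C, EqS (D : Set ℕ) (F P C) (lo (Λ P) C P) := fun P C r t ht =>
    ⟨fun h => h.2, fun h => ⟨fun i => Finset.mem_coe.1 (ht i), h⟩⟩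
  have hm : ∀ P ∈ subs D, ∀ x ∈ s, F P x ∈ s := by
    intro P hP x hx
    refine ⟨Ke_congr (hF P x).symm (hA D P x ((mem_subs D P).1 hP) hx.1).2, ?_⟩
    intro r t ht
    exact ht.1
  have hcomp : ∀ (l : List (Finset ℕ)) (x y : Str R ar ℕ), EqS (D : Set ℕ) x y →
      EqS (D : Set ℕ) (l.foldl (fun y b => F b y) x) (fo Λ l y) := by
    intro l
    induction l with
    | nil =>
      intro x y hxy
      exact hxy
    | cons P l ih =>
      intro x y hxy
      exact ih (F P x) (lo (Λ P) y P) ((hF P x).trans (lo_congr (Λ P) D P x y hxy))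
  have hext : ∀ x y : Str R ar ℕ, x ∈ s → y ∈ s → EqS (D : Set ℕ) x y → x = y := by
    intro x y hx hy hxy
    funext r t
    by_cases ht : ∀ i, t i ∈ D
    · exact propext (hxy r t fun i => Finset.mem_coe.2 (ht i))
    · exact propext ⟨fun h => absurd (hx.2 r t h) ht, fun h => absurd (hy.2 r t h) ht⟩
  have hi : Set.InjOn (fun x => (subs D).foldl (fun y b => F b y) x) s := by
    intro x hx y hy hxy
    have hxy' : (subs D).foldl (fun y b => F b y) x = (subs D).foldl (fun y b => F b y) y := hxy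
    have h1 : EqS (D : Set ℕ) (fo Λ (subs D) x) (fo Λ (subs D) y) := by
      have h2 := (hcomp (subs D) x x (EqS.refl _ _)).symm
      rw [hxy'] at h2
      exact h2.trans (hcomp (subs D) y y (EqS.refl _ _))
    have h3 : EqS (D : Set ℕ) (lo φ x ∅) (lo φ y ∅) := by
      rw [hφ', hφ']
      exact ((fa_eq Λ D x).trans h1).trans (fa_eq Λ D y).symm
    exact hext x y hx hy (hstar D x y hx.1 hy.1 h3)
  have hinj := foldl_inj s hs F (subs D) hm hi S ((mem_subs D S).2 hS)
  let res : Str R ar ℕ → Str R ar ℕ := fun C r t => (∀ i, t i ∈ D) ∧ C r t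
  have hres : ∀ C, EqS (D : Set ℕ) (res C) C := fun C r t ht =>
    ⟨fun h => h.2, fun h => ⟨fun i => Finset.mem_coe.1 (ht i), h⟩⟩
  have hr1 : ∀ C, Ke M e D C → res C ∈ s := fun C hC =>
    ⟨Ke_congr (hres C).symm hC, fun r t ht => ht.1⟩
  have hΛS : Λ S = lam := if_pos hj
  have heq : F S (res C) = F S (res C') := by
    funext r t
    have h4 : EqS (D : Set ℕ) (lo lam (res C) S) (lo lam (res C') S) :=
      ((lo_congr lam D S _ _ (hres C)).trans h).trans (lo_congr lam D S _ _ (hres C')).symm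
    show ((∀ i, t i ∈ D) ∧ lo (Λ S) (res C) S r t) = ((∀ i, t i ∈ D) ∧ lo (Λ S) (res C') S r t)
    rw [hΛS]
    exact propext (and_congr_right fun ht => h4 r t fun i => Finset.mem_coe.2 (ht i))
  have h5 : res C = res C' := hinj (hr1 C hC) (hr1 C' hC') heq
  exact ((hres C).symm.trans (by rw [h5]; exact EqS.refl _ _)).trans (hres C')

end Pool.Agent.Lib.H3F
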