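import Pool.Agent.Lib.H3F.E2a
import Pool.Agent.Lib.H3F.E2b
import Pool.Agent.Lib.H3F.E2c
import Pool.Agent.Lib.H3F.E2d
import Pool.Agent.Lib.H3F.E2e

/-! # E2: local operations are invertible (all parts) -/
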