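import Pool.Agent.Lib.H3F.K1
import Pool.Agent.Lib.H3F.N3

/-! # K2: the structures fixed by an idempotent operation (a) -/

set_option autoImplicit false

namespace Pool.Agent.Lib.H3F

open Equiv

variable {R : Type} {ar : R → Type} [∀ r, Finite (ar r)] {d : ℕ} {V : Type} {M : Str R ar V}
  {G : Subgroup (Perm V)} {e : LoD R ar d}

/-- Proof. `K_congr`, `lo_congr`. -/
theorem Ke_congr {D : Finset ℕ} {C C' : Str R ar ℕ} (h : EqS (D : Set ℕ) C C')
    (hC : Ke M e D C) : Ke M e D C' := by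
  exact ⟨K_congr h hC.1, ((lo_congr e D ∅ C C' h).symm.trans hC.2).trans h⟩

/-- Proof. `K_mono`, `EqS.mono`. -/
theorem Ke_mono {D D' : Finset ℕ} {C : Str R ar ℕ} (h : D' ⊆ D) (hC : Ke M e D C) :
    Ke M e D' C := by
  exact ⟨K_mono h hC.1, hC.2.mono (Finset.coe_subset.2 h)⟩

/-- Proof. `K_cm`, and `lo_nat` for `S = ∅` (`Finset.image_empty`). -/
theorem Ke_cm {D : Finset ℕ} {C : Str R ar ℕ} (f : ℕ → ℕ) (hf : StrictMonoOn f (D : Set ℕ))
    (hC : Ke M e (D.image f) C) : Ke M e D (cm f C) := by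
  refine ⟨K_cm f hf.injOn hC.1, ?_⟩
  have h1 := lo_nat e f D ∅ C (cm f C) hf (Finset.empty_subset D) (EqS.refl _ _)
  rw [Finset.image_empty] at h1
  exact h1.trans (hC.2.cm f (D : Set ℕ) fun x hx =>
    Finset.mem_coe.2 (Finset.mem_image_of_mem f (Finset.mem_coe.1 hx)))

/-- Proof. `K_cm_conv`, and `lo_nat` for `S = ∅`: every tuple in `D.image f` is `f ∘ t` with `t` in `D`. -/
theorem Ke_cm_conv {D : Finset ℕ} {C : Str R ar ℕ} (f : ℕ → ℕ) (hf : StrictMonoOn f (D : Set ℕ))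
    (hC : Ke M e D (cm f C)) : Ke M e (D.image f) C := by
  refine ⟨K_cm_conv f hf.injOn hC.1, ?_⟩
  have h1 := lo_nat e f D ∅ C (cm f C) hf (Finset.empty_subset D) (EqS.refl _ _)
  rw [Finset.image_empty] at h1
  intro r t ht
  have h2 : ∀ i, ∃ x ∈ D, f x = t i := fun i => Finset.mem_image.1 (Finset.mem_coe.1 (ht i))
  choose t' ht' htf using h2
  have h3 : t = fun i => f (t' i) := by
    funext i
    exact (htf i).symm
  have h4 : ∀ i, t' i ∈ (D : Set ℕ) := fun i => Finset.mem_coe.2 (ht' i)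
  rw [h3]
  exact (h1 r t' h4).symm.trans (hC.2 r t' h4)

/-- Proof. `Rel_right`, and idempotence. -/
theorem Ke_op (he : IsOp M G e) (hi : Idm M e) {D : Finset ℕ} {C : Str R ar ℕ} (h : K M D C) :
    Ke M e D (lo e C ∅) := by
  exact ⟨Rel_right (he D C h), hi D C h⟩

end Pool.Agent.Lib.H3F
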