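import Pool.Agent.Lib.H3F.K1
import Pool.Agent.Lib.H3F.N3
import Pool.Agent.Lib.H3F.K2a

/-! # K2: the structures fixed by an idempotent operation (b) -/

set_option autoImplicit false

namespace Pool.Agent.Lib.H3F

open Equiv

variable {R : Type} {ar : R → Type} [∀ r, Finite (ar r)] {d : ℕ} {V : Type} {M : Str R ar V}
  {G : Subgroup (Perm V)} {e : LoD R ar d}

private theorem k2b_eq {U : Finset ℕ} (hU : U.card ≤ d) (C : Str R ar ℕ) :
    EqS ((Finset.range U.card : Finset ℕ) : Set ℕ) (cm (nth U) C) (up (nrm d U C)) := by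
  intro r t ht
  have hlt : ∀ i, t i < U.card := fun i => Finset.mem_range.1 (Finset.mem_coe.1 (ht i))
  constructor
  · intro h
    refine ⟨fun i => ⟨t i, by have := hlt i; omega⟩, fun i => rfl, fun i => hlt i, ?_⟩
    exact h
  · rintro ⟨s, hs, _, h2⟩
    have h3 : t = fun i => (s i : ℕ) := funext hs
    rw [h3]
    exact h2

/-- The normal form of a structure on `U` embeds if the structure does.

Proof. `EqS (range U.card) (up (nrm d U C)) (cm (nth U) C)` (as in `raw_exists`: `up`, `nrm`, `U.card ≤ d`), then `K_cm` with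
`nth_mono` (injective) and `image_nth`. -/
theorem K_up {U : Finset ℕ} (hU : U.card ≤ d) {C : Str R ar ℕ} (h : K M U C) :
    K M (Finset.range U.card) (up (nrm d U C)) := by
  refine K_congr (k2b_eq hU C) (K_cm (nth U) (nth_mono U).injOn ?_)
  rw [image_nth]
  exact h

/-- Proof. `EqS (range U.card) (up (nrm d U C)) (cm (nth U) C)` as in `K_up`, `Ke_congr`, `Ke_cm` with `nth_mono`, `image_nth`. -/
theorem Ke_up {U : Finset ℕ} (hU : U.card ≤ d) {C : Str R ar ℕ} (h : Ke M e U C) :
    Ke M e (Finset.range U.card) (up (nrm d U C)) := by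
  refine Ke_congr (k2b_eq hU C) (Ke_cm (nth U) (nth_mono U) ?_)
  rw [image_nth]
  exact h

end Pool.Agent.Lib.H3F
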