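import Pool.Agent.Lib.H3F.K1
import Pool.Agent.Lib.H3F.N3
import Pool.Agent.Lib.H3F.K2a
import Pool.Agent.Lib.H3F.K2b

/-! # K2: the structures fixed by an idempotent operation (c) -/

set_option autoImplicit false

namespace Pool.Agent.Lib.H3F

open Equiv

variable {R : Type} {ar : R → Type} [∀ r, Finite (ar r)] {d : ℕ} {V : Type} {M : Str R ar V}
  {G : Subgroup (Perm V)} {e : LoD R ar d}

/-- The local operation at sets with more than `d` elements is trivial.

Proof. `S ⊆ rg t` would give `j = S.card ≤ (rg t).card ≤ d` (`card_rg`, `hd`).  So `lo lam C S = C` (`lo_of_not`), and `Rel_refl`. -/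
theorem IsLo_big (hd : ∀ r, Nat.card (ar r) ≤ d) (j : ℕ) (hj : d < j) (lam : LoD R ar d) :
    IsLo M G e j lam := by
  intro D C S hKe hS hcard
  have h : lo lam C S = C := by
    funext r t
    refine propext (lo_of_not lam C S r t ?_)
    intro hsub
    have h1 : S.card ≤ (rg t).card := Finset.card_le_card hsub
    have h2 : (rg t).card ≤ Nat.card (ar r) := card_rg t
    have h3 := hd r
    omega
  rw [h]
  exact ⟨Rel_refl hKe.1, hKe⟩

/-- Proof. `lo_idLo`: `lo idLo C S = C`; `Rel_refl`. -/
theorem IsLo_id (hd : ∀ r, Nat.card (ar r) ≤ d) (j : ℕ) : IsLo M G e j (idLo : LoD R ar d) := by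
  intro D C S hKe hS hcard
  have h : lo (idLo : LoD R ar d) C S = C := by
    funext r t
    exact propext (lo_idLo hd C S r t)
  rw [h]
  exact ⟨Rel_refl hKe.1, hKe⟩

end Pool.Agent.Lib.H3F
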