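import Pool.Agent.Lib.H3F.B3
import Pool.Agent.Lib.H3F.B4
import Pool.Agent.Lib.H3F.K2
import Pool.Agent.Lib.H3F.E2
import Pool.Agent.Lib.H3F.B5a
import Pool.Agent.Lib.H3F.B5b
import Pool.Agent.Lib.H3F.B5c

/-! # B5: the undoing rules (d) -/

set_option autoImplicit false

namespace Pool.Agent.Lib.H3F

open Equiv

variable {R : Type} {ar : R → Type} [∀ r, Finite (ar r)] {d : ℕ} {κ : Type} {V : Type}
  {M : Str R ar V} {G : Subgroup (Perm V)} {A : Str R ar κ} {e : LoD R ar d}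
  {N : (κ → ℕ) → Str R ar ℕ → Str R ar ℕ} {s h : ℕ}

/-- **The undoing rule is trivial if the template is connected to the marked points through a smaller set.**

Proof. `glue_exists` for `D`, `B`, `P` and the template gives `m`, `C₁`, `D₁` with `C₁ = B` on `D`, `Iso m C₁ P m₀ C₀ P₀`, the marked
points in `D` are in `P`, `Con D P m C₁`.  `Con_iso` (for the inverse isomorphism) gives `Q' ⊆ P` with `Q'.card = Q.card`, the
marked points of `P` in `Q'` and `Con P Q' m C₁`; `Con_trans` gives `Con D Q' m C₁`.  `mk m D = mk m P = s` (the marked points of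
`D` are in `P`; `Iso_mk`).  `hg` for `E = D`, `P := Q'` gives `N m C₁ = C₁` on `D` (`Ke_congr`); `hmu` gives `lo mu (N m C₁) P = C₁` on
`D`.  So `lo mu B P = lo mu (N m C₁) P = C₁ = B` on `D` (`lo_congr`). -/
theorem mu_triv [Nonempty V] (hM : HFA M) (hg : Gd M A e s h N) (D₀ : Finset ℕ) (m₀ : κ → ℕ)
    (C₀ : Str R ar ℕ) (P₀ Q : Finset ℕ) (hA : Adm M A D₀ m₀ C₀) (hP₀ : P₀ ⊆ D₀)
    (hs : mk m₀ P₀ = s) (mu : LoD R ar d) (hmu : GMu M G A e N (s + h) m₀ C₀ P₀ mu)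
    (hQ : Q ⊆ P₀) (hQm : ∀ u, m₀ u ∈ P₀ → m₀ u ∈ Q) (hC : Con P₀ Q m₀ C₀)
    (hQc : Q.card < s + h) (D : Finset ℕ) (B : Str R ar ℕ) (P : Finset ℕ) (hB : Ke M e D B)
    (hP : P ⊆ D) (hI : IsoS B P C₀ P₀) : EqS (D : Set ℕ) (lo mu B P) B := by
  obtain ⟨m, C₁, D₁, hAd, hDD, hEq, hIso, hmm, hCon⟩ :=
    glue_exists hM A D₀ m₀ C₀ P₀ hA hP₀ D B P hB.1 hP hI
  obtain ⟨Q', hQ', hcard, hmQ, hConQ⟩ := Con_iso (Iso_symm hIso) hQ hQm hC
  have hConD : Con D Q' m C₁ := Con_trans hCon hConQ hP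
  have hmP : mk m P = s := (Iso_mk hIso).trans hs
  have h1 : mk m P ≤ mk m D := mk_mono m hP
  have h2 : mk m D ≤ mk m P := by
    classical
    unfold mk
    refine Finset.card_le_card ?_
    intro x hx
    obtain ⟨hxE, u, hu⟩ := Finset.mem_filter.1 hx
    refine Finset.mem_filter.2 ⟨?_, u, hu⟩
    rw [← hu]
    apply hmm
    rw [hu]
    exact hxE
  have hK1 : Ke M e D C₁ := Ke_congr hEq.symm hB
  have h3 : EqS (D : Set ℕ) (N m C₁) C₁ :=
    hg D₁ D Q' m C₁ hAd (hQ'.trans hP) hDD (fun u hu => hmQ u (hmm u hu)) hConD hK1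
      (Or.inr ⟨by omega, by omega⟩)
  have h4 : EqS (D : Set ℕ) (lo mu (N m C₁) P) C₁ :=
    hmu.2 D₁ D P m C₁ hAd hP hDD hIso hmm hCon hK1
  have h5 : EqS (D : Set ℕ) B (N m C₁) := (h3.trans hEq).symm
  have h6 : EqS (D : Set ℕ) (lo mu B P) (lo mu (N m C₁) P) := lo_congr mu D P B (N m C₁) h5
  exact (h6.trans h4).trans hEq

end Pool.Agent.Lib.H3F
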