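import Pool.Agent.Lib.H3F.B5a
import Pool.Agent.Lib.H3F.B5b
import Pool.Agent.Lib.H3F.B5c
import Pool.Agent.Lib.H3F.B5d

/-! # B5: the undoing rules (all parts) -/
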