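import Pool.Agent.Lib.H3F.B5
import Pool.Agent.Lib.H3F.N5
import Pool.Agent.Lib.H3F.B6a
import Pool.Agent.Lib.H3F.B6b

/-! # B6: the step of the main induction (c) -/

set_option autoImplicit false

namespace Pool.Agent.Lib.H3F

open Equiv

variable {R : Type} {ar : R → Type} [∀ r, Finite (ar r)] {d : ℕ} {κ : Type} {V : Type}
  {M : Str R ar V} {G : Subgroup (Perm V)} {A : Str R ar κ} {e : LoD R ar d}
  {N : (κ → ℕ) → Str R ar ℕ → Str R ar ℕ} {s h : ℕ}

/-- **The next map is obtained by local operations**, for any group which has the local operations of `G`.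

Proof. `fa_eq` on `D` and `fo_inv` for the list `subs D` with `I B = Rel M G' D (N m C) B ∧ Ke M e D B`: for `P ⊆ D` (`mem_subs`)
the rule is a local operation of `G` at sets with `P.card` elements (`Lam_isLo`), hence of `G'` (`hGG`), so `Rel_trans`.
Start: `Rel_refl` with `K M D (N m C)` from `hK`.  Finally `Rel_congr`, `Ke_congr`. -/
theorem nxt_rel (hd : ∀ r, Nat.card (ar r) ≤ d) (hM : HFA M) {G' : Subgroup (Perm V)}
    (hG' : Au M ≤ G') (hGG : ∀ (j : ℕ) (lam : LoD R ar d), IsLo M G e j lam → IsLo M G' e j lam)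
    (D : Finset ℕ) (m : κ → ℕ) (C : Str R ar ℕ) (hK : Ke M e D (N m C)) :
    Rel M G' D (N m C) (nxt M G A e N s h m C) ∧ Ke M e D (nxt M G A e N s h m C) := by
  have h1 : ∀ P ∈ subs D, ∀ B, (Rel M G' D (N m C) B ∧ Ke M e D B) →
      (Rel M G' D (N m C) (lo (Lam M G A e N s h m C P) B P) ∧
        Ke M e D (lo (Lam M G A e N s h m C P) B P)) := by
    intro P hP B hB
    have hPD : P ⊆ D := (mem_subs D P).1 hP
    have h2 : IsLo M G' e P.card (Lam M G A e N s h m C P) := hGG _ _ (Lam_isLo hd m C P)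
    obtain ⟨h3, h4⟩ := h2 D B P hB.2 hPD rfl
    exact ⟨Rel_trans hM hG' hB.1 h3, h4⟩
  have h2 := fo_inv (Lam M G A e N s h m C) (fun B => Rel M G' D (N m C) B ∧ Ke M e D B)
    (subs D) h1 (N m C) ⟨Rel_refl hK.1, hK⟩
  have h3 : EqS (D : Set ℕ) (fo (Lam M G A e N s h m C) (subs D) (N m C))
      (nxt M G A e N s h m C) := (fa_eq (Lam M G A e N s h m C) D (N m C)).symm
  exact ⟨Rel_congr (EqS.refl _ _) h3 h2.1, Ke_congr h3 h2.2⟩

/-- Proof. `nxt_ntr`; `nxt_rel` for `G' = G` and `Rel_trans`. -/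
theorem nxt_inv (hd : ∀ r, Nat.card (ar r) ≤ d) (hM : HFA M) (hG : Au M ≤ G)
    (hi : Inv M G A e N) : Inv M G A e (nxt M G A e N s h) := by
  refine ⟨nxt_ntr hi.ntr, ?_⟩
  intro D m C hA
  obtain ⟨h1, h2⟩ := hi.rel D m C hA
  obtain ⟨h3, h4⟩ := nxt_rel (A := A) (s := s) (h := h) hd hM hG (fun _ _ h' => h') D m C h2
  exact ⟨Rel_trans hM hG h1 h3, h4⟩

end Pool.Agent.Lib.H3F
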