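import Pool.Agent.Lib.H3F.B5
import Pool.Agent.Lib.H3F.N5
import Pool.Agent.Lib.H3F.B6a
import Pool.Agent.Lib.H3F.B6b
import Pool.Agent.Lib.H3F.B6c
import Pool.Agent.Lib.H3F.B6d

/-! # B6: the step of the main induction (e) -/

set_option autoImplicit false

namespace Pool.Agent.Lib.H3F

open Equiv

variable {R : Type} {ar : R → Type} [∀ r, Finite (ar r)] {d : ℕ} {κ : Type} {V : Type}
  {M : Str R ar V} {G : Subgroup (Perm V)} {A : Str R ar κ} {e : LoD R ar d}
  {N : (κ → ℕ) → Str R ar ℕ → Str R ar ℕ} {s h : ℕ}

/-- **The step.**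

Proof. Let `D`, `E`, `P`, `m`, `C` be as in `Gd` for `h + 1`.  `nxt m C = fo Λ (subs E) (N m C)` on `E` (`fa_eq`), `Λ = Lam … m C`.
Case `mk m E < s`: `N m C = C` on `E` (`hg`), every `P' ⊆ E` has `mk m P' < s` (`mk_mono`), so `Λ P' = idLo` and `fo_triv`
(`lo_idLo`).  Case `mk m E = s`, `P.card ≤ s + h`.  For `P' ⊆ E` with `P' ≠ P` or `P.card < s + h`, `factor_triv` applies to
`B = C` (`Ke M e E C`), and to `B = N m C` if `N m C = C` on `P'`: `Ke M e E (N m C)` from `hi.rel` and `Ke_mono`; `N m C = C` on
`P'`: if the condition of `Lam` fails for `P'` this is not needed (`Lam_of_not`, `lo_idLo`), otherwise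
`hg` for `E := P'`, `P := P ∩ P'` (`Con_sub`, `(P ∩ P').card < s + h` as in `factor_triv`; `mk m P' = s`).  If `P.card < s + h`: `N m C = C` on `E` by
`hg`, and `fo_triv` for all `P' ∈ subs E`.  If `P.card = s + h`: `fo_one` for the factor `P`: `mk m P = s` (all marked points of `E` are
in `P`: `mk_mono` and counting, or the filters of `E` and `P` are equal), `Lam_spec` and the second component of `GMu` (`Iso_refl`)
give `lo (Λ P) (N m C) P = C` on `E`. -/
theorem step_gd [Finite R] [Nonempty V] (hd : ∀ r, Nat.card (ar r) ≤ d) (hM : HFA M)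
    (hG : Au M ≤ G) (hst : Star M G e) (hi : Inv M G A e N) (hg : Gd M A e s h N) :
    Gd M A e s (h + 1) (nxt M G A e N s h) := by
  intro D E P m C hA hP hE hm hC hK hor
  have e1 : EqS (E : Set ℕ) (nxt M G A e N s h m C)
      (fo (Lam M G A e N s h m C) (subs E) (N m C)) := fa_eq (Lam M G A e N s h m C) E (N m C)
  refine e1.trans ?_
  rcases hor with h1 | ⟨h1, h2⟩
  · have e2 : EqS (E : Set ℕ) (N m C) C := hg D E P m C hA hP hE hm hC hK (Or.inl h1)
    refine (fo_triv (Lam M G A e N s h m C) E (subs E) (N m C) ?_).trans e2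
    intro P' hP'
    have h3 : Lam M G A e N s h m C P' = idLo := Lam_of_not m C P' fun hh => by
      have h4 := mk_mono m ((mem_subs E P').1 hP')
      omega
    rw [h3]
    intro r t _
    exact lo_idLo hd _ _ r t
  · have hPc : P.card ≤ s + h := by omega
    have tr : ∀ P' ∈ subs E, (P' ≠ P ∨ P.card < s + h) →
        EqS (E : Set ℕ) (lo (Lam M G A e N s h m C P') C P') C := fun P' hP' hne =>
      factor_triv hd hM hG hst hi hg D E P m C hA hP hE hm hC h1 hPc P' ((mem_subs E P').1 hP')
        hne C hK (EqS.refl _ _)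
    by_cases hlt : P.card < s + h
    · have e2 : EqS (E : Set ℕ) (N m C) C := hg D E P m C hA hP hE hm hC hK (Or.inr ⟨h1, hlt⟩)
      refine (fo_triv (Lam M G A e N s h m C) E (subs E) (N m C) ?_).trans e2
      intro P' hP'
      exact (lo_congr (Lam M G A e N s h m C P') E P' _ _ e2).trans
        ((tr P' hP' (Or.inr hlt)).trans e2.symm)
    · have hPe : P.card = s + h := by omega
      refine fo_one (Lam M G A e N s h m C) E P (subs E) (nodup_subs E) ((mem_subs E P).2 hP)
        (N m C) C ?_ (fun P' hP' hne => tr P' hP' (Or.inl hne)) ?_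
      · intro P' hP' hne
        by_cases hc : mk m P' = s ∧ P'.card = s + h
        · have hsub := (mem_subs E P').1 hP'
          refine factor_triv hd hM hG hst hi hg D E P m C hA hP hE hm hC h1 hPc P' hsub
            (Or.inl hne) (N m C) (Ke_mono hE (hi.rel D m C hA).2) ?_
          have hle : mk m E ≤ mk m P' := by omega
          have hms : ∀ u, m u ∈ E → m u ∈ P' := fun u hu => mk_eq m hsub hle u hu
          have hCon := Con_sub hC hsub hms
          have hlt' : (P ∩ P').card < s + h := by
            have h4 : (P ∩ P').card ≤ P.card := Finset.card_le_card Finset.inter_subset_left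
            rcases Nat.lt_or_eq_of_le h4 with h5 | h5
            · omega
            · exfalso
              have h6 : P ∩ P' = P :=
                Finset.eq_of_subset_of_card_le Finset.inter_subset_left (le_of_eq h5.symm)
              have h7 : P ⊆ P' := Finset.inter_eq_left.1 h6
              exact hne (Finset.eq_of_subset_of_card_le h7 (by omega)).symm
          exact hg D P' (P ∩ P') m C hA Finset.inter_subset_right (hsub.trans hE)
            (fun u hu => Finset.mem_inter.2 ⟨hm u (hsub hu), hu⟩) hCon (Ke_mono hsub hK)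
            (Or.inr ⟨hc.1, hlt'⟩)
        · have h3 : Lam M G A e N s h m C P' = idLo := Lam_of_not m C P' hc
          rw [h3]
          intro r t _
          exact lo_idLo hd _ _ r t
      · have hmkP : mk m P = s := by
          refine le_antisymm (h1 ▸ mk_mono m hP) ?_
          rw [← h1]
          classical
          unfold mk
          refine Finset.card_le_card fun x hx => ?_
          rw [Finset.mem_filter] at hx ⊢
          obtain ⟨hx1, u, hu⟩ := hx
          refine ⟨?_, u, hu⟩
          rw [← hu] at hx1 ⊢
          exact hm u hx1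
        have hspec := Lam_spec hd hM hG hst hi hg D m C P hA (hP.trans hE) hmkP hPe
        exact hspec.2 D E P m C hA hP hE (Iso_refl m C P) hm hC hK

end Pool.Agent.Lib.H3F
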