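import Pool.Agent.Lib.H3F.B5
import Pool.Agent.Lib.H3F.N5
import Pool.Agent.Lib.H3F.B6a
import Pool.Agent.Lib.H3F.B6b
import Pool.Agent.Lib.H3F.B6c
import Pool.Agent.Lib.H3F.B6d
import Pool.Agent.Lib.H3F.B6e

/-! # B6: the step of the main induction (f) -/

set_option autoImplicit false

namespace Pool.Agent.Lib.H3F

open Equiv

variable {R : Type} {ar : R → Type} [∀ r, Finite (ar r)] {d : ℕ} {κ : Type} {V : Type}
  {M : Str R ar V} {G : Subgroup (Perm V)} {A : Str R ar κ} {e : LoD R ar d}
  {N : (κ → ℕ) → Str R ar ℕ → Str R ar ℕ} {s h : ℕ}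

/-- **From `s` to `s + 1` marked points.**

Proof. Let `D`, `E`, `P`, `m`, `C` be as in `Gd` for `s + 1`, `0`.  Then `mk m E ≤ s` (in the second alternative
`P.card < s + 1 = mk m E`, but all marked points of `E` are in `P`, so `mk m E = mk m P ≤ P.card`: impossible).  Let `t` be a tuple in
`E` and `U = rg t`, `U.card ≤ d` (`card_rg`).  `hg` for `E := U`, `P := U` (`Con_self`, `Ke_mono`): `mk m U < s`, or `mk m U = s` and
`U.card ≤ d < s + (d + 1)`. -/
theorem gd_succ (hd : ∀ r, Nat.card (ar r) ≤ d) (hg : Gd M A e s (d + 1) N) :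
    Gd M A e (s + 1) 0 N := by
  classical
  intro D E P m C hA hPE hED hmP hCon hKe hor
  have hle : mk m E ≤ s := by
    rcases hor with h1 | ⟨h1, h2⟩
    · exact Nat.le_of_lt_succ h1
    · exfalso
      have h3 : mk m E ≤ P.card := by
        rw [mk]
        refine Finset.card_le_card fun x hx => ?_
        rw [Finset.mem_filter] at hx
        obtain ⟨hxE, u, hu⟩ := hx
        rw [← hu] at hxE ⊢
        exact hmP u hxE
      omega
  intro r t ht
  have hUE : rg t ⊆ E := by
    intro x hx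
    rw [mem_rg] at hx
    obtain ⟨i, rfl⟩ := hx
    exact Finset.mem_coe.1 (ht i)
  have hUd : (rg t).card ≤ d := (card_rg t).trans (hd r)
  have hmU : mk m (rg t) ≤ s := by
    refine le_trans ?_ hle
    rw [mk, mk]
    exact Finset.card_le_card (Finset.filter_subset_filter _ hUE)
  refine hg D (rg t) (rg t) m C hA (Finset.Subset.refl _) (hUE.trans hED) (fun u h => h)
    (Con_self _ m C) (Ke_mono hUE hKe) ?_ r t (fun i => Finset.mem_coe.2 ((mem_rg t _).2 ⟨i, rfl⟩))
  rcases Nat.lt_or_eq_of_le hmU with h1 | h1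
  · exact Or.inl h1
  · exact Or.inr ⟨h1, by omega⟩

end Pool.Agent.Lib.H3F
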