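import Pool.Agent.Lib.H3F.B6a
import Pool.Agent.Lib.H3F.B6b
import Pool.Agent.Lib.H3F.B6c
import Pool.Agent.Lib.H3F.B6d
import Pool.Agent.Lib.H3F.B6e
import Pool.Agent.Lib.H3F.B6f

/-! # B6: the step of the main induction (all parts) -/
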