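import Pool.Agent.Lib.H3F.K1
import Pool.Agent.Lib.H3F.N3

/-! # C3: natural maps over marked points given by rules (definitions) -/

set_option autoImplicit false

namespace Pool.Agent.Lib.H3F

open Equiv

variable {R : Type} {ar : R → Type} [∀ r, Finite (ar r)] {κ : Type} {V : Type} {M : Str R ar V}

/-- Rules over marked points. -/
abbrev CnD (R : Type) (ar : R → Type) (κ : Type) (d : ℕ) : Type :=
  Str R ar (Fin (d + 1) ⊕ κ) → Str R ar (Fin (d + 1) ⊕ κ)

open Classical in
/-- The unmarked entries of a tuple. -/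
noncomputable def um {ρ : Type} [Finite ρ] (m : κ → ℕ) (t : ρ → ℕ) : Finset ℕ :=
  (rg t).filter fun x => ¬ ∃ s, m s = x

/-- The structure on `U` and the marked points, `U` numbered in increasing order. -/
def nrc (d : ℕ) (m : κ → ℕ) (U : Finset ℕ) (C : Str R ar ℕ) : Str R ar (Fin (d + 1) ⊕ κ) :=
  fun r s => (∀ i (x : Fin (d + 1)), s i = Sum.inl x → (x : ℕ) < U.card) ∧
    C r (fun i => Sum.elim (fun x : Fin (d + 1) => nth U x) m (s i))

open Classical in
/-- The code of a point. -/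
noncomputable def cod (d : ℕ) (m : κ → ℕ) (U : Finset ℕ) (x : ℕ) : Fin (d + 1) ⊕ κ :=
  if h : ∃ s, m s = x then Sum.inr h.choose else Sum.inl (ps d U x)

/-- The map over marked points given by a rule. -/
noncomputable def Nph {d : ℕ} (φ : CnD R ar κ d) (m : κ → ℕ) (C : Str R ar ℕ) : Str R ar ℕ :=
  fun r t => φ (nrc d m (um m t) C) r (fun i => cod d m (um m t) (t i))

/-- The rule `φ` describes `g` over the constants `c` on some realisation of `C`. -/
def Rz {d : ℕ} (M : Str R ar V) (c : κ → V) (g : Perm V) (φ : CnD R ar κ d) (D : Finset ℕ)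
    (m : κ → ℕ) (C : Str R ar ℕ) : Prop :=
  ∃ a : ℕ → V, Set.InjOn a (D : Set ℕ) ∧ (∀ s, a (m s) = c s) ∧ EqS (D : Set ℕ) C (cm a M) ∧
    EqS (D : Set ℕ) (Nph φ m C) (cm (fun x => g (a x)) M)

end Pool.Agent.Lib.H3F
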