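import Pool.Agent.Lib.H3F.K1
import Pool.Agent.Lib.H3F.N3
import Pool.Agent.Lib.H3F.C3z

/-! # C3: natural maps over marked points given by rules (a) -/

set_option autoImplicit false

namespace Pool.Agent.Lib.H3F

open Equiv

variable {R : Type} {ar : R → Type} [∀ r, Finite (ar r)] {κ : Type} {V : Type} {M : Str R ar V}

/-- Proof. `Finset.mem_filter`, `mem_rg`. -/
theorem mem_um {ρ : Type} [Finite ρ] (m : κ → ℕ) (t : ρ → ℕ) (x : ℕ) :
    x ∈ um m t ↔ (∃ i, t i = x) ∧ ¬ ∃ s, m s = x := by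
  classical
  unfold um
  rw [Finset.mem_filter, mem_rg]

end Pool.Agent.Lib.H3F
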