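import Pool.Agent.Lib.H3F.K1
import Pool.Agent.Lib.H3F.N3
import Pool.Agent.Lib.H3F.C3z
import Pool.Agent.Lib.H3F.C3a

/-! # C3: natural maps over marked points given by rules (b) -/

set_option autoImplicit false

namespace Pool.Agent.Lib.H3F

open Equiv

variable {R : Type} {ar : R → Type} [∀ r, Finite (ar r)] {κ : Type} {V : Type} {M : Str R ar V}

/-- **The map is natural, and sees only the order of the unmarked points.**

Proof. Let `t` be a tuple in `U`, `W = um m t`; `W ⊆ U \ range m`.  `um (f ∘ m) (f ∘ t) = W.image f`: for `x ∈ rg t`, `f x` is a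
marked point `f (m s)` iff `x = m s` (`hf` on `D`).  The structures `nrc d m W C'` and `nrc d (f ∘ m) (W.image f) C` are equal:
`card_image_mono`, and for a code tuple `s` with all `x < W.card` the points `nth (W.image f) x = f (nth W x)` (`nth_image`),
`nth W x ∈ W ⊆ D` (`nth_mem`), and `f (m s)`, `m s ∈ D`, so `h` applies.  The codes are equal: for a marked `x` the predicates
`fun s => f (m s) = f x` and `fun s => m s = x` are equal, so the chosen `s` is the same; for an unmarked `x ∈ W`:
`ps d (W.image f) (f x) = ps d W x` (`pos_image`). -/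
theorem Nph_nat {d : ℕ} (φ : CnD R ar κ d) (f : ℕ → ℕ) (D U : Set ℕ) (m : κ → ℕ)
    (C C' : Str R ar ℕ) (hf : Set.InjOn f D) (hm : ∀ s, m s ∈ D) (hU : U ⊆ D)
    (hmono : StrictMonoOn f (U \ Set.range m)) (h : EqS D C' (cm f C)) :
    EqS U (Nph φ m C') (cm f (Nph φ (fun s => f (m s)) C)) := by
  intro r t ht
  have hWD : ∀ x ∈ um m t, x ∈ U := by
    intro x hx
    obtain ⟨⟨i, hi⟩, -⟩ := (mem_um m t x).1 hx
    rw [← hi]
    exact ht i
  have hWm : ∀ x ∈ um m t, ¬ ∃ s, m s = x := fun x hx => ((mem_um m t x).1 hx).2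
  have hfm : ∀ x ∈ U, (∃ s, f (m s) = f x) ↔ ∃ s, m s = x := by
    intro x hx
    constructor
    · rintro ⟨s, hs⟩
      exact ⟨s, hf (hm s) (hU hx) hs⟩
    · rintro ⟨s, hs⟩
      exact ⟨s, by rw [hs]⟩
  have hWmono : StrictMonoOn f (um m t : Set ℕ) := by
    refine hmono.mono ?_
    intro x hx
    have hx' : x ∈ um m t := Finset.mem_coe.1 hx
    exact ⟨hWD x hx', fun hr => hWm x hx' hr⟩
  have h1 : um (fun s => f (m s)) (fun i => f (t i)) = (um m t).image f := by
    ext y
    rw [mem_um, Finset.mem_image]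
    constructor
    · rintro ⟨⟨i, rfl⟩, hn⟩
      refine ⟨t i, (mem_um m t _).2 ⟨⟨i, rfl⟩, fun hh => hn ((hfm (t i) (ht i)).2 hh)⟩, rfl⟩
    · rintro ⟨x, hx, rfl⟩
      obtain ⟨⟨i, hi⟩, hn⟩ := (mem_um m t x).1 hx
      refine ⟨⟨i, by rw [hi]⟩, fun hh => hn ((hfm x (hWD x hx)).1 hh)⟩
  have h2 : nrc d m (um m t) C' = nrc d (fun s => f (m s)) ((um m t).image f) C := by
    funext r' s
    apply propext
    unfold nrc
    rw [card_image_mono f (um m t) hWmono]
    refine and_congr_right fun hlt => ?_
    have hval : ∀ i, (Sum.elim (fun x : Fin (d + 1) => nth ((um m t).image f) x)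
        (fun s => f (m s)) (s i)) =
        f (Sum.elim (fun x : Fin (d + 1) => nth (um m t) x) m (s i)) := by
      intro i
      rcases hsi : s i with x | u
      · exact nth_image f (um m t) hWmono x (hlt i x hsi)
      · rfl
    have hin : ∀ i, Sum.elim (fun x : Fin (d + 1) => nth (um m t) x) m (s i) ∈ D := by
      intro i
      rcases hsi : s i with x | u
      · exact hU (hWD _ (nth_mem (um m t) x (hlt i x hsi)))
      · exact hm u
    have h3 := h r' (fun i => Sum.elim (fun x : Fin (d + 1) => nth (um m t) x) m (s i)) hin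
    have h4 : (fun i => Sum.elim (fun x : Fin (d + 1) => nth ((um m t).image f) x)
        (fun s => f (m s)) (s i)) =
        fun i => f (Sum.elim (fun x : Fin (d + 1) => nth (um m t) x) m (s i)) := funext hval
    rw [h4]
    exact h3
  have h5 : ∀ i, cod d (fun s => f (m s)) ((um m t).image f) (f (t i)) =
      cod d m (um m t) (t i) := by
    intro i
    unfold cod
    by_cases hs : ∃ s, m s = t i
    · have hs' : ∃ s, f (m s) = f (t i) := (hfm (t i) (ht i)).2 hs
      rw [dif_pos hs, dif_pos hs']
      have hp : (fun s => f (m s) = f (t i)) = fun s => m s = t i := by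
        funext s
        apply propext
        constructor
        · intro hh
          exact hf (hm s) (hU (ht i)) hh
        · intro hh
          rw [hh]
      have hgen : ∀ (p q : κ → Prop) (hpq : p = q) (h1 : ∃ s, p s) (h2 : ∃ s, q s),
          h1.choose = h2.choose := by
        intro p q hpq h1 h2
        subst hpq
        rfl
      rw [hgen _ _ hp hs' hs]
    · have hs' : ¬ ∃ s, f (m s) = f (t i) := fun hh => hs ((hfm (t i) (ht i)).1 hh)
      rw [dif_neg hs, dif_neg hs']
      have hx : t i ∈ um m t := (mem_um m t _).2 ⟨⟨i, rfl⟩, hs⟩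
      unfold ps
      rw [pos_image f (um m t) hWmono (t i) hx]
  show φ (nrc d m (um m t) C') r (fun i => cod d m (um m t) (t i)) ↔
    φ (nrc d (fun s => f (m s)) (um (fun s => f (m s)) (fun i => f (t i))) C) r
      (fun i => cod d (fun s => f (m s)) (um (fun s => f (m s)) (fun i => f (t i))) (f (t i)))
  rw [h1, h2]
  have h6 : (fun i => cod d (fun s => f (m s)) ((um m t).image f) (f (t i))) =
      fun i => cod d m (um m t) (t i) := funext h5
  rw [h6]

/-- Proof. `Nph_nat`. -/
theorem Nph_ntr {d : ℕ} (φ : CnD R ar κ d) :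
    Ntr (Nph φ : (κ → ℕ) → Str R ar ℕ → Str R ar ℕ) := by
  intro f D U m C C' hf hm hU hmono h
  exact Nph_nat φ f D U m C C' hf hm hU (hmono.mono Set.diff_subset) h

end Pool.Agent.Lib.H3F
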