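import Pool.Agent.Lib.H3F.K1
import Pool.Agent.Lib.H3F.N3
import Pool.Agent.Lib.H3F.C3z
import Pool.Agent.Lib.H3F.C3a
import Pool.Agent.Lib.H3F.C3b

/-! # C3: natural maps over marked points given by rules (c) -/

set_option autoImplicit false

namespace Pool.Agent.Lib.H3F

open Equiv

variable {R : Type} {ar : R → Type} [∀ r, Finite (ar r)] {κ : Type} {V : Type} {M : Str R ar V}

/-- Proof. `a ∘ f`; `Nph_nat` with `D := D'`, `U := D'`. -/
theorem Rz_nat {d : ℕ} (c : κ → V) (g : Perm V) (φ : CnD R ar κ d) (f : ℕ → ℕ)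
    (D D' : Finset ℕ) (m : κ → ℕ) (C C' : Str R ar ℕ) (hm : ∀ s, m s ∈ D')
    (hf : Set.InjOn f (D' : Set ℕ)) (hD : ∀ x ∈ D', f x ∈ D)
    (hmono : StrictMonoOn f ((D' : Set ℕ) \ Set.range m)) (h : EqS (D' : Set ℕ) C' (cm f C))
    (hR : Rz M c g φ D (fun s => f (m s)) C) : Rz M c g φ D' m C' := by
  obtain ⟨a, ha, hc, h1, h2⟩ := hR
  have hmem : ∀ x ∈ (D' : Set ℕ), f x ∈ (D : Set ℕ) := fun x hx =>
    Finset.mem_coe.2 (hD x (Finset.mem_coe.1 hx))
  refine ⟨fun x => a (f x), ?_, hc, ?_, ?_⟩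
  · intro x hx y hy hxy
    exact hf hx hy (ha (hmem x hx) (hmem y hy) hxy)
  · intro r t ht
    exact (h r t ht).trans (h1 r (fun i => f (t i)) (fun i => hmem _ (ht i)))
  · intro r t ht
    have h3 := Nph_nat φ f (D' : Set ℕ) (D' : Set ℕ) m C C' hf
      (fun s => Finset.mem_coe.2 (hm s)) (fun x hx => hx) hmono h
    exact (h3 r t ht).trans (h2 r (fun i => f (t i)) (fun i => hmem _ (ht i)))

end Pool.Agent.Lib.H3F
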