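import Pool.Agent.Lib.H3F.C3z
import Pool.Agent.Lib.H3F.C3a
import Pool.Agent.Lib.H3F.C3b
import Pool.Agent.Lib.H3F.C3c

/-! # C3: natural maps over marked points given by rules (all parts) -/
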