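import Pool.Agent.Lib.H3F.C2
import Pool.Agent.Lib.H3F.C3
import Pool.Agent.Lib.H3F.B4

/-! # C4: canonical behaviour over marked points (a) -/

set_option autoImplicit false

namespace Pool.Agent.Lib.H3F

open Equiv

variable {R : Type} {ar : R → Type} [∀ r, Finite (ar r)] {κ : Type} {V : Type} {M : Str R ar V}

/-- The structure on the unmarked points, over the constants.

Proof. Let `U` be the set of the unmarked points of `D`, `n = U.card`, `C' = cm (Sum.elim (fun x : Fin n => nth U x) m) C` on
`Fin n ⊕ κ`.  `hA.inK` gives `a` on `D`; `cm (a ∘ m) M = cm m C = cm c M` (`hA.str`), so `hM.hom` gives `σ ∈ Au M` with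
`σ (a (m s)) = c s`; take `b x = σ (a (nth U x))`. -/
theorem Qc_of_adm [Finite κ] (hM : HFA M) (c : κ → V) (hc : Function.Injective c)
    (D : Finset ℕ) (m : κ → ℕ) (C : Str R ar ℕ) (hA : Adm M (cm c M) D m C) (U : Finset ℕ)
    (hU : ∀ x, x ∈ U ↔ x ∈ D ∧ ¬ ∃ s, m s = x) :
    Qc M c (Fin U.card) (enc (cm (Sum.elim (fun x : Fin U.card => nth U x) m) C)) := by
  obtain ⟨a, ha, hC⟩ := hA.inK
  have hmU : ∀ x : Fin U.card, nth U x ∈ U := fun x => nth_mem U x x.2
  have hmD : ∀ x : Fin U.card, nth U x ∈ D := fun x => ((hU _).1 (hmU x)).1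
  have hinj : Function.Injective (fun x : Fin U.card => nth U x) := by
    intro x y hxy
    have h1 := pos_nth U x x.2
    have h2 := pos_nth U y y.2
    have hxy' : nth U x = nth U y := hxy
    rw [hxy', h2] at h1
    exact Fin.ext h1.symm
  have e1 : cm (fun s => a (m s)) M = cm c M := by
    rw [← hA.str]
    funext r t
    exact propext (hC r (fun i => m (t i)) fun i => Finset.mem_coe.2 (hA.mem (t i))).symm
  have hi1 : Function.Injective (fun s => a (m s)) := by
    intro s s' h
    exact hA.inj (ha (Finset.mem_coe.2 (hA.mem s)) (Finset.mem_coe.2 (hA.mem s')) h)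
  obtain ⟨σ, hσ, hσ'⟩ := hM.hom κ (fun s => a (m s)) c hi1 hc e1
  refine ⟨fun x => σ (a (nth U x)), ?_, ?_, ?_⟩
  · intro x y hxy
    have h1 : a (nth U x) = a (nth U y) := σ.injective hxy
    exact hinj (ha (Finset.mem_coe.2 (hmD x)) (Finset.mem_coe.2 (hmD y)) h1)
  · intro u s h
    have h1 : σ (a (nth U u)) = σ (a (m s)) := h.trans (hσ' s).symm
    have h2 : a (nth U u) = a (m s) := σ.injective h1
    have h3 : nth U u = m s :=
      ha (Finset.mem_coe.2 (hmD u)) (Finset.mem_coe.2 (hA.mem s)) h2
    exact ((hU _).1 (hmU u)).2 ⟨s, h3.symm⟩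
  · have e2 : cm (Sum.elim (fun x : Fin U.card => σ (a (nth U x))) c) M =
        cm (Sum.elim (fun x : Fin U.card => nth U x) m) C := by
      funext r t
      have e3 : (fun i => Sum.elim (fun x : Fin U.card => σ (a (nth U x))) c (t i)) =
          fun i => σ (a (Sum.elim (fun x : Fin U.card => nth U x) m (t i))) := by
        funext i
        rcases t i with x | s
        · rfl
        · exact (hσ' s).symm
      show M r (fun i => Sum.elim (fun x : Fin U.card => σ (a (nth U x))) c (t i)) =
        C r (fun i => Sum.elim (fun x : Fin U.card => nth U x) m (t i))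
      rw [e3]
      have h1 := hσ r (fun i => a (Sum.elim (fun x : Fin U.card => nth U x) m (t i)))
      have h2 := hC r (fun i => Sum.elim (fun x : Fin U.card => nth U x) m (t i)) (fun i => by
        rcases t i with x | s
        · exact Finset.mem_coe.2 (hmD x)
        · exact Finset.mem_coe.2 (hA.mem s))
      exact propext (h1.trans h2.symm)
    rw [e2]

end Pool.Agent.Lib.H3F
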