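import Pool.Agent.Lib.H3F.C2
import Pool.Agent.Lib.H3F.C3
import Pool.Agent.Lib.H3F.B4
import Pool.Agent.Lib.H3F.C4a
import Pool.Agent.Lib.H3F.C4b

/-! # C4: canonical behaviour over marked points (c) -/

set_option autoImplicit false

namespace Pool.Agent.Lib.H3F

open Equiv

variable {R : Type} {ar : R → Type} [∀ r, Finite (ar r)] {κ : Type} {V : Type} {M : Str R ar V}

/-- **Two structures with marked points embed in a third one.**

Proof. Let `B` be larger than all elements of `D₁`, `f₁ = id`, `f₂ x = m₁ s` if `x = m₂ s`, and `f₂ x = B + x` otherwise; `f₂` is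
injective on `D₂` and strictly monotone outside of the marked points.  `D = D₁ ∪ D₂.image f₂`, `m = m₁`,
`C r t = ((∀ i, t i ∈ D₁) ∧ C₁ r t) ∨ ∃ t₂, (∀ i, t₂ i ∈ D₂) ∧ (∀ i, t i = f₂ (t₂ i)) ∧ C₂ r t₂`.  On `D₁ ∩ D₂.image f₂`
(= the marked points) both parts are `A`, so `C = C₁` on `D₁` and `C₂ = cm f₂ C` on `D₂`; `K_glue` (with `K_cm_conv`). -/
theorem amalg_two [Finite κ] [Nonempty V] (hM : HFA M) (A : Str R ar κ) (D₁ D₂ : Finset ℕ)
    (m₁ m₂ : κ → ℕ) (C₁ C₂ : Str R ar ℕ) (h1 : Adm M A D₁ m₁ C₁) (h2 : Adm M A D₂ m₂ C₂) :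
    ∃ (D : Finset ℕ) (m : κ → ℕ) (C : Str R ar ℕ) (f₁ f₂ : ℕ → ℕ), Adm M A D m C ∧
      (Set.InjOn f₁ (D₁ : Set ℕ) ∧ (∀ x ∈ D₁, f₁ x ∈ D) ∧ (∀ s, f₁ (m₁ s) = m s) ∧
        StrictMonoOn f₁ ((D₁ : Set ℕ) \ Set.range m₁) ∧ EqS (D₁ : Set ℕ) C₁ (cm f₁ C)) ∧
      (Set.InjOn f₂ (D₂ : Set ℕ) ∧ (∀ x ∈ D₂, f₂ x ∈ D) ∧ (∀ s, f₂ (m₂ s) = m s) ∧
        StrictMonoOn f₂ ((D₂ : Set ℕ) \ Set.range m₂) ∧ EqS (D₂ : Set ℕ) C₂ (cm f₂ C)) := by
  classical
  obtain ⟨B, hB⟩ : ∃ B : ℕ, ∀ x ∈ D₁, x < B :=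
    ⟨D₁.sup id + 1, fun x hx => Nat.lt_succ_of_le (Finset.le_sup (f := id) hx)⟩
  obtain ⟨f₂, hf1, hf2⟩ : ∃ f₂ : ℕ → ℕ, (∀ s, f₂ (m₂ s) = m₁ s) ∧
      ∀ x, (¬ ∃ s, m₂ s = x) → f₂ x = B + x := by
    refine ⟨fun x => if h : ∃ s, m₂ s = x then m₁ h.choose else B + x, ?_, ?_⟩
    · intro s
      have h : ∃ s', m₂ s' = m₂ s := ⟨s, rfl⟩
      show (if h : ∃ s', m₂ s' = m₂ s then m₁ h.choose else B + m₂ s) = m₁ s
      rw [dif_pos h, h2.inj h.choose_spec]
    · intro x hx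
      show (if h : ∃ s', m₂ s' = x then m₁ h.choose else B + x) = B + x
      rw [dif_neg hx]
  have hin : ∀ x, f₂ x ∈ D₁ → ∃ s, m₂ s = x := by
    intro x hx
    by_contra hc
    have h3 := hB _ hx
    rw [hf2 x hc] at h3
    omega
  have hinj : Function.Injective f₂ := by
    intro x y hxy
    by_cases hx : ∃ s, m₂ s = x
    · obtain ⟨s, rfl⟩ := hx
      obtain ⟨s', rfl⟩ : ∃ s', m₂ s' = y := by
        refine hin y ?_
        rw [← hxy, hf1]
        exact h1.mem s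
      rw [hf1, hf1] at hxy
      rw [h1.inj hxy]
    · by_cases hy : ∃ s, m₂ s = y
      · exfalso
        obtain ⟨s', rfl⟩ := hy
        refine hx (hin x ?_)
        rw [hxy, hf1]
        exact h1.mem s'
      · rw [hf2 x hx, hf2 y hy] at hxy
        omega
  have hA : ∀ r (s : ar r → κ), C₁ r (fun i => m₁ (s i)) ↔ C₂ r (fun i => m₂ (s i)) := by
    intro r s
    have h3 : cm m₁ C₁ r s = A r s := by rw [h1.str]
    have h4 : cm m₂ C₂ r s = A r s := by rw [h2.str]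
    exact (iff_of_eq h3).trans (iff_of_eq h4).symm
  let C : Str R ar ℕ := fun r t => ((∀ i, t i ∈ D₁) ∧ C₁ r t) ∨
    ∃ t₂ : ar r → ℕ, (∀ i, t₂ i ∈ D₂) ∧ (∀ i, t i = f₂ (t₂ i)) ∧ C₂ r t₂
  have hE1 : EqS (D₁ : Set ℕ) C₁ C := by
    intro r t ht
    constructor
    · intro h
      exact Or.inl ⟨fun i => Finset.mem_coe.1 (ht i), h⟩
    · rintro (⟨_, h⟩ | ⟨t₂, _, h4, h5⟩)
      · exact h
      · have h6 : ∀ i, ∃ s, m₂ s = t₂ i := by
          intro i
          refine hin _ ?_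
          rw [← h4 i]
          exact Finset.mem_coe.1 (ht i)
        choose s hs using h6
        have h7 : t = fun i => m₁ (s i) := by
          funext i
          rw [h4 i, ← hs i, hf1]
        have h8 : t₂ = fun i => m₂ (s i) := by
          funext i
          exact (hs i).symm
        rw [h7]
        rw [h8] at h5
        exact (hA r s).2 h5
  have hE2 : EqS (D₂ : Set ℕ) C₂ (cm f₂ C) := by
    intro r t ht
    constructor
    · intro h
      exact Or.inr ⟨t, fun i => Finset.mem_coe.1 (ht i), fun i => rfl, h⟩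
    · rintro (⟨h3, h⟩ | ⟨t₂, _, h4, h5⟩)
      · have h6 : ∀ i, ∃ s, m₂ s = t i := fun i => hin _ (h3 i)
        choose s hs using h6
        have h8 : t = fun i => m₂ (s i) := by
          funext i
          exact (hs i).symm
        have h7 : (fun i => f₂ (t i)) = fun i => m₁ (s i) := by
          funext i
          rw [← hs i, hf1]
        rw [h7] at h
        rw [h8]
        exact (hA r s).1 h
      · have h6 : t = t₂ := by
          funext i
          exact hinj (h4 i)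
        rw [h6]
        exact h5
  have hadm : Adm M A (D₁ ∪ D₂.image f₂) m₁ C := by
    refine ⟨h1.inj, fun s => Finset.mem_union_left _ (h1.mem s), ?_, ?_⟩
    · funext r s
      apply propext
      have h3 : cm m₁ C₁ r s = A r s := by rw [h1.str]
      exact (hE1 r (fun i => m₁ (s i)) fun i => Finset.mem_coe.2 (h1.mem (s i))).symm.trans
        (iff_of_eq h3)
    · refine K_glue hM D₁ (D₂.image f₂) C ?_ (K_congr hE1 h1.inK)
        (K_cm_conv f₂ hinj.injOn (K_congr hE2 h2.inK))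
      intro r t ht _
      rcases ht with ⟨h3, _⟩ | ⟨t₂, h3, h4, _⟩
      · exact Or.inl h3
      · refine Or.inr fun i => ?_
        rw [h4 i]
        exact Finset.mem_image_of_mem f₂ (h3 i)
  refine ⟨D₁ ∪ D₂.image f₂, m₁, C, fun x => x, f₂, hadm,
    ⟨fun x _ y _ h => h, fun x hx => Finset.mem_union_left _ hx, fun s => rfl,
      fun x _ y _ h => h, hE1⟩,
    ⟨hinj.injOn, fun x hx => Finset.mem_union_right _ (Finset.mem_image_of_mem f₂ hx), hf1,
      ?_, hE2⟩⟩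
  rintro x ⟨_, hx⟩ y ⟨_, hy⟩ hxy
  rw [hf2 x hx, hf2 y hy]
  omega

end Pool.Agent.Lib.H3F
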