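import Pool.Agent.Lib.H3F.C2
import Pool.Agent.Lib.H3F.C3
import Pool.Agent.Lib.H3F.B4
import Pool.Agent.Lib.H3F.C4a
import Pool.Agent.Lib.H3F.C4b
import Pool.Agent.Lib.H3F.C4c

/-! # C4: canonical behaviour over marked points (d) -/

set_option autoImplicit false

namespace Pool.Agent.Lib.H3F

open Equiv

variable {R : Type} {ar : R → Type} [∀ r, Finite (ar r)] {κ : Type} {V : Type} {M : Str R ar V}

/-- **One rule for all structures with marked points.**

Proof. Suppose that for every rule `φ` there are `D φ`, `m φ`, `C φ` with `Adm` and not `Rz`.  The rules form a finite type.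
Claim: for every finite set (list) `Φ` of rules there are `D`, `m`, `C` with `Adm` such that not `Rz M c g φ D m C` for all
`φ ∈ Φ`: induction with `amalg_two` and the contrapositive of `Rz_nat` (a rule good for the amalgam is good for both parts).
Start of the induction: any structure, e.g. the one of some rule, or `D` = a copy of `κ` (or take the list of all rules, which is
nonempty, and start with one).  For `Φ` = all rules this contradicts `rz_one`. -/
theorem rz_all [Finite R] [Finite κ] [Nonempty V] (hM : HFA M) {d : ℕ}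
    (hd : ∀ r, Nat.card (ar r) ≤ d) (c : κ → V) (hc : Function.Injective c) (g : Perm V) :
    ∃ φ : CnD R ar κ d, ∀ (D : Finset ℕ) (m : κ → ℕ) (C : Str R ar ℕ),
      Adm M (cm c M) D m C → Rz M c g φ D m C := by
  classical
  by_contra hcon
  have hbad : ∀ φ : CnD R ar κ d, ∃ (D : Finset ℕ) (m : κ → ℕ) (C : Str R ar ℕ),
      Adm M (cm c M) D m C ∧ ¬ Rz M c g φ D m C := by
    intro φ
    by_contra hno
    apply hcon
    refine ⟨φ, fun D m C hA => ?_⟩
    by_contra hR
    exact hno ⟨D, m, C, hA, hR⟩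
  have hfin : Finite (CnD R ar κ d) := by
    have : ∀ r, Finite ((ar r → Fin (d + 1) ⊕ κ) → Prop) := fun r => inferInstance
    have : Finite (Str R ar (Fin (d + 1) ⊕ κ)) := Pi.finite
    exact Pi.finite
  have := Fintype.ofFinite (CnD R ar κ d)
  have key : ∀ Φ : Finset (CnD R ar κ d), ∃ (D : Finset ℕ) (m : κ → ℕ) (C : Str R ar ℕ),
      Adm M (cm c M) D m C ∧ ∀ φ ∈ Φ, ¬ Rz M c g φ D m C := by
    intro Φ
    induction Φ using Finset.induction_on with
    | empty =>
      obtain ⟨D, m, C, hA, _⟩ := hbad (fun X => X)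
      exact ⟨D, m, C, hA, fun φ hφ => absurd hφ (Finset.notMem_empty φ)⟩
    | insert φ Φ' _ ih =>
      obtain ⟨D₁, m₁, C₁, hA₁, hR₁⟩ := ih
      obtain ⟨D₂, m₂, C₂, hA₂, hR₂⟩ := hbad φ
      obtain ⟨D, m, C, f₁, f₂, hA, ⟨hi1, hD1, hm1, hs1, he1⟩, ⟨hi2, hD2, hm2, hs2, he2⟩⟩ :=
        amalg_two hM (cm c M) D₁ D₂ m₁ m₂ C₁ C₂ hA₁ hA₂
      have e1 : (fun s => f₁ (m₁ s)) = m := funext hm1
      have e2 : (fun s => f₂ (m₂ s)) = m := funext hm2
      refine ⟨D, m, C, hA, fun ψ hψ hRz => ?_⟩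
      rcases Finset.mem_insert.1 hψ with h | h
      · subst h
        exact hR₂ (Rz_nat c g ψ f₂ D D₂ m₂ C C₂ hA₂.mem hi2 hD2 hs2 he2 (by rw [e2]; exact hRz))
      · exact hR₁ ψ h
          (Rz_nat c g ψ f₁ D D₁ m₁ C C₁ hA₁.mem hi1 hD1 hs1 he1 (by rw [e1]; exact hRz))
  obtain ⟨D, m, C, hA, hR⟩ := key Finset.univ
  obtain ⟨φ, hφ⟩ := rz_one hM hd c hc g D m C hA
  exact hR φ (Finset.mem_univ φ) hφ

end Pool.Agent.Lib.H3F
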