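import Pool.Agent.Lib.H3F.C2
import Pool.Agent.Lib.H3F.C3
import Pool.Agent.Lib.H3F.B4
import Pool.Agent.Lib.H3F.C4a
import Pool.Agent.Lib.H3F.C4b
import Pool.Agent.Lib.H3F.C4c
import Pool.Agent.Lib.H3F.C4d

/-! # C4: canonical behaviour over marked points (e) -/

set_option autoImplicit false

namespace Pool.Agent.Lib.H3F

open Equiv

variable {R : Type} {ar : R → Type} [∀ r, Finite (ar r)] {κ : Type} {V : Type} {M : Str R ar V}

/-- **Canonical behaviour over marked points.**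

Proof. `rz_all` and `N = Nph φ`, `Nph_ntr`. -/
theorem can [Finite R] [Finite κ] [Nonempty V] (hM : HFA M) {d : ℕ}
    (hd : ∀ r, Nat.card (ar r) ≤ d) (c : κ → V) (hc : Function.Injective c) (g : Perm V) :
    ∃ N : (κ → ℕ) → Str R ar ℕ → Str R ar ℕ, Ntr N ∧
      ∀ (D : Finset ℕ) (m : κ → ℕ) (C : Str R ar ℕ), Adm M (cm c M) D m C →
        ∃ a : ℕ → V, Set.InjOn a (D : Set ℕ) ∧ (∀ s, a (m s) = c s) ∧
          EqS (D : Set ℕ) C (cm a M) ∧ EqS (D : Set ℕ) (N m C) (cm (fun x => g (a x)) M) := by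
  obtain ⟨φ, hφ⟩ := rz_all hM hd c hc g
  exact ⟨Nph φ, Nph_ntr φ, fun D m C hA => hφ D m C hA⟩

end Pool.Agent.Lib.H3F
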