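import Pool.Agent.Lib.H3F.C4a
import Pool.Agent.Lib.H3F.C4b
import Pool.Agent.Lib.H3F.C4c
import Pool.Agent.Lib.H3F.C4d
import Pool.Agent.Lib.H3F.C4e

/-! # C4: canonical behaviour over marked points (all parts) -/
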