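import Pool.Agent.Lib.H3F.E1z

/-! # E1: a minimal idempotent operation (a) -/

set_option autoImplicit false

namespace Pool.Agent.Lib.H3F

open Equiv

variable {R : Type} {ar : R → Type} [∀ r, Finite (ar r)] {d : ℕ} {V : Type} {M : Str R ar V}
  {G : Subgroup (Perm V)} {e : LoD R ar d}

/-- Proof. `idLo` is an idempotent operation (`lo_idLo`, `Rel_refl`).  Among all `e` with `IsOp` and `Idm` choose one with
minimal `(FS M e).ncard` (`Nat.find`/well-foundedness); `FS` is a set in a finite type.  For `e'` with `FS e' ⊆ FS e` equality of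
the cardinalities gives equality of the sets (`Set.eq_of_subset_of_ncard_le`). -/
theorem exists_minFS [Finite R] (hd : ∀ r, Nat.card (ar r) ≤ d) :
    ∃ e : LoD R ar d, IsOp M G e ∧ Idm M e ∧
      ∀ e' : LoD R ar d, IsOp M G e' → Idm M e' → FS M e' ⊆ FS M e → FS M e ⊆ FS M e' := by
  have hne : ∃ n, ∃ e : LoD R ar d, IsOp M G e ∧ Idm M e ∧ (FS M e).ncard = n := by
    refine ⟨_, idLo, ?_, ?_, rfl⟩
    · intro D C h
      exact Rel_congr (EqS.refl _ _) (fun r t _ => (lo_idLo hd C ∅ r t).symm) (Rel_refl h)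
    · intro D C _ r t _
      exact lo_idLo hd (lo (idLo : LoD R ar d) C ∅) ∅ r t
  classical
  obtain ⟨e, h1, h2, h3⟩ := Nat.find_spec hne
  refine ⟨e, h1, h2, fun e' h1' h2' hsub => ?_⟩
  have h4 : (FS M e).ncard ≤ (FS M e').ncard := by
    rw [h3]
    exact Nat.find_min' hne ⟨e', h1', h2', rfl⟩
  have : Finite (Str R ar (Fin (d + 1))) := by
    unfold Str
    infer_instance
  have h5 : FS M e' = FS M e :=
    Set.eq_of_subset_of_ncard_le hsub h4 (Set.toFinite _)
  exact h5.symm.subset

end Pool.Agent.Lib.H3F
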