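import Pool.Agent.Lib.H3F.E1z
import Pool.Agent.Lib.H3F.E1a

/-! # E1: a minimal idempotent operation (b) -/

set_option autoImplicit false

namespace Pool.Agent.Lib.H3F

open Equiv

variable {R : Type} {ar : R → Type} [∀ r, Finite (ar r)] {d : ℕ} {V : Type} {M : Str R ar V}
  {G : Subgroup (Perm V)} {e : LoD R ar d}

omit [∀ r, Finite (ar r)] in
private theorem e1b_eq {U : Finset ℕ} (hU : U.card ≤ d) (C : Str R ar ℕ) :
    EqS ((Finset.range U.card : Finset ℕ) : Set ℕ) (up (nrm d U C)) (cm (nth U) C) := by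
  intro r t ht
  have hlt : ∀ i, t i < U.card := fun i => Finset.mem_range.1 (Finset.mem_coe.1 (ht i))
  constructor
  · rintro ⟨s, hs, _, h2⟩
    have h3 : t = fun i => (s i : ℕ) := funext hs
    rw [h3]
    exact h2
  · intro h
    refine ⟨fun i => ⟨t i, by have := hlt i; omega⟩, fun i => rfl, fun i => hlt i, ?_⟩
    exact h

/-- An operation which fixes all fixed structures on at most `d` points fixes all fixed structures.

Proof. Let `t` be a tuple in `D`, `U = rg t ⊆ D`, `U.card ≤ d` (`card_rg`).  `Ke M e U C` (`Ke_mono`), so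
`(⟨U.card, _⟩, nrm d U C) ∈ FS M e` (`Ke_up`), so `EqS (range U.card) (lo φ (up (nrm d U C)) ∅) (up (nrm d U C))` by `h`.  Also
`EqS (range U.card) (up (nrm d U C)) (cm (nth U) C)` (see `K_up`), so by `lo_nat` for `f = nth U` at the tuple
`fun i => pos U (t i)` (`nth_pos`) we get `lo φ C ∅ r t ↔ C r t`. -/
theorem fix_of_FS (hd : ∀ r, Nat.card (ar r) ≤ d) (φ : LoD R ar d)
    (h : ∀ p ∈ FS M e, EqS ((Finset.range p.1 : Finset ℕ) : Set ℕ) (lo φ (up p.2) ∅) (up p.2))
    (D : Finset ℕ) (C : Str R ar ℕ) (hC : Ke M e D C) :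
    EqS (D : Set ℕ) (lo φ C ∅) C := by
  intro r t ht
  have hsub : rg t ⊆ D := (rg_sub t D).2 ht
  have hU : (rg t).card ≤ d := (card_rg t).trans (hd r)
  have hp := h (⟨(rg t).card, by omega⟩, nrm d (rg t) C) (Ke_up hU (Ke_mono hsub hC))
  have h1 := e1b_eq hU C
  have h2 := lo_nat φ (nth (rg t)) (Finset.range (rg t).card) ∅ C (up (nrm d (rg t) C))
    (nth_mono (rg t)) (Finset.empty_subset _) h1
  rw [Finset.image_empty] at h2
  have hm : ∀ i, t i ∈ rg t := fun i => (mem_rg t (t i)).2 ⟨i, rfl⟩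
  have hs : ∀ i, pos (rg t) (t i) ∈ ((Finset.range (rg t).card : Finset ℕ) : Set ℕ) := fun i =>
    Finset.mem_coe.2 (Finset.mem_range.2 (pos_lt (rg t) (t i) (hm i)))
  have hn : (fun i => nth (rg t) (pos (rg t) (t i))) = t := by
    funext i
    exact nth_pos (rg t) (t i) (hm i)
  have e1 := h2 r (fun i => pos (rg t) (t i)) hs
  have e2 := hp r (fun i => pos (rg t) (t i)) hs
  have e3 := h1 r (fun i => pos (rg t) (t i)) hs
  have e4 : cm (nth (rg t)) (lo φ C ∅) r (fun i => pos (rg t) (t i)) ↔ lo φ C ∅ r t := by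
    show lo φ C ∅ r (fun i => nth (rg t) (pos (rg t) (t i))) ↔ lo φ C ∅ r t
    rw [hn]
  have e5 : cm (nth (rg t)) C r (fun i => pos (rg t) (t i)) ↔ C r t := by
    show C r (fun i => nth (rg t) (pos (rg t) (t i))) ↔ C r t
    rw [hn]
  exact e4.symm.trans (e1.symm.trans (e2.trans (e3.trans e5)))

end Pool.Agent.Lib.H3F
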