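import Pool.Agent.Lib.H3F.E1z
import Pool.Agent.Lib.H3F.E1a
import Pool.Agent.Lib.H3F.E1b
import Pool.Agent.Lib.H3F.E1c

/-! # E1: a minimal idempotent operation (d) -/

set_option autoImplicit false

namespace Pool.Agent.Lib.H3F

open Equiv

variable {R : Type} {ar : R → Type} [∀ r, Finite (ar r)] {d : ℕ} {V : Type} {M : Str R ar V}
  {G : Subgroup (Perm V)} {e : LoD R ar d}

/-- Proof. `exists_minFS`, `star_of_min`. -/
theorem exists_star [Finite R] (hd : ∀ r, Nat.card (ar r) ≤ d) (hM : HFA M) (hG : Au M ≤ G) :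
    ∃ e : LoD R ar d, IsOp M G e ∧ Idm M e ∧ Star M G e := by
  obtain ⟨e, he, hi, hmin⟩ := exists_minFS (M := M) (G := G) (d := d) hd
  exact ⟨e, he, hi, star_of_min hd hM hG he hi hmin⟩

end Pool.Agent.Lib.H3F
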