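import Pool.Agent.Lib.H3F.B6
import Pool.Agent.Lib.H3F.C4
import Pool.Agent.Lib.H3F.E1
import Pool.Agent.Lib.H3F.B7a

/-! # B7: a closed group is determined by its operations and local operations (b) -/

set_option autoImplicit false

namespace Pool.Agent.Lib.H3F

open Equiv

open Pool.Agent.Lib.H3C (Cl FR Olig Sup pai pia)

variable {R : Type} {ar : R → Type} [∀ r, Finite (ar r)] {d : ℕ} {V : Type}
  {M : Str R ar V} {G G' : Subgroup (Perm V)} {e : LoD R ar d}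

/-- **Two structures related by `G` are related by `G'`**, for structures fixed by `e`.

Proof. Let `a`, `g` be as in `Rel`: `C₀ = cm a M`, `B₀ = cm (g ∘ a) M` on `D₀`.  `κ = {x // x ∈ D₀}`, `m₀ = Subtype.val`,
`c = fun s => a (m₀ s)`, `A = cm c M = cm m₀ C₀`.  `can` gives `N₀`.  Put `N₁ m C = lo e (N₀ m C) ∅`.  `Inv M G A e N₁`: `Ntr` by
`lo_nat` (`S = ∅`) on `rg t` for a tuple `t` in `U`; for `Adm` `(D, m, C)`, `can` gives `Rel M G D C (N₀ m C)` and `K M D (N₀ m C)`, then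
`he`, `Ke_op`, `Rel_trans`.  `Adm M A D₀ m₀ C₀` holds, and `N₁ m₀ C₀ = B₀` on `D₀`: by `can` there is `a'` with `a' (m₀ s) = a (m₀ s)`,
so `N₀ m₀ C₀ = cm (g ∘ a') M = B₀` on `D₀`, and `lo e B₀ ∅ = B₀` (`lo_congr`).  `chain` for `s = D₀.card + 1` gives `N`; `Gd` for
`D = E = P = D₀` (`Con_self`; `mk m₀ D₀ ≤ D₀.card` by `mk_le`) gives `N m₀ C₀ = C₀` on `D₀`.  So `Rel M G' D₀ B₀ C₀`, `Rel_symm`. -/
theorem rel_of_Ke [Finite R] [Nonempty V] (hd : ∀ r, Nat.card (ar r) ≤ d) (hM : HFA M)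
    (hG : Au M ≤ G) (hG' : Au M ≤ G') (he : IsOp M G e) (hi : Idm M e) (hst : Star M G e)
    (hGG : ∀ (j : ℕ) (lam : LoD R ar d), IsLo M G e j lam → IsLo M G' e j lam)
    (D₀ : Finset ℕ) (C₀ B₀ : Str R ar ℕ) (hC : Ke M e D₀ C₀) (hB : Ke M e D₀ B₀)
    (h : Rel M G D₀ C₀ B₀) : Rel M G' D₀ C₀ B₀ := by
  obtain ⟨a, ha, hCa, g, hg, hBa⟩ := h
  have hc : Function.Injective (fun s : {x // x ∈ D₀} => a s.1) := by
    intro s s' hs
    exact Subtype.ext (ha (Finset.mem_coe.2 s.2) (Finset.mem_coe.2 s'.2) hs)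
  obtain ⟨N₀, hN0, hcan⟩ := can hM hd (fun s : {x // x ∈ D₀} => a s.1) hc g
  have hadm : Adm M (cm (fun s : {x // x ∈ D₀} => a s.1) M) D₀
      (fun s : {x // x ∈ D₀} => s.1) C₀ := by
    refine ⟨Subtype.val_injective, fun s => s.2, ?_, hC.1⟩
    funext r t
    exact propext (hCa r (fun i => (t i).1) fun i => Finset.mem_coe.2 (t i).2)
  have hinv : Inv M G (cm (fun s : {x // x ∈ D₀} => a s.1) M) e
      (fun m C => lo e (N₀ m C) ∅) := by
    refine ⟨?_, ?_⟩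
    · intro f D U m C C' hf hm hU hfU hE r t ht
      have h1 := hN0 f D U m C C' hf hm hU hfU hE
      have hrg : ((rg t : Finset ℕ) : Set ℕ) ⊆ U := by
        intro x hx
        obtain ⟨i, hi⟩ := (mem_rg t x).1 (Finset.mem_coe.1 hx)
        rw [← hi]
        exact ht i
      have h2 := lo_nat e f (rg t) ∅ (N₀ (fun s => f (m s)) C) (N₀ m C') (hfU.mono hrg)
        (Finset.empty_subset _) (h1.mono hrg) r t
        (fun i => Finset.mem_coe.2 ((mem_rg t (t i)).2 ⟨i, rfl⟩))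
      rw [Finset.image_empty] at h2
      exact h2
    · intro D m C hA
      obtain ⟨a', ha', _, hC', hN'⟩ := hcan D m C hA
      have hR : Rel M G D C (N₀ m C) := ⟨a', ha', hC', g, hg, hN'⟩
      have hK : K M D (N₀ m C) := Rel_right hR
      exact ⟨Rel_trans hM hG hR (he D _ hK), Ke_op he hi hK⟩
  have hN1 : EqS (D₀ : Set ℕ) (lo e (N₀ (fun s : {x // x ∈ D₀} => s.1) C₀) ∅) B₀ := by
    obtain ⟨a', _, hm', _, hN'⟩ := hcan D₀ _ C₀ hadm
    have h1 : EqS (D₀ : Set ℕ) (N₀ (fun s : {x // x ∈ D₀} => s.1) C₀) B₀ := by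
      refine hN'.trans (EqS.trans ?_ hBa.symm)
      intro r t ht
      have h2 : (fun i => g (a' (t i))) = fun i => g (a (t i)) := by
        funext i
        exact congrArg g (hm' ⟨t i, Finset.mem_coe.1 (ht i)⟩)
      show M r (fun i => g (a' (t i))) ↔ M r (fun i => g (a (t i)))
      rw [h2]
    exact (lo_congr e D₀ ∅ _ _ h1).trans hB.2
  obtain ⟨N, _, hNgd, hNrel⟩ := chain hd hM hG hG' hst hGG (fun m C => lo e (N₀ m C) ∅) hinv
    (D₀.card + 1)
  have h3 : EqS (D₀ : Set ℕ) (N (fun s : {x // x ∈ D₀} => s.1) C₀) C₀ :=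
    hNgd D₀ D₀ D₀ _ C₀ hadm (Finset.Subset.refl _) (Finset.Subset.refl _) (fun _ h => h)
      (Con_self _ _ _) hC (Or.inl (Nat.lt_succ_of_le (mk_le _ _)))
  exact Rel_symm (Rel_congr hN1 h3 (hNrel D₀ _ C₀ hadm))

end Pool.Agent.Lib.H3F
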