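import Pool.Agent.Lib.H3F.B6
import Pool.Agent.Lib.H3F.C4
import Pool.Agent.Lib.H3F.E1
import Pool.Agent.Lib.H3F.B7a
import Pool.Agent.Lib.H3F.B7b
import Pool.Agent.Lib.H3F.B7c

/-! # B7: a closed group is determined by its operations and local operations (d) -/

set_option autoImplicit false

namespace Pool.Agent.Lib.H3F

open Equiv

open Pool.Agent.Lib.H3C (Cl FR Olig Sup pai pia)

variable {R : Type} {ar : R → Type} [∀ r, Finite (ar r)] {d : ℕ} {V : Type}
  {M : Str R ar V} {G G' : Subgroup (Perm V)} {e : LoD R ar d}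

/-- **`G ≤ G'`.**

Proof. Let `g ∈ G`, `F` a finite set.  Number `F`: `D = Finset.range F.card`, `a : ℕ → V` injective on `D` with image `F`
(`Finset.equivFin`; `a` arbitrary outside).  `Rel M G D (cm a M) (cm (g ∘ a) M)`, so the same for `G'`; `Rel_real` for `a` gives
`g' ∈ G'` with `cm (g ∘ a) M = cm (g' ∘ a) M` on `D`; `hom_nat` gives `σ ∈ Au M ≤ G'` with `σ (g' (a u)) = g (a u)`, so
`σ * g' ∈ G'` agrees with `g` on `F`; `hc`. -/
theorem le_of_rel [Nonempty V] (hM : HFA M) (hG' : Au M ≤ G') (hc : Cl G')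
    (h : ∀ (D : Finset ℕ) (C C' : Str R ar ℕ), Rel M G D C C' → Rel M G' D C C') : G ≤ G' := by
  intro g hg
  apply hc
  intro F
  classical
  obtain ⟨v0⟩ := (inferInstance : Nonempty V)
  obtain ⟨a, ha⟩ : ∃ a : ℕ → V, ∀ n (hn : n < F.card), a n = ((F.equivFin.symm ⟨n, hn⟩ : F) : V) :=
    ⟨fun n => if hn : n < F.card then ((F.equivFin.symm ⟨n, hn⟩ : F) : V) else v0,
      fun n hn => dif_pos hn⟩
  have hinj : Set.InjOn a ((Finset.range F.card : Finset ℕ) : Set ℕ) := by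
    intro x hx y hy hxy
    have hx' : x < F.card := Finset.mem_range.1 (Finset.mem_coe.1 hx)
    have hy' : y < F.card := Finset.mem_range.1 (Finset.mem_coe.1 hy)
    rw [ha x hx', ha y hy'] at hxy
    have h1 := F.equivFin.symm.injective (Subtype.ext hxy)
    exact congrArg Fin.val h1
  have hinj' : ∀ k : Perm V,
      Set.InjOn (fun x => k (a x)) ((Finset.range F.card : Finset ℕ) : Set ℕ) := by
    intro k x hx y hy hxy
    exact hinj hx hy (k.injective hxy)
  have h1 : Rel M G (Finset.range F.card) (cm a M) (cm (fun x => g (a x)) M) :=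
    ⟨a, hinj, EqS.refl _ _, g, hg, EqS.refl _ _⟩
  obtain ⟨g', hg', h3⟩ := Rel_real hM hG' (h _ _ _ h1) hinj (EqS.refl _ _)
  obtain ⟨σ, hσ, h4⟩ := hom_nat hM (hinj' g') (hinj' g) h3 (EqS.refl _ _)
  refine ⟨σ * g', G'.mul_mem (hG' hσ) hg', ?_⟩
  intro x hx
  have h5 : ((F.equivFin ⟨x, hx⟩ : Fin F.card) : ℕ) < F.card := (F.equivFin ⟨x, hx⟩).2
  have h6 : a ((F.equivFin ⟨x, hx⟩ : Fin F.card) : ℕ) = x := by
    rw [ha _ h5]
    have h7 : (⟨((F.equivFin ⟨x, hx⟩ : Fin F.card) : ℕ), h5⟩ : Fin F.card) =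
        F.equivFin ⟨x, hx⟩ := Fin.ext rfl
    rw [h7, Equiv.symm_apply_apply]
  have h8 := h4 _ (Finset.mem_range.2 h5)
  simp only [h6] at h8
  rw [Perm.mul_apply]
  exact h8

end Pool.Agent.Lib.H3F
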