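import Pool.Agent.Lib.H3F.B6
import Pool.Agent.Lib.H3F.C4
import Pool.Agent.Lib.H3F.E1
import Pool.Agent.Lib.H3F.B7a
import Pool.Agent.Lib.H3F.B7b
import Pool.Agent.Lib.H3F.B7c
import Pool.Agent.Lib.H3F.B7d

/-! # B7: a closed group is determined by its operations and local operations (e) -/

set_option autoImplicit false

namespace Pool.Agent.Lib.H3F

open Equiv

open Pool.Agent.Lib.H3C (Cl FR Olig Sup pai pia)

variable {R : Type} {ar : R → Type} [∀ r, Finite (ar r)] {d : ℕ} {V : Type}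
  {M : Str R ar V} {G G' : Subgroup (Perm V)} {e : LoD R ar d}

/-- **Finitely many closed groups.**

Proof. If `V` is empty then `Perm V` is trivial (`Set.toFinite`).  Otherwise let `d` be the maximum of `Nat.card (ar r)`
(`Finite R`).  The map `G ↦ ({φ | IsOp M G φ}, {(e, j, lam) | IsLo M G e j lam})` into the finite type
`Set (LoD R ar d) × Set (LoD R ar d × Fin (d + 1) × LoD R ar d)` is injective on the set of closed supergroups: `rel_of_rel` and
`le_of_rel` in both directions (`Set.Finite.of_injOn` or `Set.Finite.of_finite_image`). -/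
theorem fr_Au [Finite R] (hM : HFA M) : FR (Au M) := by
  rcases isEmpty_or_nonempty V with hV | hV
  · exact Set.toFinite _
  obtain ⟨d, hd'⟩ := (Set.finite_range fun r : R => Nat.card (ar r)).bddAbove
  have hd : ∀ r, Nat.card (ar r) ≤ d := fun r => hd' ⟨r, rfl⟩
  let f : Subgroup (Perm V) → Set (LoD R ar d) × Set (LoD R ar d × Fin (d + 1) × LoD R ar d) :=
    fun G => ({φ | IsOp M G φ}, {p | IsLo M G p.1 (p.2.1 : ℕ) p.2.2})
  have key : ∀ G G' : Subgroup (Perm V), Au M ≤ G → Au M ≤ G' → Cl G' → f G = f G' → G ≤ G' := by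
    intro G G' hG hG' hc hf
    have h1 : {φ : LoD R ar d | IsOp M G φ} = {φ : LoD R ar d | IsOp M G' φ} :=
      congrArg Prod.fst hf
    have h2 : {p : LoD R ar d × Fin (d + 1) × LoD R ar d | IsLo M G p.1 (p.2.1 : ℕ) p.2.2} =
        {p : LoD R ar d × Fin (d + 1) × LoD R ar d | IsLo M G' p.1 (p.2.1 : ℕ) p.2.2} :=
      congrArg Prod.snd hf
    have hops : ∀ φ : LoD R ar d, IsOp M G φ → IsOp M G' φ := fun φ hφ =>
      (Set.ext_iff.mp h1 φ).mp hφ
    have hlo : ∀ (e : LoD R ar d) (j : ℕ) (lam : LoD R ar d), j ≤ d → IsLo M G e j lam →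
        IsLo M G' e j lam := fun e j lam hj hl =>
      (Set.ext_iff.mp h2 (e, ⟨j, Nat.lt_succ_of_le hj⟩, lam)).mp hl
    exact le_of_rel hM hG' hc fun D C C' h => rel_of_rel hd hM hG hG' hops hlo D C C' h
  have hs : Finite (Str R ar (Fin (d + 1))) := by
    have h1 : ∀ r, Finite ((ar r → Fin (d + 1)) → Prop) := fun r => Pi.finite
    exact Pi.finite
  have hl1 : Finite (Str R ar (Fin (d + 1)) → Str R ar (Fin (d + 1))) := Pi.finite
  have hl : Finite (LoD R ar d) := by
    have h2 : ∀ _ : Finset (Fin (d + 1)), Finite (Str R ar (Fin (d + 1)) → Str R ar (Fin (d + 1))) :=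
      fun _ => hl1
    exact Pi.finite
  have hfin : Finite (Set (LoD R ar d) × Set (LoD R ar d × Fin (d + 1) × LoD R ar d)) :=
    inferInstance
  refine Set.Finite.of_finite_image (f := f) (Set.toFinite _) ?_
  intro G hG G' hG' hf
  exact le_antisymm (key G G' hG.1 hG'.1 hG'.2 hf) (key G' G hG'.1 hG.1 hG.2 hf.symm)

end Pool.Agent.Lib.H3F
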