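import Pool.Agent.Lib.H3F.B7a
import Pool.Agent.Lib.H3F.B7b
import Pool.Agent.Lib.H3F.B7c
import Pool.Agent.Lib.H3F.B7d
import Pool.Agent.Lib.H3F.B7e

/-! # B7: a closed group is determined by its operations and local operations (all parts) -/
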