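import Pool.Agent.Lib.H3F.K1
import Pool.Agent.Lib.H3F.N3

/-! # C1: structures over constants (definitions) -/

set_option autoImplicit false

namespace Pool.Agent.Lib.H3F

variable {R : Type} {ar : R → Type} {κ : Type}

/-- The symbols over the constants `κ`: some arguments are replaced by constants. -/
abbrev Rc (R : Type) (ar : R → Type) (κ : Type) : Type := Σ r : R, ar r → Option κ

/-- The arity: the remaining arguments. -/
abbrev arc (R : Type) (ar : R → Type) (κ : Type) (q : Rc R ar κ) : Type := {i : ar q.1 // q.2 i = none}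

/-- The entry of a tuple: the constant, or the entry of the remaining tuple. -/
def ent {ι : Type} (q : Rc R ar κ) (t : arc R ar κ q → ι) (i : ar q.1) : ι ⊕ κ :=
  match h : q.2 i with
  | none => Sum.inl (t ⟨i, h⟩)
  | some s => Sum.inr s

/-- The structure over the constants of a structure on `ι ⊕ κ`. -/
def enc {ι : Type} (C : Str R ar (ι ⊕ κ)) : Str (Rc R ar κ) (arc R ar κ) ι := fun q t =>
  C q.1 (ent q t)

/-- The class of the structures over the constants `c` in `M`. -/
def Qc {V : Type} (M : Str R ar V) (c : κ → V) (ι : Type)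
    (A : Str (Rc R ar κ) (arc R ar κ) ι) : Prop :=
  ∃ b : ι → V, Function.Injective b ∧ (∀ u s, b u ≠ c s) ∧ enc (cm (Sum.elim b c) M) = A

end Pool.Agent.Lib.H3F
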