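import Pool.Agent.Lib.H3F.K1
import Pool.Agent.Lib.H3F.N3
import Pool.Agent.Lib.H3F.C1z

/-! # C1: structures over constants (a) -/

set_option autoImplicit false

namespace Pool.Agent.Lib.H3F

variable {R : Type} {ar : R → Type} {κ : Type}

/-- Proof. `match` with a hypothesis: `split`, or `cases h : q.2 i` and `simp [ent, h]`-like; generalise the equation. -/
theorem ent_none {ι : Type} (q : Rc R ar κ) (t : arc R ar κ q → ι) (i : ar q.1)
    (h : q.2 i = none) : ent q t i = Sum.inl (t ⟨i, h⟩) := by
  unfold ent
  split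
  · rfl
  · rename_i s hs
    rw [h] at hs
    exact absurd hs (by simp)

/-- Proof. As `ent_none`. -/
theorem ent_some {ι : Type} (q : Rc R ar κ) (t : arc R ar κ q → ι) (i : ar q.1) (s : κ)
    (h : q.2 i = some s) : ent q t i = Sum.inr s := by
  unfold ent
  split
  · rename_i hs
    rw [h] at hs
    exact absurd hs (by simp)
  · rename_i s' hs
    rw [h] at hs
    rw [Option.some.inj hs]

/-- Proof. `ent_none`, `ent_some`. -/
theorem ent_map {ι ι' : Type} (f : ι → ι') (q : Rc R ar κ) (t : arc R ar κ q → ι) (i : ar q.1) :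
    ent q (fun j => f (t j)) i = Sum.map f id (ent q t i) := by
  rcases h : q.2 i with _ | s
  · rw [ent_none q _ i h, ent_none q t i h]
    rfl
  · rw [ent_some q _ i s h, ent_some q t i s h]
    rfl

/-- Every tuple in `ι ⊕ κ` is of this form.

Proof. `q = ⟨r, fun i => (t i).elim (fun _ => none) some⟩`, and the remaining tuple takes the left parts (`t i` is a
`Sum.inl` if `q.2 i = none`). -/
theorem ent_surj {ι : Type} (r : R) (t : ar r → ι ⊕ κ) :
    ∃ (p : ar r → Option κ) (t' : arc R ar κ ⟨r, p⟩ → ι), ent ⟨r, p⟩ t' = t := by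
  have h1 : ∀ i : ar r, (fun i => (t i).elim (fun _ => none) some : ar r → Option κ) i = none →
      ∃ x : ι, t i = Sum.inl x := by
    intro i hi
    rcases h : t i with x | s
    · exact ⟨x, rfl⟩
    · simp only [h, Sum.elim_inr] at hi
      exact absurd hi (by simp)
  refine ⟨fun i => (t i).elim (fun _ => none) some, fun j => (h1 j.1 j.2).choose, ?_⟩
  funext i
  rcases h : t i with x | s
  · have h2 : (⟨r, fun i => (t i).elim (fun _ => none) some⟩ : Rc R ar κ).2 i = none := by
      simp only [h, Sum.elim_inl]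
    rw [ent_none _ _ i h2]
    have h3 := (h1 i h2).choose_spec
    rw [← h3, h]
  · have h2 : (⟨r, fun i => (t i).elim (fun _ => none) some⟩ : Rc R ar κ).2 i = some s := by
      simp only [h, Sum.elim_inr]
    rw [ent_some _ _ i s h2]

end Pool.Agent.Lib.H3F
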