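import Pool.Agent.Lib.H3F.K1
import Pool.Agent.Lib.H3F.N3
import Pool.Agent.Lib.H3F.C1z
import Pool.Agent.Lib.H3F.C1a

/-! # C1: structures over constants (b) -/

set_option autoImplicit false

namespace Pool.Agent.Lib.H3F

variable {R : Type} {ar : R → Type} {κ : Type}

/-- Proof. `ent_surj`. -/
theorem enc_inj {ι : Type} {C C' : Str R ar (ι ⊕ κ)} (h : enc C = enc C') : C = C' := by
  funext r t
  obtain ⟨p, t', ht⟩ := ent_surj r t
  have h1 : enc C ⟨r, p⟩ t' = enc C' ⟨r, p⟩ t' := congrFun (congrFun h ⟨r, p⟩) t'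
  have h2 : C r (ent ⟨r, p⟩ t') = C' r (ent ⟨r, p⟩ t') := h1
  rw [ht] at h2
  exact h2

private theorem C1b_ent_p {ι : Type} {r : R} {p p' : ar r → Option κ}
    {t : arc R ar κ ⟨r, p⟩ → ι} {t' : arc R ar κ ⟨r, p'⟩ → ι}
    (h : ent (⟨r, p'⟩ : Rc R ar κ) t' = ent (⟨r, p⟩ : Rc R ar κ) t) : p' = p := by
  funext i
  have h0 := congrFun h i
  rcases h1 : p i with _ | s
  · rcases h2 : p' i with _ | s'
    · rfl
    · rw [ent_some (⟨r, p'⟩ : Rc R ar κ) t' i s' h2, ent_none (⟨r, p⟩ : Rc R ar κ) t i h1] at h0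
      exact absurd h0 (by simp)
  · rcases h2 : p' i with _ | s'
    · rw [ent_none (⟨r, p'⟩ : Rc R ar κ) t' i h2, ent_some (⟨r, p⟩ : Rc R ar κ) t i s h1] at h0
      exact absurd h0 (by simp)
    · rw [ent_some (⟨r, p'⟩ : Rc R ar κ) t' i s' h2, ent_some (⟨r, p⟩ : Rc R ar κ) t i s h1] at h0
      rw [Sum.inr.inj h0]

private theorem C1b_ent_t {ι : Type} {q : Rc R ar κ} {t t' : arc R ar κ q → ι}
    (h : ent q t' = ent q t) : t' = t := by
  funext j
  obtain ⟨i, hi⟩ := j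
  have h0 := congrFun h i
  rw [ent_none q t' i hi, ent_none q t i hi] at h0
  exact Sum.inl.inj h0

private theorem C1b_key {ι : Type} (A : Str (Rc R ar κ) (arc R ar κ) ι) (r : R)
    (p p' : ar r → Option κ) (t : arc R ar κ ⟨r, p⟩ → ι) (t' : arc R ar κ ⟨r, p'⟩ → ι)
    (h : ent (⟨r, p'⟩ : Rc R ar κ) t' = ent (⟨r, p⟩ : Rc R ar κ) t) (hA : A ⟨r, p'⟩ t') :
    A ⟨r, p⟩ t := by
  have hp : p' = p := C1b_ent_p h
  cases hp
  have ht : t' = t := C1b_ent_t h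
  rw [← ht]
  exact hA

/-- Proof. Define `C r t` by the `q`, `t'` of the proof of `ent_surj` (as functions of `t`); then
`enc C q t = A q t` because the `q`, `t'` of the tuple `ent q t` are `q`, `t` (`Sigma` equality; avoid it by
`C r t = ∃ q t', q.1 = r ∧ HEq ..` or by `C r t = ∃ (p) (t'), ent ⟨r, p⟩ t' = t ∧ A ⟨r, p⟩ t'` and the injectivity of
`(p, t') ↦ ent ⟨r, p⟩ t'`). -/
theorem enc_surj {ι : Type} (A : Str (Rc R ar κ) (arc R ar κ) ι) :
    ∃ C : Str R ar (ι ⊕ κ), enc C = A := by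
  refine ⟨fun r t => ∃ (p : ar r → Option κ) (t' : arc R ar κ ⟨r, p⟩ → ι),
    ent ⟨r, p⟩ t' = t ∧ A ⟨r, p⟩ t', ?_⟩
  refine funext fun q => ?_
  obtain ⟨r, p⟩ := q
  refine funext fun t => propext ⟨?_, fun h => ⟨p, t, rfl, h⟩⟩
  rintro ⟨p', t', h1, h2⟩
  exact C1b_key A r p p' t t' h1 h2

/-- Proof. `ent_map`. -/
theorem enc_cm {ι ι' : Type} (f : ι' → ι) (C : Str R ar (ι ⊕ κ)) :
    enc (cm (Sum.map f id) C) = cm f (enc C) := by
  funext q t
  have h : (fun i => Sum.map f id (ent q t i)) = ent q (fun j => f (t j)) := by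
    funext i
    exact (ent_map f q t i).symm
  change C q.1 (fun i => Sum.map f id (ent q t i)) = C q.1 (ent q (fun j => f (t j)))
  rw [h]

end Pool.Agent.Lib.H3F
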