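import Pool.Agent.Lib.H3F.K1
import Pool.Agent.Lib.H3F.N3
import Pool.Agent.Lib.H3F.C1z
import Pool.Agent.Lib.H3F.C1a
import Pool.Agent.Lib.H3F.C1b

/-! # C1: structures over constants (c) -/

set_option autoImplicit false

namespace Pool.Agent.Lib.H3F

variable {R : Type} {ar : R → Type} {κ : Type}

/-- The set `X` together with the constants. -/
private def C1c_ext (κ : Type) {ι : Type} (X : Set ι) : Set (ι ⊕ κ) :=
  {z | match z with
    | Sum.inl x => x ∈ X
    | Sum.inr _ => True}

/-- The points of the extended set as points of `X` or constants. -/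
private def C1c_f {ι : Type} (X : Set ι) (z : C1c_ext κ X) : X ⊕ κ :=
  match z with
  | ⟨Sum.inl x, h⟩ => Sum.inl ⟨x, h⟩
  | ⟨Sum.inr s, _⟩ => Sum.inr s

private theorem C1c_f_val {ι : Type} (X : Set ι) (z : C1c_ext κ X) :
    Sum.map Subtype.val id (C1c_f X z) = z.1 := by
  rcases z with ⟨x | s, h⟩ <;> rfl

private theorem C1c_f_inj {ι : Type} (X : Set ι) :
    Function.Injective (C1c_f (κ := κ) X) := by
  intro z z' h
  apply Subtype.ext
  rw [← C1c_f_val X z, ← C1c_f_val X z', h]

private theorem C1c_str {V ι : Type} (M : Str R ar V) (c : κ → V) (C : Str R ar (ι ⊕ κ))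
    (X : Set ι) (b : X → V)
    (hb : enc (cm (Sum.elim b c) M) = cm Subtype.val (enc C)) :
    cm (Sum.elim b c) M = cm (Sum.map (Subtype.val : X → ι) id) C := by
  apply enc_inj
  rw [hb, enc_cm]

private theorem C1c_ag {V ι : Type} (M : Str R ar V) (c : κ → V) (hc : Function.Injective c)
    (C : Str R ar (ι ⊕ κ)) (X : Set ι) (b : X → V) (hbi : Function.Injective b)
    (hbc : ∀ u s, b u ≠ c s)
    (hb : enc (cm (Sum.elim b c) M) = cm Subtype.val (enc C)) :
    Ag M (C1c_ext κ X) (cm Subtype.val C) := by
  have h := C1c_str M c C X b hb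
  refine ⟨fun z => Sum.elim b c (C1c_f X z), ?_, ?_⟩
  · have hinj : Function.Injective (Sum.elim b c) := by
      intro z z' hz
      rcases z with x | s <;> rcases z' with x' | s'
      · exact congrArg Sum.inl (hbi hz)
      · exact absurd hz (hbc x s')
      · exact absurd hz.symm (hbc x' s)
      · exact congrArg Sum.inr (hc hz)
    exact hinj.comp (C1c_f_inj X)
  · funext r t
    have h1 := congrFun (congrFun h r) (fun i => C1c_f X (t i))
    have h2 : cm (Sum.map (Subtype.val : X → ι) id) C r (fun i => C1c_f X (t i)) =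
        C r (fun i => (t i).1) := by
      change C r (fun i => Sum.map Subtype.val id (C1c_f X (t i))) = _
      congr 1
      funext i
      exact C1c_f_val X (t i)
    exact h1.trans h2

/-- **The structures over constants form a free amalgamation class.**

Proof. `her`: `b ∘ e`, `enc_cm` (`Sum.elim b c ∘ Sum.map e id = Sum.elim (b ∘ e) c`).  `am`: let `A = enc C` (`enc_surj`).  `Q X`, `Q Y`
give realisations `bX`, `bY`.  On the finite type `ι ⊕ κ` apply `hM.fa.am` to `C` and the sets
`X' = {z | z = inl x with x ∈ X, or z = inr s}`, `Y'` similarly: a tuple of `C` is `ent q t` with `A q t` (`ent_surj`), so `t` is in `X` or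
in `Y`, so the tuple is in `X'` or `Y'`; `Ag M X' _` is realised by `bX` and `c` (injective because `c` is and `bX` avoids `c`), the
structures agree by `enc_inj` / `enc_cm`; same for `Y'`.  So there is `a : ι ⊕ κ → V` injective with `cm a M = C`.  The structures
`cm (a ∘ inr) M` and `cm c M` are equal (both are `C` on `κ`: for `c` use the realisation `bX`, `C` restricted to `X'`; note that
`X'` contains all of `κ`, also if `X` is empty); `hM.hom` gives `σ ∈ Au M` with `σ (a (inr s)) = c s`.  Take `b u = σ (a (inl u))`. -/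
theorem Qc_fac [Finite κ] {V : Type} {M : Str R ar V} (hM : HFA M) (c : κ → V)
    (hc : Function.Injective c) : FAC (Qc M c) := by
  constructor
  · rintro ι κ' e A he ⟨b, hbi, hbc, hb⟩
    refine ⟨fun u => b (e u), hbi.comp he, fun u s => hbc (e u) s, ?_⟩
    rw [← hb, ← enc_cm e]
    congr 1
    funext r t
    change M r (fun i => Sum.elim (fun u => b (e u)) c (t i)) =
      M r (fun i => Sum.elim b c (Sum.map e id (t i)))
    congr 1
    funext i
    rcases t i with x | s <;> rfl
  · intro ι _ A X Y hXY hA hX hY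
    obtain ⟨C, rfl⟩ := enc_surj A
    obtain ⟨bX, hbXi, hbXc, hbX⟩ := hX
    obtain ⟨bY, hbYi, hbYc, hbY⟩ := hY
    have hAX := C1c_ag M c hc C X bX hbXi hbXc hbX
    have hAY := C1c_ag M c hc C Y bY hbYi hbYc hbY
    have key : ∀ (Z : Set ι) (r : R) (p : ar r → Option κ) (t' : arc R ar κ ⟨r, p⟩ → ι),
        (∀ i, t' i ∈ Z) → ∀ i, ent ⟨r, p⟩ t' i ∈ C1c_ext κ Z := by
      intro Z r p t' ht i
      rcases h : p i with _ | s
      · have h1 : ent ⟨r, p⟩ t' i = Sum.inl (t' ⟨i, h⟩) := ent_none ⟨r, p⟩ t' i h
        rw [h1]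
        exact ht _
      · have h1 : ent ⟨r, p⟩ t' i = Sum.inr s := ent_some ⟨r, p⟩ t' i s h
        rw [h1]
        trivial
    have hfin : Finite (ι ⊕ κ) := inferInstance
    obtain ⟨a, hai, ha⟩ := hM.fa.am (ι ⊕ κ) C (C1c_ext κ X) (C1c_ext κ Y)
      (by
        intro z
        rcases z with x | s
        · exact hXY x
        · exact Or.inl trivial)
      (by
        intro r t hCt
        obtain ⟨p, t', rfl⟩ := ent_surj r t
        rcases hA ⟨r, p⟩ t' hCt with h | h
        · exact Or.inl (key X r p t' h)
        · exact Or.inr (key Y r p t' h))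
      hAX hAY
    have hcM : cm (fun s => a (Sum.inr s)) M = cm c M := by
      have h := C1c_str M c C X bX hbX
      have h1 : cm (fun s => a (Sum.inr s)) M = cm (Sum.inr : κ → ι ⊕ κ) C := by
        rw [← ha]
        rfl
      have h2 : cm c M = cm (Sum.inr : κ → X ⊕ κ) (cm (Sum.elim bX c) M) := rfl
      rw [h1, h2, h]
      rfl
    obtain ⟨σ, hσ, hσc⟩ := hM.hom κ (fun s => a (Sum.inr s)) c
      (fun s s' h => Sum.inr_injective (hai h)) hc hcM
    refine ⟨fun u => σ (a (Sum.inl u)), ?_, ?_, ?_⟩
    · intro u u' h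
      exact Sum.inl_injective (hai (σ.injective h))
    · intro u s h
      rw [← hσc s] at h
      have h1 := hai (σ.injective h)
      exact absurd h1 (by simp)
    · congr 1
      funext r t
      rw [← ha]
      have h1 : (fun i => Sum.elim (fun u => σ (a (Sum.inl u))) c (t i)) =
          fun i => σ (a (t i)) := by
        funext i
        rcases t i with x | s
        · rfl
        · exact (hσc s).symm
      change M r (fun i => Sum.elim (fun u => σ (a (Sum.inl u))) c (t i)) = M r (fun i => a (t i))
      rw [h1]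
      exact propext (hσ r (fun i => a (t i)))

end Pool.Agent.Lib.H3F
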