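import Pool.Agent.Lib.H3F.C1z
import Pool.Agent.Lib.H3F.C1a
import Pool.Agent.Lib.H3F.C1b
import Pool.Agent.Lib.H3F.C1c

/-! # C1: structures over constants (all parts) -/
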