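import Pool.Agent.Lib.H3F.Defs

/-! # R10: the first system (a) -/

set_option autoImplicit false

namespace Pool.Agent.Lib.H3F

variable {R : Type} {ar : R → Type} {β : Type} {n : ℕ} {H : (Fin n → β) → Prop}

/-- Proof. `iniS` at `fun i => (h, t i)`: if `ar r` is nonempty then the `h'` of the existential is `h` and `t1 = t`; if `ar r`
is empty then `t1 = t` (`Subsingleton`, `funext` with `isEmptyElim`).  `Nonempty (ar r)` or `IsEmpty (ar r)` by
`isEmpty_or_nonempty`. -/
theorem cm_ini (C : Str R ar (Fin n)) (h : {h : Fin n → β // H h}) :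
    cm (fun x => ((h, x) : Ini H)) (iniS H C) = C := by
  funext r t
  apply propext
  constructor
  · rintro ⟨h', t1, he, hc⟩
    have ht : t1 = t := funext fun i => (congrArg Prod.snd (he i)).symm
    rw [← ht]
    exact hc
  · intro hc
    exact ⟨h, t, fun i => rfl, hc⟩

/-- Proof. Subtype of `Fin n → β` times `Fin n`. -/
theorem finite_ini [Finite β] : Finite (Ini H) := by
  unfold Ini
  infer_instance

end Pool.Agent.Lib.H3F
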