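import Pool.Agent.Lib.H3F.Defs
import Pool.Agent.Lib.H3F.R10a

/-! # R10: the first system (b) -/

set_option autoImplicit false

namespace Pool.Agent.Lib.H3F

variable {R : Type} {ar : R → Type} {β : Type} {n : ℕ} {H : (Fin n → β) → Prop}

/-- **The first system is over `D`.**

Proof. Let `F` be irreducible.  There is `h₀` with `F ⊆ {h₀} × Fin n`: if `F` is empty any `h₀` (`hne`); otherwise the first
component of a point of `F`, since two points of `F` lie in a common tuple and all points of a relation tuple have the same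
first component.  So `inip` is injective on `F` (`h₀` is injective by `hH`).  For `t` in `F`, `t i = (h₀, t1 i)`, and
`iniS H C r t ↔ C r t1` (`cm_ini`, `congrFun`) `↔ D r (fun i => h₀ (t1 i))` (`hH`: `cm h₀ D = C`). -/
theorem he_ini (C : Str R ar (Fin n)) (D : Str R ar β)
    (hH : ∀ h, H h → Function.Injective h ∧ cm h D = C) (hne : ∃ h, H h) :
    HE (iniS H C) (inip H) D := by
  intro F hF
  have key : ∃ h0 : {h : Fin n → β // H h}, ∀ x : Ini H, x ∈ F → x.1 = h0 := by
    by_cases hn : F.Nonempty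
    · obtain ⟨x0, hx0⟩ := hn
      refine ⟨x0.1, fun x hx => ?_⟩
      by_cases hxx : x = x0
      · rw [hxx]
      · obtain ⟨r, t, hA, -, ⟨i, hi⟩, ⟨j, hj⟩⟩ := hF x hx x0 hx0 hxx
        obtain ⟨h', t1, he, -⟩ := hA
        have h1 : x.1 = h' := by rw [← hi, he i]
        have h2 : x0.1 = h' := by rw [← hj, he j]
        rw [h1, h2]
    · obtain ⟨h, hh⟩ := hne
      exact ⟨⟨h, hh⟩, fun x hx => (hn ⟨x, hx⟩).elim⟩
  obtain ⟨h0, hh0⟩ := key
  refine ⟨?_, ?_⟩
  · intro x hx y hy hxy
    have hx1 := hh0 x hx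
    have hy1 := hh0 y hy
    have h3 : h0.1 x.2 = h0.1 y.2 := by
      have h4 : x.1.1 x.2 = y.1.1 y.2 := hxy
      rw [hx1, hy1] at h4
      exact h4
    exact Prod.ext (hx1.trans hy1.symm) ((hH h0.1 h0.2).1 h3)
  · intro r t ht
    have hcm := (hH h0.1 h0.2).2
    have h3 : (fun i => ((h0, (t i).2) : Ini H)) = t := funext fun i => by
      have h4 := hh0 (t i) (ht i)
      exact Prod.ext h4.symm rfl
    have e1 : iniS H C r t ↔ C r (fun i => (t i).2) := by
      have h2 := congrFun (congrFun (cm_ini (H := H) C h0) r) (fun i => (t i).2)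
      have h5 : iniS H C r (fun i => ((h0, (t i).2) : Ini H)) = C r (fun i => (t i).2) := h2
      rw [h3] at h5
      exact iff_of_eq h5
    have e2 : cm h0.1 D r (fun i => (t i).2) ↔ D r (fun i => h0.1 (t i).2) := Iff.rfl
    have e3 : (fun i => inip H (t i)) = fun i => h0.1 (t i).2 := funext fun i => by
      have h4 := hh0 (t i) (ht i)
      have h5 : inip H (t i) = (t i).1.1 (t i).2 := rfl
      rw [h5, h4]
    rw [e1, e3, ← e2, hcm]

end Pool.Agent.Lib.H3F
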