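import Pool.Agent.Lib.H3F.Defs
import Pool.Agent.Lib.H3F.R10a
import Pool.Agent.Lib.H3F.R10b

/-! # R10: the first system (c) -/

set_option autoImplicit false

namespace Pool.Agent.Lib.H3F

variable {R : Type} {ar : R → Type} {β : Type} {n : ℕ} {H : (Fin n → β) → Prop}

open Classical in
private theorem q_ini_aux {Q : ∀ ι : Type, Str R ar ι → Prop} (hQ : FAC Q) [Finite β]
    (C : Str R ar (Fin n)) (hC : Q (Fin n) C) (hne : ∃ h, H h)
    (S : Finset {h : Fin n → β // H h}) :
    Q {y : Ini H // y.1 ∈ S} (cm Subtype.val (iniS H C)) := by
  induction S using Finset.induction_on with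
  | empty =>
    have hemp : IsEmpty {y : Ini H // y.1 ∈ (∅ : Finset {h : Fin n → β // H h})} :=
      ⟨fun y => absurd y.2 (Finset.notMem_empty _)⟩
    have h1 := hQ.her (Fin n) {y : Ini H // y.1 ∈ (∅ : Finset {h : Fin n → β // H h})}
      (fun y => (hemp.false y).elim) C (fun y => (hemp.false y).elim) hC
    have h2 : cm (fun y : {y : Ini H // y.1 ∈ (∅ : Finset {h : Fin n → β // H h})} =>
        ((hemp.false y).elim : Fin n)) C = cm Subtype.val (iniS H C) := by
      funext r t
      rcases isEmpty_or_nonempty (ar r) with he | ⟨⟨i⟩⟩
      · apply propext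
        constructor
        · intro h
          obtain ⟨h0, hh0⟩ := hne
          exact ⟨⟨h0, hh0⟩, _, fun i => he.elim i, h⟩
        · rintro ⟨h', t1, -, h⟩
          have : t1 = fun i => ((hemp.false (t i)).elim : Fin n) := Subsingleton.elim _ _
          rw [this] at h
          exact h
      · exact (hemp.false (t i)).elim
    rw [h2] at h1
    exact h1
  | insert h S hS ih =>
    have hfin : Finite (Ini H) := finite_ini
    have hfin2 : Finite {y : Ini H // y.1 ∈ insert h S} := inferInstance
    refine hQ.am {y : Ini H // y.1 ∈ insert h S} (cm Subtype.val (iniS H C))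
      {y | y.1.1 ∈ S} {y | y.1.1 = h} ?_ ?_ ?_ ?_
    · intro x
      rcases Finset.mem_insert.1 x.2 with hx | hx
      · exact Or.inr hx
      · exact Or.inl hx
    · rintro r t ⟨h', t1, ht, -⟩
      rcases isEmpty_or_nonempty (ar r) with he | ⟨⟨i0⟩⟩
      · exact Or.inl fun i => he.elim i
      · have h3 : ∀ i, (t i).1.1 = h' := fun i => by
          have := ht i
          exact congrArg Prod.fst this
        have h4 : h' ∈ insert h S := by
          have := (t i0).2
          rw [h3 i0] at this
          exact this
        rcases Finset.mem_insert.1 h4 with hx | hx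
        · exact Or.inr fun i => by
            show (t i).1.1 = h
            rw [h3 i, hx]
        · exact Or.inl fun i => by
            show (t i).1.1 ∈ S
            rw [h3 i]
            exact hx
    · have h1 := hQ.her {y : Ini H // y.1 ∈ S}
        {y : {y : Ini H // y.1 ∈ insert h S} | y.1.1 ∈ S}
        (fun y => ⟨y.1.1, y.2⟩) (cm Subtype.val (iniS H C)) ?_ ih
      · exact h1
      · intro y z hyz
        have := congrArg Subtype.val hyz
        exact Subtype.ext (Subtype.ext this)
    · have h1 := hQ.her (Fin n)
        {y : {y : Ini H // y.1 ∈ insert h S} | y.1.1 = h}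
        (fun y => y.1.1.2) C ?_ hC
      · have h2 : cm (fun y : {y : {y : Ini H // y.1 ∈ insert h S} | y.1.1 = h} => y.1.1.2) C =
            cm Subtype.val (cm Subtype.val (iniS H C)) := by
          funext r t
          have h3 := congrFun (congrFun (cm_ini (H := H) C h) r) (fun i => (t i).1.1.2)
          have h4 : (fun i => (t i).1.1) = fun i => ((h, (t i).1.1.2) : Ini H) := by
            funext i
            exact Prod.ext (t i).2 rfl
          show C r (fun i => (t i).1.1.2) = iniS H C r (fun i => (t i).1.1)
          rw [h4]
          exact h3.symm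
        rw [h2] at h1
        exact h1
      · intro y z hyz
        apply Subtype.ext
        apply Subtype.ext
        exact Prod.ext (y.2.trans z.2.symm) hyz

/-- **The first system is in the class.**

Proof. For a finite set `S` of elements of `{h // H h}` let `W S` be the set of the points `y` with `y.1 ∈ S`.  Claim
`Q (W S) (cm Subtype.val (iniS H C))` by induction on `S` (`Finset.induction_on`).  `∅`: the type `W ∅` is empty; `her` from
`hC` along the empty map `W ∅ → Fin n` (the structures on the empty type agree: for `ar r` nonempty there are no tuples, for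
`ar r` empty both say `C r t` for the only `t`, use `hne`).  `insert h S`: `hQ.am` on the type `W (insert h S)` with the sets
`{y | y.1.1 ∈ S}` and `{y | y.1.1 = h}`; a relation tuple has all its points in one copy; `Q` of the first by the induction
hypothesis and `her`, of the second by `her` from `hC` along `y ↦ y.1.2` (the structure is `cm (fun y => y.1.2) C` by
`cm_ini`).  Finally `S` = everything (`Fintype.ofFinite`) and `her`. -/
theorem q_ini {Q : ∀ ι : Type, Str R ar ι → Prop} (hQ : FAC Q) [Finite β] (C : Str R ar (Fin n))
    (hC : Q (Fin n) C) (hne : ∃ h, H h) : Q (Ini H) (iniS H C) := by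
  classical
  have hfin : Finite {h : Fin n → β // H h} := inferInstance
  have hft : Fintype {h : Fin n → β // H h} := Fintype.ofFinite _
  have h1 := q_ini_aux hQ C hC hne Finset.univ
  have h2 := hQ.her {y : Ini H // y.1 ∈ (Finset.univ : Finset {h : Fin n → β // H h})} (Ini H)
    (fun y => ⟨y, Finset.mem_univ _⟩) _ (fun y z hyz => congrArg Subtype.val hyz) h1
  exact h2

end Pool.Agent.Lib.H3F
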