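import Pool.Agent.Lib.H3F.R9
import Pool.Agent.Lib.H3F.R10

/-! # R11: from systems to ordered structures (a) -/

set_option autoImplicit false

namespace Pool.Agent.Lib.H3F

variable {R : Type} {ar : R → Type}

/-- Proof. Take any numbering `e : α ≃ Fin N'` (`Finite.equivFin`) and sort by `(π x, e x)` lexicographically: e.g. the linear
order on `α` lifted along `x ↦ toLex (π x, e x)` (`LinearOrder.lift'`) and `Fintype.orderIsoFinOfCardEq` /
`monoEquivOfFin`.  Or by induction.  The required property: `π x < π y` implies `x` comes before `y`. -/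
theorem ord_exists {N : ℕ} (α : Type) [Finite α] (π : α → Fin N) :
    ∃ (N' : ℕ) (σ : Fin N' ≃ α), ∀ x y, π (σ x) < π (σ y) → x < y := by
  classical
  have hF : Fintype α := Fintype.ofFinite α
  let e : α ≃ Fin (Fintype.card α) := Fintype.equivFin α
  let g : α → Fin N ×ₗ Fin (Fintype.card α) := fun x => toLex (π x, e x)
  have hg : Function.Injective g := by
    intro x y h
    have h1 : (π x, e x) = (π y, e y) := toLex.injective h
    exact e.injective (Prod.mk.inj h1).2
  let _ : LinearOrder α := LinearOrder.lift' g hg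
  refine ⟨Fintype.card α, (Fintype.orderIsoFinOfCardEq α rfl).toEquiv, fun x y h => ?_⟩
  have h1 : g ((Fintype.orderIsoFinOfCardEq α rfl) x) <
      g ((Fintype.orderIsoFinOfCardEq α rfl) y) := by
    rw [Prod.Lex.lt_iff]
    exact Or.inl h
  have h2 : (Fintype.orderIsoFinOfCardEq α rfl) x < (Fintype.orderIsoFinOfCardEq α rfl) y := h1
  exact (Fintype.orderIsoFinOfCardEq α rfl).lt_iff_lt.1 h2

end Pool.Agent.Lib.H3F
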