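import Pool.Agent.Lib.H3F.R9
import Pool.Agent.Lib.H3F.R10
import Pool.Agent.Lib.H3F.R11a

/-! # R11: from systems to ordered structures (b) -/

set_option autoImplicit false

namespace Pool.Agent.Lib.H3F

variable {R : Type} {ar : R → Type}

/-- **From systems to ordered structures.**

Proof. `iter_step` for the list of all `f` with `Hf f` (`Set.toFinite`, `Set.Finite.toFinset.toList`; classical) starting from
`(Ini H, iniS H C, inip H)` (`finite_ini`) gives `(α', P', π')`.  `ord_exists` for `π'` gives `σ : Fin N' ≃ α'`.  Take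
`D = cm σ P'` and the projection `fun x => π' (σ x)`; `I` by `hI`.  Let `χ` be a colouring of `Fin k → Fin N'`.  Apply the
property of `iter_step` to the colouring `e ↦ χ (fun p => σ.symm (e p))` and get `ψ`, and colours `c f` for `f` in the list
(choose; any colour for the other `f`).  `hb` for the colouring `c` gives `h` with `H h` and a colour `c₀`.  Put
`h' x = σ.symm (ψ (⟨h, _⟩, x))`.  It is strictly monotone: for `x < y`, `π' (σ (h' x)) = inip _ (⟨h,_⟩, x) = h x < h y`
(`hH`), so `h' x < h' y` by the property of `σ`.  `cm h' D = cm (fun x => (⟨h, _⟩, x)) (cm ψ P') = C` by `cm_ini`.  For `g`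
strictly monotone with `cm g C = X`: `f = fun i => h (g i)` satisfies `Hf f` (`hHf`), the map `e i = (⟨h, _⟩, g i)` is over `f`
and `cm e (iniS H C) = cm g C = X`, so `χ (fun i => h' (g i)) = c f = c₀`. -/
theorem fin_step {n k N r : ℕ} (X : Str R ar (Fin k)) (C : Str R ar (Fin n))
    (I : ∀ α : Type, Str R ar α → (α → Fin N) → Prop)
    (H : (Fin n → Fin N) → Prop) (Hf : (Fin k → Fin N) → Prop)
    (hI : ∀ (α α' : Type) (σ : α' ≃ α) (P : Str R ar α) (π : α → Fin N), I α P π →
      I α' (cm σ P) (fun x => π (σ x)))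
    (hH : ∀ h, H h → StrictMono h)
    (hHf : ∀ (h : Fin n → Fin N) (g : Fin k → Fin n), H h → StrictMono g → cm g C = X →
      Hf (fun i => h (g i)))
    (hb : ∀ χ : (Fin k → Fin N) → Fin (r + 1), ∃ h, H h ∧ ∃ c, ∀ g : Fin k → Fin n,
      StrictMono g → cm g C = X → χ (fun i => h (g i)) = c)
    (h0 : I (Ini H) (iniS H C) (inip H))
    (hs : ∀ (α : Type) [Finite α] (P : Str R ar α) (π : α → Fin N) (f : Fin k → Fin N),
      Hf f → I α P π →
      ∃ (α' : Type) (_ : Finite α') (P' : Str R ar α') (π' : α' → Fin N), I α' P' π' ∧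
        Stp P π P' π' f X r) :
    ∃ (N' : ℕ) (D : Str R ar (Fin N')) (π' : Fin N' → Fin N), I (Fin N') D π' ∧
      Arr X C D r := by
  classical
  have hfin : {f : Fin k → Fin N | Hf f}.Finite := Set.toFinite _
  have hfs : ∀ f, f ∈ hfin.toFinset.toList ↔ Hf f := by
    intro f
    rw [Finset.mem_toList, Set.Finite.mem_toFinset]
    exact Iff.rfl
  have hfi : Finite (Ini H) := finite_ini
  obtain ⟨α', hα', P', π', hI', hcol⟩ := iter_step X r Hf I hs hfin.toFinset.toList
    (fun f hf => (hfs f).1 hf) (Ini H) (iniS H C) (inip H) h0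
  obtain ⟨N', σ, hσ⟩ := ord_exists α' π'
  refine ⟨N', cm σ P', fun x => π' (σ x), hI _ _ σ _ _ hI', ?_⟩
  intro χ
  obtain ⟨ψ, _, hπ, hcm, hc⟩ := hcol (fun e => χ (fun p => σ.symm (e p)))
  choose! c hc using hc
  obtain ⟨h, hh, c₀, hc₀⟩ := hb c
  let y : Fin n → Ini H := fun x => ((⟨h, hh⟩ : {h : Fin n → Fin N // H h}), x)
  refine ⟨fun x => σ.symm (ψ (y x)), ?_, ?_, c₀, ?_⟩
  · intro x x' hxy
    apply hσ
    rw [σ.apply_symm_apply, σ.apply_symm_apply, hπ, hπ]
    exact hH h hh hxy
  · have e1 : cm (fun x => σ.symm (ψ (y x))) (cm σ P') = cm y (cm ψ P') := by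
      funext r t
      show P' r (fun i => σ (σ.symm (ψ (y (t i))))) = P' r (fun i => ψ (y (t i)))
      simp only [Equiv.apply_symm_apply]
    rw [e1, hcm]
    exact cm_ini C ⟨h, hh⟩
  · intro g hg hX
    have hf : Hf (fun i => h (g i)) := hHf h g hh hg hX
    have h2 : cm (fun i => y (g i)) (iniS H C) = X := by
      have h3 : cm (fun i => y (g i)) (iniS H C) = cm g (cm y (iniS H C)) := rfl
      rw [h3]
      have h4 : cm y (iniS H C) = C := cm_ini C ⟨h, hh⟩
      rw [h4, hX]
    exact (hc _ ((hfs _).2 hf) (fun i => y (g i)) (fun p => rfl) h2).trans (hc₀ g hg hX)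

end Pool.Agent.Lib.H3F
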