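import Pool.Agent.Lib.H3F.R3

/-! # R4: the arrow of the partite step (a) -/

set_option autoImplicit false

namespace Pool.Agent.Lib.H3F

open Combinatorics

variable {R : Type} {ar : R → Type} {α β : Type} {k : ℕ} {P : Str R ar α} {π : α → β}
  {f : Fin k → β} {X : Str R ar (Fin k)} {J : Type}

/-- Proof. Injection into `Fin k → α` (`Subtype.finite` after unfolding `Cop`). -/
theorem finite_cop [Finite α] : Finite (Cop P π f X) := by
  unfold Cop
  infer_instance

/-- Proof. Subtype of `J → α`. -/
theorem finite_cor [Finite α] [Finite J] : Finite (Cor π f J) := by
  unfold Cor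
  infer_instance

/-- Proof. `finite_cor`; `Line` injects into `J → Option (Cop P π f X)` by `Line.idxFun`
(`Finite.of_injective`), `finite_cop`; sum and product of finite types. -/
theorem finite_pts [Finite α] [Finite J] : Finite (Pts P π f X J) := by
  have h1 : Finite (Cop P π f X) := finite_cop
  have h2 : Finite (Cor π f J) := finite_cor
  have h3 : Finite (Line (Cop P π f X) J) := by
    refine Finite.of_injective (fun L : Line (Cop P π f X) J => L.idxFun) fun L L' h => ?_
    cases L
    cases L'
    simp only at h
    subst h
    rfl
  have h4 : Finite (Rest π f) := by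
    unfold Rest
    infer_instance
  unfold Pts
  infer_instance

end Pool.Agent.Lib.H3F
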