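import Pool.Agent.Lib.H3F.R3
import Pool.Agent.Lib.H3F.R4a

/-! # R4: the arrow of the partite step (b) -/

set_option autoImplicit false

namespace Pool.Agent.Lib.H3F

open Combinatorics

variable {R : Type} {ar : R → Type} {α β : Type} {k : ℕ} {P : Str R ar α} {π : α → β}
  {f : Fin k → β} {X : Str R ar (Fin k)} {J : Type}

/-- **The arrow of the partite step.**

Proof. Colour `w : J → Cop P π f X` by `χ (fun p => Sum.inl ⟨fun l => (w l).1 p, p, fun l => (w l).2.1 p⟩)`; `hJ` gives a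
monochromatic line `L` (`Line.IsMono`: `∃ c, ∀ x, C (L x) = c`).  For a copy `e` (an element of `Cop`) the point
`psi L (e p)` is `Sum.inl ⟨lm L (e p) p, …⟩` (`psi_over`), and `lm L (e p) p l = ((L ⟨e, _⟩) l).1 p` for all `l`
(`L x l = (L.idxFun l).getD x`, `Line.apply_def`), so the colour of `fun p => psi L (e p)` is the one of the point
`L ⟨e, _⟩`. -/
theorem step_arrow (hf : Function.Injective f) (r : ℕ)
    (hJ : ∀ C : (J → Cop P π f X) → Fin (r + 1), ∃ L : Line (Cop P π f X) J, L.IsMono C)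
    (χ : (Fin k → Pts P π f X J) → Fin (r + 1)) :
    ∃ (L : Line (Cop P π f X) J) (c : Fin (r + 1)), ∀ e : Fin k → α, (∀ p, π (e p) = f p) →
      cm e P = X → χ (fun p => psi L (e p)) = c := by
  obtain ⟨L, c, hc⟩ := hJ (fun w => χ (fun p =>
    Sum.inl ⟨fun l => (w l).1 p, p, fun l => (w l).2.1 p⟩))
  refine ⟨L, c, fun e he hX => ?_⟩
  rw [← hc ⟨e, he, hX⟩]
  refine congrArg χ (funext fun p => ?_)
  rw [psi_over hf L (e p) p (he p)]
  refine congrArg Sum.inl (Subtype.ext ?_)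
  funext l
  show lm L (e p) p l = ((L ⟨e, he, hX⟩) l).1 p
  rcases hl : L.idxFun l with _ | e'
  · rw [lm_none L (e p) p l hl, Line.apply_none L ⟨e, he, hX⟩ l hl]
  · rw [lm_some L (e p) p l e' hl, Line.apply_def]
    show e'.1 p = ((L.idxFun l).getD ⟨e, he, hX⟩).1 p
    rw [hl]
    rfl

end Pool.Agent.Lib.H3F
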