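import Pool.Agent.Lib.H3F.R3
import Pool.Agent.Lib.H3F.R4a
import Pool.Agent.Lib.H3F.R4b

/-! # R4: the arrow of the partite step (c) -/

set_option autoImplicit false

namespace Pool.Agent.Lib.H3F

open Combinatorics

variable {R : Type} {ar : R → Type} {α β : Type} {k : ℕ} {P : Str R ar α} {π : α → β}
  {f : Fin k → β} {X : Str R ar (Fin k)} {J : Type}

/-- The partite step in one statement; `J` is nonempty.

Proof. `Line.exists_mono_in_high_dimension` (Mathlib) for the finite types `Cop P π f X` (`finite_cop`) and `Fin (r + 1)` gives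
`J` with `Fintype J`; there is a line (for a constant colouring), hence `J` is nonempty (`Line.proper`).  For a colouring take
`L` of `step_arrow` and `ψ = psi L`: `psi_inj`, `ptsp_psi`, `cm_psi`. -/
theorem step_exists [Finite α] (P : Str R ar α) (π : α → β) (f : Fin k → β)
    (hf : Function.Injective f) (X : Str R ar (Fin k)) (r : ℕ) :
    ∃ J : Type, Nonempty J ∧ Finite J ∧
      Stp P π (ptsS P π f X J) (ptsp P π f X J) f X r := by
  have hfc : Finite (Cop P π f X) := finite_cop
  obtain ⟨J, hfin, hJ⟩ := Line.exists_mono_in_high_dimension (Cop P π f X) (Fin (r + 1))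
  obtain ⟨L0, -⟩ := hJ fun _ => 0
  obtain ⟨l0, -⟩ := L0.proper
  refine ⟨J, ⟨l0⟩, Finite.of_fintype J, fun χ => ?_⟩
  obtain ⟨L, c, hc⟩ := step_arrow hf r hJ χ
  exact ⟨psi L, psi_inj hf L, fun x => ptsp_psi hf L x, cm_psi hf L, c, hc⟩

end Pool.Agent.Lib.H3F
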