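import Pool.Agent.Lib.H3F.R2

/-! # R5: the power, for systems over a structure (a) -/

set_option autoImplicit false

namespace Pool.Agent.Lib.H3F

open Combinatorics

variable {R : Type} {ar : R → Type} {α β : Type} {k : ℕ} {P : Str R ar α} {π : α → β}
  {f : Fin k → β} {X : Str R ar (Fin k)} {J : Type}

/-- A relation tuple is projected to a relation tuple.

Proof. The set `F` of the points `t i` is irreducible (`t` itself is a common tuple of any two of its points), so `h F`
applies to the tuple `t`. -/
theorem he_tuple {D : Str R ar β} (h : HE P π D) (r : R) (t : ar r → α) (ht : P r t) :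
    D r (fun i => π (t i)) := by
  have hirr : Irr P (Set.range t) := by
    intro x hx y hy _
    exact ⟨r, t, ht, fun i => Set.mem_range_self i, hx, hy⟩
  exact ((h (Set.range t) hirr).2 r t (fun i => Set.mem_range_self i)).1 ht

/-- **The relations of the power**: all coordinates are relation tuples.

Proof. If `X r (fun i => (t i).prt)` fails then the right disjunct of `corS` gives `l` with `P r (fun i => (t i).1 l)`, so
`D r (fun i => π ((t i).1 l))` by `he_tuple`, which is `D r (fun i => f (t i).prt)` (`Cor.prt_spec`), i.e.
`X r (fun i => (t i).prt)` by `hX`: contradiction. -/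
theorem corS_iff {D : Str R ar β} (h : HE P π D) (hX : cm f D = X) [Nonempty J] (r : R)
    (t : ar r → Cor π f J) :
    corS P π f X J r t ↔ ∀ l, P r (fun i => (t i).1 l) := by
  have key : ∀ l, P r (fun i => (t i).1 l) → X r (fun i => (t i).prt) := by
    intro l hl
    have h1 := he_tuple h r _ hl
    have h2 : (fun i => π ((t i).1 l)) = fun i => f (t i).prt := by
      funext i
      exact Cor.prt_spec (t i) l
    rw [h2] at h1
    rw [← hX]
    exact h1
  constructor
  · rintro (⟨_, h2⟩ | ⟨h1, l, h2⟩)
    · exact h2
    · exact absurd (key l h2) h1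
  · intro hall
    obtain ⟨l0⟩ := (inferInstance : Nonempty J)
    exact Or.inl ⟨key l0 (hall l0), hall⟩

end Pool.Agent.Lib.H3F
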