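import Pool.Agent.Lib.H3F.R2
import Pool.Agent.Lib.H3F.R5a

/-! # R5: the power, for systems over a structure (b) -/

set_option autoImplicit false

namespace Pool.Agent.Lib.H3F

open Combinatorics

variable {R : Type} {ar : R → Type} {α β : Type} {k : ℕ} {P : Str R ar α} {π : α → β}
  {f : Fin k → β} {X : Str R ar (Fin k)} {J : Type}

/-- **The power is over `D`.**

Proof. Let `F` be an irreducible set of the power.  For every `l : J` the set `F l = {v.1 l | v ∈ F}` is irreducible for `P`: for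
`v.1 l ≠ w.1 l` a common tuple `t` of `v`, `w` in `F` gives the common tuple `fun i => (t i).1 l` (`corS_iff`).  So `h (F l)`.
Injectivity: for `v ≠ w` in `F` with `f v.prt = f w.prt`: for every `l`, `π (v.1 l) = π (w.1 l)` (`Cor.prt_spec`), so
`v.1 l = w.1 l` by the injectivity of `π` on `F l`, so `v = w` (`Subtype.ext`, `funext`).  Relations: for `t` in `F`, `corS_iff` and
`(h (F l)).2`: `P r (fun i => (t i).1 l) ↔ D r (fun i => π ((t i).1 l))`, which is `D r (fun i => f (t i).prt)` for every `l`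
(`J` is nonempty). -/
theorem he_cor {D : Str R ar β} (h : HE P π D) (hX : cm f D = X) [Nonempty J] :
    HE (corS P π f X J) (fun v : Cor π f J => f v.prt) D := by
  intro F hF
  have hirr : ∀ l : J, Irr P {x | ∃ v ∈ F, v.1 l = x} := by
    rintro l x ⟨v, hv, rfl⟩ y ⟨w, hw, rfl⟩ hne
    have hvw : v ≠ w := fun h0 => hne (by rw [h0])
    obtain ⟨r, t, ht, htF, ⟨i, hi⟩, j, hj⟩ := hF v hv w hw hvw
    have h1 := (corS_iff h hX r t).1 ht l
    exact ⟨r, fun i => (t i).1 l, h1, fun i => ⟨t i, htF i, rfl⟩, ⟨i, congrArg (fun z : Cor π f J => z.1 l) hi⟩, j,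
      congrArg (fun z : Cor π f J => z.1 l) hj⟩
  have hpr : ∀ (r : R) (t : ar r → Cor π f J) (l : J),
      (fun i => π ((t i).1 l)) = fun i => f (t i).prt := by
    intro r t l
    funext i
    exact (t i).prt_spec l
  refine ⟨?_, ?_⟩
  · intro v hv w hw hvw
    apply Subtype.ext
    funext l
    apply (h _ (hirr l)).1 ⟨v, hv, rfl⟩ ⟨w, hw, rfl⟩
    rw [v.prt_spec l, w.prt_spec l]
    exact hvw
  · intro r t htF
    rw [corS_iff h hX r t]
    constructor
    · intro h1
      obtain ⟨l⟩ := (inferInstance : Nonempty J)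
      have h2 := ((h _ (hirr l)).2 r (fun i => (t i).1 l) (fun i => ⟨t i, htF i, rfl⟩)).1 (h1 l)
      rw [hpr r t l] at h2
      exact h2
    · intro h1 l
      apply ((h _ (hirr l)).2 r (fun i => (t i).1 l) (fun i => ⟨t i, htF i, rfl⟩)).2
      rw [hpr r t l]
      exact h1

end Pool.Agent.Lib.H3F
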