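import Pool.Agent.Lib.H3F.R5a
import Pool.Agent.Lib.H3F.R5b

/-! # R5: the power, for systems over a structure (all parts) -/
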