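import Pool.Agent.Lib.H3F.R3
import Pool.Agent.Lib.H3F.R5

/-! # R7: the new system is over `D` -/

set_option autoImplicit false

namespace Pool.Agent.Lib.H3F

open Combinatorics

variable {R : Type} {ar : R → Type} {α β : Type} {k : ℕ} {P : Str R ar α} {π : α → β}
  {f : Fin k → β} {X : Str R ar (Fin k)} {J : Type}

/-- **The new system is over `D`.**

Proof. Let `F` be irreducible for `ptsS`.  Case 1: all points of `F` are in the power: `F = Sum.inl '' F'` and `F'` is
irreducible for `corS` (`ptsS_power`), so `he_cor`.  Case 2: `Sum.inr (L, y) ∈ F`.  Every `z ∈ F` is `psi L x` for some `x`: for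
`z ≠ Sum.inr (L, y)` a common tuple and `ptsS_copy`; for `z = Sum.inr (L, y)` itself `psi_rest`.  Let `F' = {x | psi L x ∈ F}`; it is
irreducible for `P`: a common tuple `t` in `F` of `psi L x` and `psi L x'` is `fun i => psi L (t2 i)` (all its points are in `F`,
choose preimages; then `cm_psi` gives `P r t2`; `psi_inj`).  `h F'` gives the claim with `ptsp_psi`, `cm_psi`, `psi_inj`. -/
theorem he_pts (hf : Function.Injective f) {D : Str R ar β} (h : HE P π D) (hX : cm f D = X)
    [Nonempty J] : HE (ptsS P π f X J) (ptsp P π f X J) D := by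
  intro F hF
  by_cases hc : ∃ (L : Line (Cop P π f X) J) (y : Rest π f), (Sum.inr (L, y) : Pts P π f X J) ∈ F
  · obtain ⟨L, y, hy⟩ := hc
    have hz : ∀ z ∈ F, ∃ x, z = psi L x := by
      intro z hz
      by_cases hzy : z = Sum.inr (L, y)
      · exact ⟨y.1, by rw [hzy, psi_rest L y.1 y.2]; rfl⟩
      · obtain ⟨r, t, ht, htF, ⟨i, hi⟩, ⟨j, hj⟩⟩ := hF z hz _ hy hzy
        obtain ⟨t2, ht2, -⟩ := ptsS_copy hf L y r t ht j hj
        exact ⟨t2 i, by rw [← ht2 i, hi]⟩
    have key : ∀ (r : R) (t2 : ar r → α),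
        ptsS P π f X J r (fun i => psi L (t2 i)) ↔ P r t2 := by
      intro r t2
      have h1 := congrFun (congrFun (cm_psi (P := P) (π := π) (X := X) hf L) r) t2
      exact Iff.of_eq h1
    have hF' : Irr P {x | psi L x ∈ F} := by
      intro x hx x' hx' hne
      obtain ⟨r, t, ht, htF, ⟨i, hi⟩, ⟨j, hj⟩⟩ :=
        hF (psi L x) hx (psi L x') hx' (fun e => hne (psi_inj hf L e))
      choose t2 ht2 using fun i => hz (t i) (htF i)
      have e1 : t = fun i => psi L (t2 i) := funext ht2
      refine ⟨r, t2, ?_, fun i => ?_, ⟨i, psi_inj hf L ?_⟩, ⟨j, psi_inj hf L ?_⟩⟩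
      · rw [e1] at ht
        exact (key r t2).1 ht
      · show psi L (t2 i) ∈ F
        rw [← ht2 i]
        exact htF i
      · rw [← ht2 i, hi]
      · rw [← ht2 j, hj]
    obtain ⟨h1, h2⟩ := h _ hF'
    constructor
    · intro z hz1 w hw1 e
      obtain ⟨x, rfl⟩ := hz z hz1
      obtain ⟨x', rfl⟩ := hz w hw1
      rw [ptsp_psi hf, ptsp_psi hf] at e
      rw [h1 hz1 hw1 e]
    · intro r t ht
      choose t2 ht2 using fun i => hz (t i) (ht i)
      have e1 : t = fun i => psi L (t2 i) := funext ht2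
      have h3 := h2 r t2 (fun i => by
        show psi L (t2 i) ∈ F
        rw [← ht2 i]
        exact ht i)
      have e2 : (fun i => ptsp P π f X J (t i)) = fun i => π (t2 i) := by
        funext i
        rw [ht2 i, ptsp_psi hf]
      rw [e2, e1, key r t2]
      exact h3
  · have hz : ∀ z ∈ F, ∃ v : Cor π f J, z = Sum.inl v := by
      rintro (v | ⟨L, y⟩) hz
      · exact ⟨v, rfl⟩
      · exact absurd ⟨L, y, hz⟩ hc
    have hF' : Irr (corS P π f X J) {v : Cor π f J | (Sum.inl v : Pts P π f X J) ∈ F} := by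
      intro x hx x' hx' hne
      obtain ⟨r, t, ht, htF, ⟨i, hi⟩, ⟨j, hj⟩⟩ :=
        hF (Sum.inl x) hx (Sum.inl x') hx' (fun e => hne (Sum.inl_injective e))
      choose t2 ht2 using fun i => hz (t i) (htF i)
      have e1 : t = fun i => Sum.inl (t2 i) := funext ht2
      refine ⟨r, t2, ?_, fun i => ?_, ⟨i, Sum.inl_injective (β := Line (Cop P π f X) J × Rest π f) ?_⟩,
        ⟨j, Sum.inl_injective (β := Line (Cop P π f X) J × Rest π f) ?_⟩⟩
      · rw [e1] at ht
        exact (ptsS_power r t2).1 ht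
      · show (Sum.inl (t2 i) : Pts P π f X J) ∈ F
        rw [← ht2 i]
        exact htF i
      · rw [← hi]
        exact (ht2 i).symm
      · rw [← hj]
        exact (ht2 j).symm
    obtain ⟨h1, h2⟩ := he_cor h hX (J := J) _ hF'
    constructor
    · intro z hz1 w hw1 e
      obtain ⟨x, rfl⟩ := hz z hz1
      obtain ⟨x', rfl⟩ := hz w hw1
      rw [h1 hz1 hw1 e]
    · intro r t ht
      choose t2 ht2 using fun i => hz (t i) (ht i)
      have e1 : t = fun i => Sum.inl (t2 i) := funext ht2
      have h3 := h2 r t2 (fun i => by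
        show (Sum.inl (t2 i) : Pts P π f X J) ∈ F
        rw [← ht2 i]
        exact ht i)
      have e2 : (fun i => ptsp P π f X J (t i)) = fun i => f (t2 i).prt := by
        funext i
        rw [ht2 i]
        rfl
      rw [e2, e1, ptsS_power r t2]
      exact h3

end Pool.Agent.Lib.H3F
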