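import Pool.Agent.Lib.H3F.R6

/-! # R8: the new system is in the class -/

set_option autoImplicit false

namespace Pool.Agent.Lib.H3F

open Combinatorics

variable {R : Type} {ar : R → Type} {α β : Type} {k : ℕ} {P : Str R ar α} {π : α → β}
  {f : Fin k → β} {X : Str R ar (Fin k)} {J : Type}

/-- **The new system is in the class.**

Proof. Let `W 𝓛` (`𝓛` a finite set of lines) be the set of the points `Sum.inl v` and `Sum.inr (L, y)` with `L ∈ 𝓛`.  Claim:
`Q (W 𝓛) (cm Subtype.val ptsS)`, by induction on `𝓛` (`Finset.induction_on`, classical).  For `∅`: all points are in the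
power; `q_cor` and `her` along the map `W ∅ → Cor` (`ptsS_power` gives the equality of the structures).  For
`insert L 𝓛`: `hQ.am` on the type `W (insert L 𝓛)` with `X' = {w | w.1 ∈ W 𝓛}` and `Y' = {w | ∃ x, w.1 = psi L x}`: they cover
(`psi_rest`); a relation tuple with a point outside `X'` has a point `Sum.inr (L, y)`, so it lies in `Y'` by `ptsS_copy`;
`Q X' _` by `her` from the induction hypothesis; `Q Y' _` by `her` from `hQP` along a choice `w ↦ x` (`psi_inj`, `cm_psi`: the
structure is `cm x P`).  Finally `𝓛` = all lines (a finite type, see `finite_pts`; `Set.Finite.toFinset` or `Fintype.ofFinite`)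
and `her` along `w ↦ ⟨w, _⟩`. -/
theorem q_pts {Q : ∀ ι : Type, Str R ar ι → Prop} (hQ : FAC Q) [Finite α] [Finite J] [Nonempty J]
    (hf : Function.Injective f) {D : Str R ar β} (h : HE P π D) (hX : cm f D = X)
    (hQX : Q (Fin k) X) (hQP : Q α P) :
    Q (Pts P π f X J) (ptsS P π f X J) := by
  classical
  have hc : Finite (Cop P π f X) := finite_cop
  have hl : Finite (Line (Cop P π f X) J) :=
    Finite.of_injective (fun L : Line (Cop P π f X) J => L.idxFun) (fun L L' h => by
      cases L
      cases L'
      simpa using h)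
  have hp : Finite (Pts P π f X J) := finite_pts
  let W : Finset (Line (Cop P π f X) J) → Set (Pts P π f X J) := fun 𝓛 =>
    {z | ∀ (L : Line (Cop P π f X) J) (y : Rest π f), z = Sum.inr (L, y) → L ∈ 𝓛}
  have key : ∀ 𝓛 : Finset (Line (Cop P π f X) J),
      Q (W 𝓛) (cm Subtype.val (ptsS P π f X J)) := by
    intro 𝓛
    refine Finset.induction_on 𝓛 ?_ ?_
    · have h1 : ∀ z : W ∅, ∃ v : Cor π f J, z.1 = Sum.inl v := by
        rintro ⟨v | ⟨L, y⟩, hz⟩
        · exact ⟨v, rfl⟩
        · exact absurd (hz L y rfl) (Finset.notMem_empty L)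
      choose e he using h1
      have h2 : cm Subtype.val (ptsS P π f X J) = cm e (corS P π f X J) := by
        funext r t
        have h3 : (fun i => (t i).1) = fun i => (Sum.inl (e (t i)) : Pts P π f X J) :=
          funext fun i => he (t i)
        show ptsS P π f X J r (fun i => (t i).1) = corS P π f X J r (fun i => e (t i))
        rw [h3]
        exact propext (ptsS_power r (fun i => e (t i)))
      rw [h2]
      refine hQ.her _ _ e _ (fun z w hzw => Subtype.ext ?_) (q_cor hQ h hX hQX)
      rw [he z, he w, hzw]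
    · intro L 𝓛 _ ih
      have hnot : ∀ w : W (insert L 𝓛), w.1 ∉ W 𝓛 →
          ∃ y : Rest π f, w.1 = Sum.inr (L, y) := by
        intro w hw
        have hw' : ¬ ∀ (L' : Line (Cop P π f X) J) (y : Rest π f),
            w.1 = Sum.inr (L', y) → L' ∈ 𝓛 := hw
        push Not at hw'
        obtain ⟨L', y, hy, hL'⟩ := hw'
        have h4 := w.2 L' y hy
        rcases Finset.mem_insert.1 h4 with h5 | h5
        · exact ⟨y, by rw [hy, h5]⟩
        · exact absurd h5 hL'
      refine hQ.am _ _ {w | w.1 ∈ W 𝓛} {w | ∃ x, w.1 = psi L x} ?_ ?_ ?_ ?_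
      · intro w
        by_cases hw : w.1 ∈ W 𝓛
        · exact Or.inl hw
        · obtain ⟨y, hy⟩ := hnot w hw
          exact Or.inr ⟨y.1, by rw [hy, psi_rest L y.1 y.2]; rfl⟩
      · intro r t ht
        by_cases hall : ∀ i, (t i).1 ∈ W 𝓛
        · exact Or.inl hall
        · push Not at hall
          obtain ⟨i, hi⟩ := hall
          obtain ⟨y, hy⟩ := hnot (t i) hi
          obtain ⟨t2, ht2, -⟩ := ptsS_copy hf L y r (fun j => (t j).1) ht i hy
          exact Or.inr fun j => ⟨t2 j, ht2 j⟩
      · exact hQ.her _ _ (fun w : {w : W (insert L 𝓛) | w.1 ∈ W 𝓛} => (⟨w.1.1, w.2⟩ : W 𝓛))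
          (cm Subtype.val (ptsS P π f X J))
          (fun w w' hww => Subtype.ext (Subtype.ext (congrArg (fun z : W 𝓛 => z.1) hww))) ih
      · have h1 : ∀ w : {w : W (insert L 𝓛) | ∃ x, w.1 = psi L x}, ∃ x, w.1.1 = psi L x :=
          fun w => w.2
        choose e he using h1
        have h2 : cm Subtype.val (cm Subtype.val (ptsS P π f X J)) = cm e P := by
          funext r t
          have h3 : (fun i => (t i).1.1) = fun i => psi L (e (t i)) := funext fun i => he (t i)
          show ptsS P π f X J r (fun i => (t i).1.1) = P r (fun i => e (t i))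
          rw [h3]
          exact congrFun (congrFun (cm_psi (P := P) (π := π) (X := X) hf L) r) (fun i => e (t i))
        rw [h2]
        refine hQ.her _ _ e _ (fun z w hzw => Subtype.ext (Subtype.ext ?_)) hQP
        rw [he z, he w, hzw]
  have hfl : Fintype (Line (Cop P π f X) J) := Fintype.ofFinite _
  exact hQ.her _ _ (fun w : Pts P π f X J =>
    (⟨w, fun L _ _ => Finset.mem_univ L⟩ : W Finset.univ)) (cm Subtype.val (ptsS P π f X J))
    (fun w w' hww => congrArg (fun z : W Finset.univ => z.1) hww) (key Finset.univ)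

end Pool.Agent.Lib.H3F
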