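import Pool.Agent.Lib.H3F.R1
import Pool.Agent.Lib.H3F.R4
import Pool.Agent.Lib.H3F.R7
import Pool.Agent.Lib.H3F.R8
import Pool.Agent.Lib.H3F.R11

/-! # R12: the Ramsey theorem for ordered structures (a) -/

set_option autoImplicit false

namespace Pool.Agent.Lib.H3F

variable {R : Type} {ar : R → Type}

/-- **The class of all finite ordered structures is a Ramsey class.**

Proof. `ramsey k n r` gives `N`.  `fin_step` with `I = True`, `H h = StrictMono h`, `Hf f = StrictMono f`; `hb` is the property of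
`N`; `hs` is `step_exists` with `finite_pts` (`StrictMono.injective`). -/
theorem ram_all {k n : ℕ} (X : Str R ar (Fin k)) (C : Str R ar (Fin n)) (r : ℕ) :
    ∃ (N : ℕ) (D : Str R ar (Fin N)), Arr X C D r := by
  obtain ⟨N, hN⟩ := ramsey k n r
  obtain ⟨N', D, _, _, hD⟩ := fin_step (N := N) (r := r) X C (fun _ _ _ => True)
    (fun h => StrictMono h) (fun f => StrictMono f) (fun _ _ _ _ _ _ => trivial) (fun _ hh => hh)
    (fun h g hh hg _ => hh.comp hg)
    (fun χ => by
      obtain ⟨h, hh, c, hc⟩ := hN χ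
      exact ⟨h, hh, c, fun g hg _ => hc g hg⟩)
    trivial
    (fun α _ P π f hf _ => by
      obtain ⟨J, _, hJ2, hJ⟩ := step_exists P π f hf.injective X r
      exact ⟨Pts P π f X J, finite_pts, ptsS P π f X J, ptsp P π f X J, trivial, hJ⟩)
  exact ⟨N', D, hD⟩

end Pool.Agent.Lib.H3F
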