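import Pool.Agent.Lib.H3F.R1
import Pool.Agent.Lib.H3F.R4
import Pool.Agent.Lib.H3F.R7
import Pool.Agent.Lib.H3F.R8
import Pool.Agent.Lib.H3F.R11
import Pool.Agent.Lib.H3F.R12a

/-! # R12: the Ramsey theorem for ordered structures (b) -/

set_option autoImplicit false

namespace Pool.Agent.Lib.H3F

variable {R : Type} {ar : R → Type}

/-- **Ramsey theorem for free amalgamation classes.**

Proof. If no strictly monotone `g` has `cm g C = X` take `D = C`, `h = id`.  Otherwise `Q (Fin k) X` (`hQ.her` along `g`).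
`ram_all` gives `N`, `D₀` with `Arr X C D₀ r`.  `fin_step` with `I α P π = Q α P ∧ HE P π D₀`,
`H h = StrictMono h ∧ cm h D₀ = C`, `Hf f = StrictMono f ∧ cm f D₀ = X`.  `hHf`: `cm (h ∘ g) D₀ = cm g (cm h D₀)`.  `hb`: from
`Arr X C D₀ r`.  There is `h` with `H h` (apply the arrow to a constant colouring), so `h0` is `q_ini` and `he_ini`.  `hs`:
`step_exists`, `finite_pts`, `he_pts`, `q_pts`.  `hI`: `hQ.her` along `σ`, and `HE` is invariant: for `F` irreducible in `cm σ P`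
the image `σ '' F` is irreducible in `P`. -/
theorem ram_cls {Q : ∀ ι : Type, Str R ar ι → Prop} (hQ : FAC Q) {k n : ℕ}
    (X : Str R ar (Fin k)) (C : Str R ar (Fin n)) (hC : Q (Fin n) C) (r : ℕ) :
    ∃ (N : ℕ) (D : Str R ar (Fin N)), Q (Fin N) D ∧ Arr X C D r := by
  classical
  by_cases hg : ∃ g : Fin k → Fin n, StrictMono g ∧ cm g C = X
  swap
  · exact ⟨n, C, hC, fun χ => ⟨fun x => x, fun _ _ h => h, rfl, 0,
      fun g h1 h2 => absurd ⟨g, h1, h2⟩ hg⟩⟩
  obtain ⟨g₀, hg₀, hg₁⟩ := hg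
  have hQX : Q (Fin k) X := by
    rw [← hg₁]
    exact hQ.her _ _ g₀ C hg₀.injective hC
  obtain ⟨N, D₀, hD₀⟩ := ram_all X C r
  have hne : ∃ h : Fin n → Fin N, StrictMono h ∧ cm h D₀ = C := by
    obtain ⟨h, h1, h2, _⟩ := hD₀ fun _ => 0
    exact ⟨h, h1, h2⟩
  obtain ⟨N', D, _, hI, hD⟩ := fin_step (N := N) (r := r) X C (fun α P π => Q α P ∧ HE P π D₀)
    (fun h => StrictMono h ∧ cm h D₀ = C) (fun f => StrictMono f ∧ cm f D₀ = X)
    (by
      rintro α α' σ P π ⟨hQP, hHE⟩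
      refine ⟨hQ.her _ _ σ P σ.injective hQP, ?_⟩
      intro F hF
      have hF' : Irr P {x | σ.symm x ∈ F} := by
        intro x hx y hy hne
        obtain ⟨r, t, ht, htF, ⟨i, hi⟩, j, hj⟩ := hF _ hx _ hy
          (fun e => hne (σ.symm.injective e))
        refine ⟨r, fun i => σ (t i), ht, fun i => ?_, ⟨i, ?_⟩, j, ?_⟩
        · show σ.symm (σ (t i)) ∈ F
          rw [σ.symm_apply_apply]
          exact htF i
        · show σ (t i) = x
          rw [hi, σ.apply_symm_apply]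
        · show σ (t j) = y
          rw [hj, σ.apply_symm_apply]
      obtain ⟨h1, h2⟩ := hHE _ hF'
      refine ⟨fun x hx y hy e => ?_, fun r t ht => ?_⟩
      · apply σ.injective
        refine h1 ?_ ?_ e
        · show σ.symm (σ x) ∈ F
          rw [σ.symm_apply_apply]
          exact hx
        · show σ.symm (σ y) ∈ F
          rw [σ.symm_apply_apply]
          exact hy
      · refine h2 r (fun i => σ (t i)) fun i => ?_
        show σ.symm (σ (t i)) ∈ F
        rw [σ.symm_apply_apply]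
        exact ht i)
    (fun _ hh => hh.1)
    (fun h g hh hg hX => ⟨hh.1.comp hg, by
      have h1 : cm (fun i => h (g i)) D₀ = cm g (cm h D₀) := rfl
      rw [h1, hh.2, hX]⟩)
    (fun χ => by
      obtain ⟨h, h1, h2, c, hc⟩ := hD₀ χ
      exact ⟨h, ⟨h1, h2⟩, c, hc⟩)
    ⟨q_ini hQ C hC hne, he_ini C D₀ (fun h hh => ⟨hh.1.injective, hh.2⟩) hne⟩
    (fun α _ P π f hf hI => by
      obtain ⟨J, hJ1, hJ2, hJ⟩ := step_exists P π f hf.1.injective X r
      exact ⟨Pts P π f X J, finite_pts, ptsS P π f X J, ptsp P π f X J,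
        ⟨q_pts hQ hf.1.injective hI.2 hf.2 hQX hI.1, he_pts hf.1.injective hI.2 hf.2⟩, hJ⟩)
  exact ⟨N', D, hI.1, hD⟩

end Pool.Agent.Lib.H3F
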