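import Pool.Agent.Lib.H3F.R1
import Pool.Agent.Lib.H3F.R4
import Pool.Agent.Lib.H3F.R7
import Pool.Agent.Lib.H3F.R8
import Pool.Agent.Lib.H3F.R11
import Pool.Agent.Lib.H3F.R12a
import Pool.Agent.Lib.H3F.R12b

/-! # R12: the Ramsey theorem for ordered structures (c) -/

set_option autoImplicit false

namespace Pool.Agent.Lib.H3F

variable {R : Type} {ar : R → Type}

/-- The Ramsey theorem for several structures `X` at the same time.

Proof. Induction on the list `l`, for all `n` and `C`.  `[]`: `D = C`, `h = id`.  `p :: l`: `ram_cls` for `X = p.2` and `C` gives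
`D₁`, the induction hypothesis for `l` and `D₁` gives `D`.  For `χ` the induction hypothesis gives
`h₁ : Fin N₁ → Fin N`; apply `Arr p.2 C D₁ r` to the colouring `e ↦ χ p.1 (fun i => h₁ (e i))` and get `h₀`.  Take
`h = h₁ ∘ h₀`; for `q ∈ l` and `g` with `cm g C = q.2` the map `h₀ ∘ g` has `cm (h₀ ∘ g) D₁ = q.2`. -/
theorem ram_list {Q : ∀ ι : Type, Str R ar ι → Prop} (hQ : FAC Q) (r : ℕ)
    (l : List (Σ k : ℕ, Str R ar (Fin k))) : ∀ (n : ℕ) (C : Str R ar (Fin n)), Q (Fin n) C →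
    ∃ (N : ℕ) (D : Str R ar (Fin N)), Q (Fin N) D ∧
      ∀ χ : ∀ k : ℕ, (Fin k → Fin N) → Fin (r + 1), ∃ h : Fin n → Fin N, StrictMono h ∧
        cm h D = C ∧ ∀ p ∈ l, ∃ c, ∀ g : Fin p.1 → Fin n, StrictMono g → cm g C = p.2 →
          χ p.1 (fun i => h (g i)) = c := by
  induction l with
  | nil =>
    intro n C hC
    exact ⟨n, C, hC, fun χ => ⟨fun x => x, fun _ _ h => h, rfl, fun p hp =>
      absurd hp List.not_mem_nil⟩⟩
  | cons p l ih =>
    intro n C hC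
    obtain ⟨N₁, D₁, hD₁, hA⟩ := ram_cls hQ p.2 C hC r
    obtain ⟨N, D, hD, hχ⟩ := ih N₁ D₁ hD₁
    refine ⟨N, D, hD, fun χ => ?_⟩
    obtain ⟨h₁, hm₁, hc₁, hl₁⟩ := hχ χ
    obtain ⟨h₀, hm₀, hc₀, c₀, hl₀⟩ := hA fun e => χ p.1 (fun i => h₁ (e i))
    refine ⟨fun x => h₁ (h₀ x), hm₁.comp hm₀, ?_, ?_⟩
    · have h1 : cm (fun x => h₁ (h₀ x)) D = cm h₀ (cm h₁ D) := rfl
      rw [h1, hc₁, hc₀]
    · intro q hq
      rcases List.mem_cons.1 hq with rfl | hq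
      · exact ⟨c₀, fun g hg hgq => hl₀ g hg hgq⟩
      · obtain ⟨c, hc⟩ := hl₁ q hq
        refine ⟨c, fun g hg hgq => hc (fun i => h₀ (g i)) (hm₀.comp hg) ?_⟩
        have h1 : cm (fun i => h₀ (g i)) D₁ = cm g (cm h₀ D₁) := rfl
        rw [h1, hc₀, hgq]

end Pool.Agent.Lib.H3F
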