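import Pool.Agent.Lib.H3F.R1
import Pool.Agent.Lib.H3F.R4
import Pool.Agent.Lib.H3F.R7
import Pool.Agent.Lib.H3F.R8
import Pool.Agent.Lib.H3F.R11
import Pool.Agent.Lib.H3F.R12a
import Pool.Agent.Lib.H3F.R12b
import Pool.Agent.Lib.H3F.R12c

/-! # R12: the Ramsey theorem for ordered structures (d) -/

set_option autoImplicit false

namespace Pool.Agent.Lib.H3F

variable {R : Type} {ar : R → Type}

/-- **The Ramsey theorem for all copies with at most `d` points.**

Proof. `ram_list` for the list of all `⟨k, cm g C⟩` with `k ≤ d`, `g : Fin k → Fin n` (a finite list: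
`(List.range (d + 1)).flatMap …` with `Finset.univ.toList` of `Fin k → Fin n`). -/
theorem ram_multi {Q : ∀ ι : Type, Str R ar ι → Prop} (hQ : FAC Q) (d r : ℕ) (n : ℕ)
    (C : Str R ar (Fin n)) (hC : Q (Fin n) C) :
    ∃ (N : ℕ) (D : Str R ar (Fin N)), Q (Fin N) D ∧
      ∀ χ : ∀ k : ℕ, (Fin k → Fin N) → Fin (r + 1), ∃ h : Fin n → Fin N, StrictMono h ∧
        cm h D = C ∧ ∀ k ≤ d, ∀ g g' : Fin k → Fin n, StrictMono g → StrictMono g' →
          cm g C = cm g' C → χ k (fun i => h (g i)) = χ k (fun i => h (g' i)) := by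
  classical
  obtain ⟨N, D, hD, hχ⟩ := ram_list hQ r ((List.range (d + 1)).flatMap (fun k =>
    (Finset.univ : Finset (Fin k → Fin n)).toList.map
      (fun g => (⟨k, cm g C⟩ : Σ k : ℕ, Str R ar (Fin k))))) n C hC
  refine ⟨N, D, hD, fun χ => ?_⟩
  obtain ⟨h, hh, hcm, hc⟩ := hχ χ
  refine ⟨h, hh, hcm, ?_⟩
  intro k hk g g' hg hg' he
  have hmem : (⟨k, cm g C⟩ : Σ k : ℕ, Str R ar (Fin k)) ∈ ((List.range (d + 1)).flatMap (fun k =>
      (Finset.univ : Finset (Fin k → Fin n)).toList.map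
        (fun g => (⟨k, cm g C⟩ : Σ k : ℕ, Str R ar (Fin k))))) := by
    rw [List.mem_flatMap]
    refine ⟨k, List.mem_range.2 (by omega), ?_⟩
    rw [List.mem_map]
    exact ⟨g, Finset.mem_toList.2 (Finset.mem_univ g), rfl⟩
  obtain ⟨c, hc1⟩ := hc _ hmem
  rw [hc1 g hg rfl, hc1 g' hg' he.symm]

end Pool.Agent.Lib.H3F
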