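import Pool.Agent.Lib.H3F.R12a
import Pool.Agent.Lib.H3F.R12b
import Pool.Agent.Lib.H3F.R12c
import Pool.Agent.Lib.H3F.R12d

/-! # R12: the Ramsey theorem for ordered structures (all parts) -/
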