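import Pool.Agent.Lib.H3F.C1
import Pool.Agent.Lib.H3F.R12

/-! # C2: a permutation is canonical on some realisation -/

set_option autoImplicit false

namespace Pool.Agent.Lib.H3F

open Equiv

variable {R : Type} {ar : R → Type} [∀ r, Finite (ar r)] {κ : Type} {V : Type} {M : Str R ar V}

/-- **Every finite ordered structure over the constants has a realisation on which `g` is canonical.**

Proof. Colours: the type `Σ k : Fin (d + 1), Str R ar (Fin k ⊕ κ)` is finite and nonempty; let `r + 1` be its cardinality
(`Finite.equivFin`; or any injection into some `Fin (r + 1)`).  `ram_multi` for the class `Qc M c` (`Qc_fac`; signature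
`Rc R ar κ`, `arc R ar κ`) and `C` gives `N` and `D` in the class; let `b'` be a realisation of `D`.  The colour of
`f : Fin k → Fin N` is the structure `cm (Sum.elim (fun i => g (b' (f i))) (fun s => g (c s))) M` if `k ≤ d` and anything
otherwise.  It gives `h`; take `b = b' ∘ h`: `enc (cm (Sum.elim b c) M) = cm h D = C` by `enc_cm`; equal colours give equal
structures. -/
theorem can_one [Finite R] [Finite κ] (hM : HFA M) (c : κ → V) (hc : Function.Injective c)
    (g : Perm V) (d n : ℕ) (C : Str (Rc R ar κ) (arc R ar κ) (Fin n)) (hC : Qc M c (Fin n) C) :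
    ∃ b : Fin n → V, Function.Injective b ∧ (∀ u s, b u ≠ c s) ∧
      enc (cm (Sum.elim b c) M) = C ∧
      ∀ k ≤ d, ∀ f f' : Fin k → Fin n, StrictMono f → StrictMono f' → cm f C = cm f' C →
        cm (Sum.elim (fun i => g (b (f i))) (fun s => g (c s))) M =
          cm (Sum.elim (fun i => g (b (f' i))) (fun s => g (c s))) M := by
  classical
  haveI hfin : ∀ k : ℕ, Finite (Str R ar (Fin k ⊕ κ)) := fun k => by
    haveI : ∀ r : R, Finite ((ar r → Fin k ⊕ κ) → Prop) := fun r => inferInstance
    exact Pi.finite
  haveI hfs : Finite (Σ k : Fin (d + 1), Str R ar (Fin (k : ℕ) ⊕ κ)) := inferInstance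
  obtain ⟨m, ⟨em⟩⟩ := Finite.exists_equiv_fin (Σ k : Fin (d + 1), Str R ar (Fin (k : ℕ) ⊕ κ))
  obtain ⟨N, D, hD, hram⟩ := ram_multi (Qc_fac hM c hc) d m n C hC
  obtain ⟨b', hb'inj, hb'c, hb'D⟩ := hD
  obtain ⟨h, hh, hcm, hcol⟩ := hram (fun k f =>
    if hk : k ≤ d then
      (em ⟨⟨k, Nat.lt_succ_of_le hk⟩,
        cm (Sum.elim (fun i => g (b' (f i))) (fun s => g (c s))) M⟩).castSucc
    else 0)
  refine ⟨fun u => b' (h u), fun u v huv => hh.injective (hb'inj huv), fun u s => hb'c (h u) s,
    ?_, ?_⟩
  · have h1 : cm (Sum.elim (fun u => b' (h u)) c) M =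
        cm (Sum.map h id) (cm (Sum.elim b' c) M) := by
      funext r t
      show M r (fun i => Sum.elim (fun u => b' (h u)) c (t i)) =
        M r (fun i => Sum.elim b' c (Sum.map h id (t i)))
      have h2 : (fun i => Sum.elim (fun u => b' (h u)) c (t i)) =
          (fun i => Sum.elim b' c (Sum.map h id (t i))) := by
        funext i
        rcases t i with x | s
        · rfl
        · rfl
      rw [h2]
    rw [h1, enc_cm, hb'D, hcm]
  · intro k hk f f' hf hf' he
    have h3 := hcol k hk f f' hf hf' he
    simp only [dif_pos hk] at h3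
    have h4 := em.injective (Fin.castSucc_injective _ h3)
    have h5 := (Sigma.mk.inj_iff.1 h4).2
    exact eq_of_heq h5

end Pool.Agent.Lib.H3F
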