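import Pool.Agent.Lib.H3F.Defs

/-!
# Free amalgamation structures: local operations, definitions

Finite structures live on finite sets of natural numbers (`Str R ar ℕ`, equality on the set), ordered by
the order of `ℕ`.  See `PROOF.md`.
-/

set_option autoImplicit false

namespace Pool.Agent.Lib.H3F

open Equiv
open Pool.Agent.Lib.H3C (Cl FR Olig Sup pai pia)

variable {R : Type} {ar : R → Type}

/-- Equality of structures on the set `D`. -/
def EqS {ι : Type} (D : Set ι) (A B : Str R ar ι) : Prop :=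
  ∀ r (t : ar r → ι), (∀ i, t i ∈ D) → (A r t ↔ B r t)

theorem EqS.refl {ι : Type} (D : Set ι) (A : Str R ar ι) : EqS D A A := fun _ _ _ => Iff.rfl

theorem EqS.symm {ι : Type} {D : Set ι} {A B : Str R ar ι} (h : EqS D A B) : EqS D B A :=
  fun r t ht => (h r t ht).symm

theorem EqS.trans {ι : Type} {D : Set ι} {A B C : Str R ar ι} (h : EqS D A B) (h' : EqS D B C) :
    EqS D A C := fun r t ht => (h r t ht).trans (h' r t ht)

theorem EqS.mono {ι : Type} {D D' : Set ι} {A B : Str R ar ι} (h : EqS D A B) (hD : D' ⊆ D) :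
    EqS D' A B := fun r t ht => h r t fun i => hD (ht i)

theorem EqS.cm {ι κ : Type} {D : Set ι} {A B : Str R ar ι} (h : EqS D A B) (f : κ → ι)
    (D' : Set κ) (hf : ∀ x ∈ D', f x ∈ D) : EqS D' (cm f A) (cm f B) :=
  fun r t ht => h r (fun i => f (t i)) fun i => hf _ (ht i)

/-- The automorphism group. -/
def Au {V : Type} (M : Str R ar V) : Subgroup (Perm V) where
  carrier := {σ | ∀ r (t : ar r → V), M r (fun i => σ (t i)) ↔ M r t}
  mul_mem' := fun {a b} ha hb r t => by
    have h1 := ha r (fun i => b (t i))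
    have h2 := hb r t
    exact h1.trans h2
  one_mem' := fun r t => Iff.rfl
  inv_mem' := by
    intro a ha r t
    have h := ha r (fun i => a⁻¹ (t i))
    have h2 : (fun i => a (a⁻¹ (t i))) = t := by
      funext i
      exact pai a (t i)
    rw [h2] at h
    exact h.symm

/-- The age of `M`: the structures which embed in `M`. -/
def Ag {V : Type} (M : Str R ar V) (ι : Type) (A : Str R ar ι) : Prop :=
  ∃ a : ι → V, Function.Injective a ∧ cm a M = A

/-- `M` is homogeneous and its age has free amalgamation. -/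
structure HFA {V : Type} (M : Str R ar V) : Prop where
  hom : ∀ (ι : Type) [Finite ι] (a b : ι → V), Function.Injective a → Function.Injective b →
    cm a M = cm b M → ∃ σ ∈ Au M, ∀ u, σ (a u) = b u
  fa : FAC (Ag M)

/-- The structure `C` on `D` embeds in `M`. -/
def K {V : Type} (M : Str R ar V) (D : Finset ℕ) (C : Str R ar ℕ) : Prop :=
  ∃ a : ℕ → V, Set.InjOn a D ∧ EqS (D : Set ℕ) C (cm a M)

/-- Some element of `G` moves a copy of `C` (on `D`) to a copy of `C'`. -/
def Rel {V : Type} (M : Str R ar V) (G : Subgroup (Perm V)) (D : Finset ℕ) (C C' : Str R ar ℕ) :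
    Prop :=
  ∃ a : ℕ → V, Set.InjOn a D ∧ EqS (D : Set ℕ) C (cm a M) ∧
    ∃ g ∈ G, EqS (D : Set ℕ) C' (cm (fun x => g (a x)) M)

/-! ## Local rules -/

/-- The set of the entries of a tuple. -/
noncomputable def rg {κ : Type} [Finite κ] (t : κ → ℕ) : Finset ℕ := (Set.finite_range t).toFinset

theorem mem_rg {κ : Type} [Finite κ] (t : κ → ℕ) (x : ℕ) : x ∈ rg t ↔ ∃ i, t i = x := by
  rw [rg, Set.Finite.mem_toFinset]
  exact Iff.rfl

/-- The number of elements of `U` below `x`. -/
def pos (U : Finset ℕ) (x : ℕ) : ℕ := (U.filter (· < x)).card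

/-- The `i`-th element of `U`. -/
def nth (U : Finset ℕ) (i : ℕ) : ℕ := if h : i < U.card then U.orderEmbOfFin rfl ⟨i, h⟩ else 0

/-- The position of `x` in `U` as an element of `Fin (d + 1)`. -/
def ps (d : ℕ) (U : Finset ℕ) (x : ℕ) : Fin (d + 1) := Fin.ofNat (d + 1) (pos U x)

/-- The structure `C` on `U`, numbered in increasing order. -/
def nrm (d : ℕ) (U : Finset ℕ) (C : Str R ar ℕ) : Str R ar (Fin (d + 1)) := fun r s =>
  (∀ i, (s i : ℕ) < U.card) ∧ C r (fun i => nth U (s i))

/-- A structure on `Fin (d + 1)` as a structure on `ℕ`. -/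
def up {d : ℕ} (X : Str R ar (Fin (d + 1))) : Str R ar ℕ := fun r t =>
  ∃ s : ar r → Fin (d + 1), (∀ i, t i = (s i : ℕ)) ∧ X r s

/-- Local rules: to a marked subset and a structure on `Fin (d + 1)` a new structure. -/
abbrev LoD (R : Type) (ar : R → Type) (d : ℕ) : Type :=
  Finset (Fin (d + 1)) → Str R ar (Fin (d + 1)) → Str R ar (Fin (d + 1))

/-- The rule which changes nothing. -/
def idLo {d : ℕ} : LoD R ar d := fun _ X => X

instance {d : ℕ} : Nonempty (LoD R ar d) := ⟨idLo⟩

section Lo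

variable [∀ r, Finite (ar r)] {d : ℕ}

open Classical in
/-- The local operation at `S`: the tuples whose range contains `S` are changed by the rule. -/
noncomputable def lo (lam : LoD R ar d) (C : Str R ar ℕ) (S : Finset ℕ) : Str R ar ℕ := fun r t =>
  if S ⊆ rg t then
    lam (S.image (ps d (rg t))) (nrm d (rg t) C) r (fun i => ps d (rg t) (t i))
  else C r t

/-- `F` is natural: it commutes with increasing maps (and is local). -/
def NatF (F : Finset ℕ → Str R ar ℕ → Str R ar ℕ) : Prop :=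
  ∀ (f : ℕ → ℕ) (D S : Finset ℕ) (C C' : Str R ar ℕ), StrictMonoOn f (D : Set ℕ) → S ⊆ D →
    EqS (D : Set ℕ) C' (cm f C) → EqS (D : Set ℕ) (F S C') (cm f (F (S.image f) C))

/-- All subsets of `D`, in a natural order. -/
noncomputable def subs (D : Finset ℕ) : List (Finset ℕ) :=
  ((D.sort (· ≤ ·)).sublists').map List.toFinset

/-- Apply the rules `Λ P` at the sets `P` of the list, one after the other. -/
noncomputable def fo (Λ : Finset ℕ → LoD R ar d) (l : List (Finset ℕ)) (C : Str R ar ℕ) :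
    Str R ar ℕ := l.foldl (fun B P => lo (Λ P) B P) C

/-- Apply the rules `Λ P` at all sets `P`. -/
noncomputable def fa (Λ : Finset ℕ → LoD R ar d) (C : Str R ar ℕ) : Str R ar ℕ := fun r t =>
  fo Λ (subs (rg t)) C r t

/-! ## Operations and local operations of a group -/

variable {V : Type}

/-- The rule `φ` (with the marked set `∅`) is realised by `G` on all finite structures. -/
def IsOp (M : Str R ar V) (G : Subgroup (Perm V)) (φ : LoD R ar d) : Prop :=
  ∀ (D : Finset ℕ) (C : Str R ar ℕ), K M D C → Rel M G D C (lo φ C ∅)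

/-- The operation `e` is idempotent. -/
def Idm (M : Str R ar V) (e : LoD R ar d) : Prop :=
  ∀ (D : Finset ℕ) (C : Str R ar ℕ), K M D C → EqS (D : Set ℕ) (lo e (lo e C ∅) ∅) (lo e C ∅)

/-- The structures fixed by `e`. -/
def Ke (M : Str R ar V) (e : LoD R ar d) (D : Finset ℕ) (C : Str R ar ℕ) : Prop :=
  K M D C ∧ EqS (D : Set ℕ) (lo e C ∅) C

/-- Every operation on the structures fixed by `e` which is realised by `G` is injective. -/
def Star (M : Str R ar V) (G : Subgroup (Perm V)) (e : LoD R ar d) : Prop :=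
  ∀ φ : LoD R ar d, (∀ (D : Finset ℕ) (C : Str R ar ℕ), Ke M e D C →
      Rel M G D C (lo φ C ∅) ∧ Ke M e D (lo φ C ∅)) →
    ∀ (D : Finset ℕ) (C C' : Str R ar ℕ), Ke M e D C → Ke M e D C' →
      EqS (D : Set ℕ) (lo φ C ∅) (lo φ C' ∅) → EqS (D : Set ℕ) C C'

/-- The rule `lam` at sets with `j` elements is realised by `G` on the structures fixed by `e`. -/
def IsLo (M : Str R ar V) (G : Subgroup (Perm V)) (e : LoD R ar d) (j : ℕ) (lam : LoD R ar d) :
    Prop :=
  ∀ (D : Finset ℕ) (C : Str R ar ℕ) (S : Finset ℕ), Ke M e D C → S ⊆ D → S.card = j →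
    Rel M G D C (lo lam C S) ∧ Ke M e D (lo lam C S)

/-! ## Maps over marked points -/

variable {κ : Type}

/-- `N` is natural over marked points: `N m C` on `U` depends only on `C` on `U` and the marked
points, and the order of `U`. -/
def Ntr (N : (κ → ℕ) → Str R ar ℕ → Str R ar ℕ) : Prop :=
  ∀ (f : ℕ → ℕ) (D U : Set ℕ) (m : κ → ℕ) (C C' : Str R ar ℕ), Set.InjOn f D →
    (∀ s, m s ∈ D) → U ⊆ D → StrictMonoOn f U → EqS D C' (cm f C) →
      EqS U (N m C') (cm f (N (fun s => f (m s)) C))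

/-- `C` on `D` embeds in `M`, the marked points are in `D` and have the structure `A`. -/
structure Adm (M : Str R ar V) (A : Str R ar κ) (D : Finset ℕ) (m : κ → ℕ) (C : Str R ar ℕ) :
    Prop where
  inj : Function.Injective m
  mem : ∀ s, m s ∈ D
  str : cm m C = A
  inK : K M D C

/-- On `E` and the marked points, `C` is the free amalgam of `E` and `P` with the marked points. -/
def Con (E P : Finset ℕ) (m : κ → ℕ) (C : Str R ar ℕ) : Prop :=
  ∀ r (t : ar r → ℕ), C r t → (∀ i, t i ∈ E ∨ ∃ s, m s = t i) →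
    (∀ i, t i ∈ E) ∨ ∀ i, t i ∈ P ∨ ∃ s, m s = t i

open Classical in
/-- The number of marked points in `E`. -/
noncomputable def mk (m : κ → ℕ) (E : Finset ℕ) : ℕ := (E.filter fun x => ∃ s, m s = x).card

/-- `N` does not change `E` if `E` has less than `s` marked points, or `s` marked points and is
connected to the others through a set `P` with less than `s + h` points. -/
def Gd (M : Str R ar V) (A : Str R ar κ) (e : LoD R ar d) (s h : ℕ)
    (N : (κ → ℕ) → Str R ar ℕ → Str R ar ℕ) : Prop :=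
  ∀ (D E P : Finset ℕ) (m : κ → ℕ) (C : Str R ar ℕ), Adm M A D m C → P ⊆ E → E ⊆ D →
    (∀ u, m u ∈ E → m u ∈ P) → Con E P m C → Ke M e E C →
      (mk m E < s ∨ (mk m E = s ∧ P.card < s + h)) → EqS (E : Set ℕ) (N m C) C

/-- `N` is natural, realised by `G`, with values fixed by `e`. -/
structure Inv (M : Str R ar V) (G : Subgroup (Perm V)) (A : Str R ar κ) (e : LoD R ar d)
    (N : (κ → ℕ) → Str R ar ℕ → Str R ar ℕ) : Prop where
  ntr : Ntr N
  rel : ∀ (D : Finset ℕ) (m : κ → ℕ) (C : Str R ar ℕ), Adm M A D m C →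
    Rel M G D C (N m C) ∧ Ke M e D (N m C)

/-- Isomorphism of structures on ordered sets `P`, `P'` and the marked points. -/
def Iso (m : κ → ℕ) (C : Str R ar ℕ) (P : Finset ℕ) (m' : κ → ℕ) (C' : Str R ar ℕ)
    (P' : Finset ℕ) : Prop :=
  ∃ θ : ℕ → ℕ, Set.InjOn θ ((P : Set ℕ) ∪ Set.range m) ∧ StrictMonoOn θ (P : Set ℕ) ∧
    P.image θ = P' ∧ (∀ s, θ (m s) = m' s) ∧ EqS ((P : Set ℕ) ∪ Set.range m) C (cm θ C')

/-- Isomorphism of structures on ordered sets `P`, `P'`. -/
def IsoS (C : Str R ar ℕ) (P : Finset ℕ) (C' : Str R ar ℕ) (P' : Finset ℕ) : Prop :=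
  ∃ θ : ℕ → ℕ, StrictMonoOn θ (P : Set ℕ) ∧ P.image θ = P' ∧ EqS (P : Set ℕ) C (cm θ C')

/-- The rule `mu` undoes `N` on sets `E` which are connected to the marked points through a copy of
`P₀`. -/
def GMu (M : Str R ar V) (G : Subgroup (Perm V)) (A : Str R ar κ) (e : LoD R ar d)
    (N : (κ → ℕ) → Str R ar ℕ → Str R ar ℕ) (j : ℕ) (m₀ : κ → ℕ) (C₀ : Str R ar ℕ)
    (P₀ : Finset ℕ) (mu : LoD R ar d) : Prop :=
  IsLo M G e j mu ∧ ∀ (D E P : Finset ℕ) (m : κ → ℕ) (C : Str R ar ℕ), Adm M A D m C →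
    P ⊆ E → E ⊆ D → Iso m C P m₀ C₀ P₀ → (∀ u, m u ∈ E → m u ∈ P) → Con E P m C → Ke M e E C →
      EqS (E : Set ℕ) (lo mu (N m C) P) C

open Classical in
/-- The rule at `P`. -/
noncomputable def Lam (M : Str R ar V) (G : Subgroup (Perm V)) (A : Str R ar κ) (e : LoD R ar d)
    (N : (κ → ℕ) → Str R ar ℕ → Str R ar ℕ) (s h : ℕ) (m : κ → ℕ) (C : Str R ar ℕ)
    (P : Finset ℕ) : LoD R ar d :=
  if mk m P = s ∧ P.card = s + h ∧ ∃ mu, GMu M G A e N (s + h) m C P mu then
    Classical.epsilon (GMu M G A e N (s + h) m C P)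
  else idLo

/-- The next map: undo at all sets `P` with `s` marked points and `s + h` points. -/
noncomputable def nxt (M : Str R ar V) (G : Subgroup (Perm V)) (A : Str R ar κ) (e : LoD R ar d)
    (N : (κ → ℕ) → Str R ar ℕ → Str R ar ℕ) (s h : ℕ) (m : κ → ℕ) (C : Str R ar ℕ) :
    Str R ar ℕ := fa (Lam M G A e N s h m C) (N m C)

end Lo

end Pool.Agent.Lib.H3F
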