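import Pool.Agent.Lib.H3C.Defs
import Mathlib.Combinatorics.HalesJewett
import Mathlib.Data.Finset.Sort
import Mathlib.Data.List.Sublists

/-!
# Free amalgamation structures: definitions

Definitions for `Pool/Agent/Lib/H3F` (MP_f225a9, Thomas's conjecture for homogeneous structures in a
finite relational language, of any arity, whose age has free amalgamation).  See `PROOF.md` there.
-/

set_option autoImplicit false

namespace Pool.Agent.Lib.H3F

/-- The structures on `ι` in the signature `(R, ar)`: the symbol `r` has the arity `ar r` (an index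
type), a structure says for which tuples `t : ar r → ι` the symbol `r` holds. -/
abbrev Str (R : Type) (ar : R → Type) (ι : Type) : Type := ∀ r : R, (ar r → ι) → Prop

variable {R : Type} {ar : R → Type}

/-- The structure induced along a map. -/
def cm {ι κ : Type} (e : κ → ι) (A : Str R ar ι) : Str R ar κ := fun r t => A r (fun i => e (t i))

/-- `Q` is a class of structures closed under substructures (and isomorphic copies) and free
amalgamation. -/
structure FAC (Q : ∀ ι : Type, Str R ar ι → Prop) : Prop where
  her : ∀ (ι κ : Type) (e : κ → ι) (A : Str R ar ι), Function.Injective e → Q ι A → Q κ (cm e A)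
  am : ∀ (ι : Type) [Finite ι] (A : Str R ar ι) (X Y : Set ι), (∀ x, x ∈ X ∨ x ∈ Y) →
    (∀ r t, A r t → (∀ i, t i ∈ X) ∨ (∀ i, t i ∈ Y)) →
    Q X (cm Subtype.val A) → Q Y (cm Subtype.val A) → Q ι A

/-! ## The Ramsey theorem: irreducible sets and the partite step -/

/-- Any two points of `F` lie in a common tuple of a relation of `A` inside `F`. -/
def Irr {ι : Type} (A : Str R ar ι) (F : Set ι) : Prop :=
  ∀ x ∈ F, ∀ y ∈ F, x ≠ y → ∃ r t, A r t ∧ (∀ i, t i ∈ F) ∧ (∃ i, t i = x) ∧ ∃ j, t j = y

/-- `π` embeds the irreducible sets of `A` into `D`. -/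
def HE {ι β : Type} (A : Str R ar ι) (π : ι → β) (D : Str R ar β) : Prop :=
  ∀ F : Set ι, Irr A F → Set.InjOn π F ∧ ∀ r t, (∀ i, t i ∈ F) → (A r t ↔ D r (fun i => π (t i)))

section Step

variable {α β : Type} {k : ℕ} (P : Str R ar α) (π : α → β) (f : Fin k → β) (X : Str R ar (Fin k))
  (J : Type)

/-- The copies of `X` over `f`. -/
def Cop : Type := {e : Fin k → α // (∀ p, π (e p) = f p) ∧ cm e P = X}

/-- The points of the power: functions with all values over the same point `f p`. -/
def Cor : Type := {v : J → α // ∃ p, ∀ l, π (v l) = f p}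

/-- The part of a point of the power. -/
noncomputable def Cor.prt {α β : Type} {k : ℕ} {π : α → β} {f : Fin k → β} {J : Type}
    (v : Cor π f J) : Fin k := v.2.choose

theorem Cor.prt_spec {α β : Type} {k : ℕ} {π : α → β} {f : Fin k → β} {J : Type}
    (v : Cor π f J) (l : J) : π (v.1 l) = f v.prt := v.2.choose_spec l

/-- The structure on the power: the truth value of `r` at a tuple is the one in `X` unless some
coordinate has the other value. -/
def corS : Str R ar (Cor π f J) := fun r t =>
  (X r (fun i => (t i).prt) ∧ ∀ l, P r (fun i => (t i).1 l)) ∨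
    (¬ X r (fun i => (t i).prt) ∧ ∃ l, P r (fun i => (t i).1 l))

/-- The points which are not over `f`. -/
def Rest : Type := {x : α // ∀ p, π x ≠ f p}

/-- The points of the new system: the power and, for every line, a copy of the rest. -/
def Pts : Type := Cor π f J ⊕ (Combinatorics.Line (Cop P π f X) J × Rest π f)

variable {P π f X J}

/-- The point `x` over `f p` in the copy given by the line `L`. -/
def lm (L : Combinatorics.Line (Cop P π f X) J) (x : α) (p : Fin k) : J → α := fun l =>
  match L.idxFun l with
  | none => x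
  | some e => e.1 p

theorem lm_none (L : Combinatorics.Line (Cop P π f X) J) (x : α) (p : Fin k) (l : J)
    (h : L.idxFun l = none) : lm L x p l = x := by
  simp only [lm, h]

theorem lm_some (L : Combinatorics.Line (Cop P π f X) J) (x : α) (p : Fin k) (l : J)
    (e : Cop P π f X) (h : L.idxFun l = some e) : lm L x p l = e.1 p := by
  simp only [lm, h]

theorem lm_part (L : Combinatorics.Line (Cop P π f X) J) (x : α) (p : Fin k) (hx : π x = f p)
    (l : J) : π (lm L x p l) = f p := by
  rcases h : L.idxFun l with _ | e
  · rw [lm_none L x p l h, hx]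
  · rw [lm_some L x p l e h]
    exact e.2.1 p

open Classical in
/-- The copy of the old system given by the line `L`. -/
noncomputable def psi (L : Combinatorics.Line (Cop P π f X) J) (x : α) : Pts P π f X J :=
  if h : ∃ p, π x = f p then
    Sum.inl ⟨lm L x h.choose, h.choose, lm_part L x h.choose h.choose_spec⟩
  else Sum.inr (L, ⟨x, fun p hp => h ⟨p, hp⟩⟩)

variable (P π f X J)

/-- The structure of the new system: the power, and all copies of the old system. -/
def ptsS : Str R ar (Pts P π f X J) := fun r t =>
  (∃ t1 : ar r → Cor π f J, (∀ i, t i = Sum.inl (t1 i)) ∧ corS P π f X J r t1) ∨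
    ∃ (L : Combinatorics.Line (Cop P π f X) J) (t2 : ar r → α),
      (∃ i, ∀ p, π (t2 i) ≠ f p) ∧ (∀ i, t i = psi L (t2 i)) ∧ P r t2

/-- The projection of the new system. -/
noncomputable def ptsp : Pts P π f X J → β
  | Sum.inl v => f v.prt
  | Sum.inr y => π y.2.1

end Step

/-- The points of the first system: one copy of `Fin n` for every map `h` with `H h`. -/
def Ini {β : Type} {n : ℕ} (H : (Fin n → β) → Prop) : Type := {h : Fin n → β // H h} × Fin n

/-- The structure of the first system: one copy of `C` for every map `h` with `H h`. -/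
def iniS {β : Type} {n : ℕ} (H : (Fin n → β) → Prop) (C : Str R ar (Fin n)) : Str R ar (Ini H) :=
  fun r t => ∃ (h : {h : Fin n → β // H h}) (t1 : ar r → Fin n), (∀ i, t i = (h, t1 i)) ∧ C r t1

/-- The projection of the first system. -/
def inip {β : Type} {n : ℕ} (H : (Fin n → β) → Prop) : Ini H → β := fun y => y.1.1 y.2

/-- `D` arrows `C` with respect to the copies of `X`, with `r + 1` colours (all ordered). -/
def Arr {k n N : ℕ} (X : Str R ar (Fin k)) (C : Str R ar (Fin n)) (D : Str R ar (Fin N)) (r : ℕ) :
    Prop :=
  ∀ χ : (Fin k → Fin N) → Fin (r + 1), ∃ h : Fin n → Fin N, StrictMono h ∧ cm h D = C ∧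
    ∃ c, ∀ g : Fin k → Fin n, StrictMono g → cm g C = X → χ (fun i => h (g i)) = c

/-- The system `(P', π')` arrows `(P, π)` with respect to the copies of `X` over `f`. -/
def Stp {α α' β : Type} {k : ℕ} (P : Str R ar α) (π : α → β) (P' : Str R ar α') (π' : α' → β)
    (f : Fin k → β) (X : Str R ar (Fin k)) (r : ℕ) : Prop :=
  ∀ χ : (Fin k → α') → Fin (r + 1), ∃ ψ : α → α', Function.Injective ψ ∧ (∀ x, π' (ψ x) = π x) ∧
    cm ψ P' = P ∧ ∃ c, ∀ e : Fin k → α, (∀ p, π (e p) = f p) → cm e P = X →
      χ (fun p => ψ (e p)) = c

end Pool.Agent.Lib.H3F
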