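import Pool.Agent.Lib.H3F.K2
import Pool.Agent.Lib.H3F.N3

/-! # E1: a minimal idempotent operation (definition) -/

set_option autoImplicit false

namespace Pool.Agent.Lib.H3F

open Equiv

variable {R : Type} {ar : R → Type} [∀ r, Finite (ar r)] {d : ℕ} {V : Type} {M : Str R ar V}
  {G : Subgroup (Perm V)} {e : LoD R ar d}

/-- The fixed structures on at most `d` points. -/
def FS (M : Str R ar V) (e : LoD R ar d) : Set (Fin (d + 1) × Str R ar (Fin (d + 1))) :=
  {p | Ke M e (Finset.range p.1) (up p.2)}

end Pool.Agent.Lib.H3F
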