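import Pool.Agent.Lib.H3F.Def2

/-! # K1: embeddable structures and the relation of a group (a) -/

set_option autoImplicit false

namespace Pool.Agent.Lib.H3F

open Equiv
open Pool.Agent.Lib.H3C (Cl FR Olig Sup pai pia)

variable {R : Type} {ar : R → Type} {V : Type} {M : Str R ar V} {G : Subgroup (Perm V)}

/-- Proof. Same `a`, `EqS.trans`. -/
theorem K_congr {D : Finset ℕ} {C C' : Str R ar ℕ} (h : EqS (D : Set ℕ) C C') (hC : K M D C) :
    K M D C' := by
  obtain ⟨a, ha, hE⟩ := hC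
  exact ⟨a, ha, h.symm.trans hE⟩

/-- Proof. Same `a`. -/
theorem K_mono {D D' : Finset ℕ} {C : Str R ar ℕ} (h : D' ⊆ D) (hC : K M D C) : K M D' C := by
  obtain ⟨a, ha, hE⟩ := hC
  have h2 : ((D' : Finset ℕ) : Set ℕ) ⊆ (D : Set ℕ) := Finset.coe_subset.2 h
  exact ⟨a, ha.mono h2, hE.mono h2⟩

/-- Proof. `a ∘ f`. -/
theorem K_cm {D : Finset ℕ} {C : Str R ar ℕ} (f : ℕ → ℕ) (hf : Set.InjOn f (D : Set ℕ))
    (hC : K M (D.image f) C) : K M D (cm f C) := by
  obtain ⟨a, ha, hE⟩ := hC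
  have hm : ∀ x ∈ (D : Set ℕ), f x ∈ ((D.image f : Finset ℕ) : Set ℕ) := fun x hx =>
    Finset.mem_coe.2 (Finset.mem_image_of_mem f (Finset.mem_coe.1 hx))
  refine ⟨fun x => a (f x), ?_, ?_⟩
  · intro x hx y hy hxy
    exact hf hx hy (ha (hm x hx) (hm y hy) hxy)
  · exact hE.cm f (D : Set ℕ) hm

/-- Proof. `a ∘ (inverse of f on D)` (`Function.invFunOn`); for a tuple `t` in `D.image f` write `t = f ∘ t'` with `t'` in `D`. -/
theorem K_cm_conv {D : Finset ℕ} {C : Str R ar ℕ} (f : ℕ → ℕ) (hf : Set.InjOn f (D : Set ℕ))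
    (hC : K M D (cm f C)) : K M (D.image f) C := by
  obtain ⟨a, ha, hE⟩ := hC
  have hinv : ∀ x ∈ (D : Set ℕ), Function.invFunOn f (D : Set ℕ) (f x) = x := fun x hx =>
    hf.leftInvOn_invFunOn hx
  refine ⟨fun y => a (Function.invFunOn f (D : Set ℕ) y), ?_, ?_⟩
  · intro x hx y hy hxy
    obtain ⟨x', hx', rfl⟩ := Finset.mem_image.1 (Finset.mem_coe.1 hx)
    obtain ⟨y', hy', rfl⟩ := Finset.mem_image.1 (Finset.mem_coe.1 hy)
    have h1 := hinv x' (Finset.mem_coe.2 hx')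
    have h2 := hinv y' (Finset.mem_coe.2 hy')
    simp only [h1, h2] at hxy
    rw [ha (Finset.mem_coe.2 hx') (Finset.mem_coe.2 hy') hxy]
  · intro r t ht
    have h1 : ∀ i, ∃ x ∈ D, f x = t i := fun i =>
      Finset.mem_image.1 (Finset.mem_coe.1 (ht i))
    choose t' ht' htf using h1
    have h2 : t = fun i => f (t' i) := by
      funext i
      exact (htf i).symm
    have h3 := hE r t' (fun i => Finset.mem_coe.2 (ht' i))
    rw [h2]
    have h4 : (fun i => a (Function.invFunOn f (D : Set ℕ) (f (t' i)))) = fun i => a (t' i) := by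
      funext i
      rw [hinv (t' i) (Finset.mem_coe.2 (ht' i))]
    show C r (fun i => f (t' i)) ↔ M r (fun i => a (Function.invFunOn f (D : Set ℕ) (f (t' i))))
    rw [h4]
    exact h3

end Pool.Agent.Lib.H3F
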