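import Pool.Agent.Lib.H3F.Def2
import Pool.Agent.Lib.H3F.K1a

/-! # K1: embeddable structures and the relation of a group (b) -/

set_option autoImplicit false

namespace Pool.Agent.Lib.H3F

open Equiv
open Pool.Agent.Lib.H3C (Cl FR Olig Sup pai pia)

variable {R : Type} {ar : R → Type} {V : Type} {M : Str R ar V} {G : Subgroup (Perm V)}

/-- Proof. Same `a` and `g`. -/
theorem Rel_congr {D : Finset ℕ} {C₁ C₂ C₁' C₂' : Str R ar ℕ} (h1 : EqS (D : Set ℕ) C₁ C₁')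
    (h2 : EqS (D : Set ℕ) C₂ C₂') (h : Rel M G D C₁ C₂) : Rel M G D C₁' C₂' := by
  obtain ⟨a, ha, hC, g, hg, hC'⟩ := h
  exact ⟨a, ha, h1.symm.trans hC, g, hg, h2.symm.trans hC'⟩

/-- Proof. Same `a` and `g`. -/
theorem Rel_mono {D D' : Finset ℕ} {C C' : Str R ar ℕ} (hD : D' ⊆ D) (h : Rel M G D C C') :
    Rel M G D' C C' := by
  obtain ⟨a, ha, hC, g, hg, hC'⟩ := h
  have hD' : (D' : Set ℕ) ⊆ (D : Set ℕ) := Finset.coe_subset.2 hD
  exact ⟨a, ha.mono hD', hC.mono hD', g, hg, hC'.mono hD'⟩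

/-- Proof. Same `a`. -/
theorem Rel_left {D : Finset ℕ} {C C' : Str R ar ℕ} (h : Rel M G D C C') : K M D C := by
  obtain ⟨a, ha, hC, -⟩ := h
  exact ⟨a, ha, hC⟩

/-- Proof. `fun x => g (a x)`. -/
theorem Rel_right {D : Finset ℕ} {C C' : Str R ar ℕ} (h : Rel M G D C C') : K M D C' := by
  obtain ⟨a, ha, -, g, -, hC'⟩ := h
  exact ⟨fun x => g (a x), fun x hx y hy hxy => ha hx hy (g.injective hxy), hC'⟩

/-- Proof. `g = 1`. -/
theorem Rel_refl {D : Finset ℕ} {C : Str R ar ℕ} (h : K M D C) : Rel M G D C C := by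
  obtain ⟨a, ha, hC⟩ := h
  exact ⟨a, ha, hC, 1, G.one_mem, hC⟩

/-- Proof. `fun x => g (a x)` and `g⁻¹` (`pia`). -/
theorem Rel_symm {D : Finset ℕ} {C C' : Str R ar ℕ} (h : Rel M G D C C') : Rel M G D C' C := by
  obtain ⟨a, ha, hC, g, hg, hC'⟩ := h
  refine ⟨fun x => g (a x), fun x hx y hy hxy => ha hx hy (g.injective hxy), hC', g⁻¹,
    G.inv_mem hg, ?_⟩
  have h1 : (fun x => g⁻¹ (g (a x))) = a := by
    funext x
    exact g.symm_apply_apply (a x)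
  rw [h1]
  exact hC

end Pool.Agent.Lib.H3F
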