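import Pool.Agent.Lib.H3F.Def2
import Pool.Agent.Lib.H3F.K1a
import Pool.Agent.Lib.H3F.K1b

/-! # K1: embeddable structures and the relation of a group (c) -/

set_option autoImplicit false

namespace Pool.Agent.Lib.H3F

open Equiv
open Pool.Agent.Lib.H3C (Cl FR Olig Sup pai pia)

variable {R : Type} {ar : R → Type} {V : Type} {M : Str R ar V} {G : Subgroup (Perm V)}

/-- Any two realisations of the same structure differ by an automorphism.

Proof. `hM.hom` for the finite type `D` and the maps `fun u : D => a u`, `fun u : D => b u`; the structures `cm _ M` are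
equal (`funext`, `propext`) by `ha` and `hb`. -/
theorem hom_nat (hM : HFA M) {D : Finset ℕ} {C : Str R ar ℕ} {a b : ℕ → V}
    (hai : Set.InjOn a (D : Set ℕ)) (hbi : Set.InjOn b (D : Set ℕ))
    (ha : EqS (D : Set ℕ) C (cm a M)) (hb : EqS (D : Set ℕ) C (cm b M)) :
    ∃ σ ∈ Au M, ∀ u ∈ D, σ (a u) = b u := by
  have h1 : Function.Injective (fun u : D => a (u : ℕ)) := by
    intro x y hxy
    exact Subtype.ext (hai (Finset.mem_coe.2 x.2) (Finset.mem_coe.2 y.2) hxy)
  have h2 : Function.Injective (fun u : D => b (u : ℕ)) := by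
    intro x y hxy
    exact Subtype.ext (hbi (Finset.mem_coe.2 x.2) (Finset.mem_coe.2 y.2) hxy)
  have h3 : cm (fun u : D => a (u : ℕ)) M = cm (fun u : D => b (u : ℕ)) M := by
    funext r t
    apply propext
    have h4 := ha r (fun i => ((t i : D) : ℕ)) (fun i => Finset.mem_coe.2 (t i).2)
    have h5 := hb r (fun i => ((t i : D) : ℕ)) (fun i => Finset.mem_coe.2 (t i).2)
    exact h4.symm.trans h5
  obtain ⟨σ, hσ, h6⟩ := hM.hom D _ _ h1 h2 h3
  exact ⟨σ, hσ, fun u hu => h6 ⟨u, hu⟩⟩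

/-- **Every realisation of `C` is moved to a realisation of `C'`.**

Proof. Let `b`, `g` be as in `Rel`; `hom_nat` gives `σ ∈ Au M ≤ G` with `σ (a u) = b u`; take `g * σ`. -/
theorem Rel_real (hM : HFA M) (hG : Au M ≤ G) {D : Finset ℕ} {C C' : Str R ar ℕ}
    (h : Rel M G D C C') {a : ℕ → V} (hai : Set.InjOn a (D : Set ℕ))
    (ha : EqS (D : Set ℕ) C (cm a M)) :
    ∃ g ∈ G, EqS (D : Set ℕ) C' (cm (fun x => g (a x)) M) := by
  obtain ⟨b, hbi, hb, g, hg, hE⟩ := h
  obtain ⟨σ, hσ, h6⟩ := hom_nat hM hai hbi ha hb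
  refine ⟨g * σ, G.mul_mem hg (hG hσ), ?_⟩
  intro r t ht
  have h7 := hE r t ht
  have h8 : (fun i => (g * σ) (a (t i))) = fun i => g (b (t i)) := by
    funext i
    rw [Perm.mul_apply, h6 (t i) (Finset.mem_coe.1 (ht i))]
  show C' r t ↔ M r (fun i => (g * σ) (a (t i)))
  rw [h8]
  exact h7

/-- Proof. `Rel_real` for the realisation `fun x => g (a x)` of `C₂`; product of the group elements. -/
theorem Rel_trans (hM : HFA M) (hG : Au M ≤ G) {D : Finset ℕ} {C₁ C₂ C₃ : Str R ar ℕ}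
    (h : Rel M G D C₁ C₂) (h' : Rel M G D C₂ C₃) : Rel M G D C₁ C₃ := by
  obtain ⟨a, hai, ha, g, hg, hE⟩ := h
  have h1 : Set.InjOn (fun x => g (a x)) (D : Set ℕ) := by
    intro x hx y hy hxy
    exact hai hx hy (g.injective hxy)
  obtain ⟨g', hg', hE'⟩ := Rel_real hM hG h' h1 hE
  exact ⟨a, hai, ha, g' * g, G.mul_mem hg' hg, hE'⟩

end Pool.Agent.Lib.H3F
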