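import Pool.Agent.Lib.H3F.K1a
import Pool.Agent.Lib.H3F.K1b
import Pool.Agent.Lib.H3F.K1c

/-! # K1: embeddable structures and the relation of a group (all parts) -/
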