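import Pool.Agent.Lib.H3F.Def2

/-! # N1: positions in finite sets of natural numbers (a) -/

set_option autoImplicit false

namespace Pool.Agent.Lib.H3F

/-- Proof. `dif_pos`, `Finset.orderEmbOfFin_mem`. -/
theorem nth_mem (U : Finset ℕ) (i : ℕ) (h : i < U.card) : nth U i ∈ U := by
  rw [nth, dif_pos h]
  exact Finset.orderEmbOfFin_mem U rfl ⟨i, h⟩

/-- Proof. `dif_pos`, strict monotonicity of `Finset.orderEmbOfFin`. -/
theorem nth_lt (U : Finset ℕ) (i j : ℕ) (hij : i < j) (h : j < U.card) : nth U i < nth U j := by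
  have hi : i < U.card := lt_trans hij h
  rw [nth, nth, dif_pos hi, dif_pos h]
  exact (U.orderEmbOfFin rfl).strictMono (show (⟨i, hi⟩ : Fin U.card) < ⟨j, h⟩ from hij)

/-- Proof. The elements of `U` below `nth U i` are exactly `nth U j`, `j < i` (every element of `U` is some
`U.orderEmbOfFin rfl j`, `Finset.range_orderEmbOfFin`); so the filter is the image of `Finset.range i` (or of the filter of
`Fin`) under an injective map. -/
theorem pos_nth (U : Finset ℕ) (i : ℕ) (h : i < U.card) : pos U (nth U i) = i := by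
  have himg : U.filter (· < nth U i) = (Finset.range i).image (nth U) := by
    ext y
    rw [Finset.mem_filter, Finset.mem_image]
    constructor
    · rintro ⟨hy, hlt⟩
      have hr : y ∈ Set.range (U.orderEmbOfFin rfl) := by
        rw [Finset.range_orderEmbOfFin]
        exact hy
      obtain ⟨j, hj⟩ := hr
      have hjn : nth U j.1 = y := by
        rw [nth, dif_pos j.2]
        exact hj
      refine ⟨j.1, ?_, hjn⟩
      rw [Finset.mem_range]
      by_contra hcon
      have hle : i ≤ j.1 := not_lt.1 hcon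
      rcases Nat.lt_or_eq_of_le hle with h1 | h1
      · have h2 := nth_lt U i j.1 h1 j.2
        rw [hjn] at h2
        exact absurd h2 (not_lt.2 hlt.le)
      · rw [h1, hjn] at hlt
        exact lt_irrefl _ hlt
    · rintro ⟨j, hj, rfl⟩
      rw [Finset.mem_range] at hj
      exact ⟨nth_mem U j (lt_trans hj h), nth_lt U j i hj h⟩
  rw [pos, himg, Finset.card_image_of_injOn, Finset.card_range]
  intro a ha b hb hab
  rw [Finset.mem_coe, Finset.mem_range] at ha hb
  rcases lt_trichotomy a b with h1 | h1 | h1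
  · have h2 := nth_lt U a b h1 (lt_trans hb h)
    rw [hab] at h2
    exact absurd h2 (lt_irrefl _)
  · exact h1
  · have h2 := nth_lt U b a h1 (lt_trans ha h)
    rw [hab] at h2
    exact absurd h2 (lt_irrefl _)

/-- Proof. `x` is `nth U i` for some `i < U.card` (`Finset.range_orderEmbOfFin`), `pos_nth`. -/
theorem nth_pos (U : Finset ℕ) (x : ℕ) (h : x ∈ U) : nth U (pos U x) = x := by
  have hr : x ∈ Set.range (U.orderEmbOfFin rfl) := by
    rw [Finset.range_orderEmbOfFin]
    exact h
  obtain ⟨j, hj⟩ := hr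
  have hjn : nth U j.1 = x := by
    rw [nth, dif_pos j.2]
    exact hj
  rw [← hjn, pos_nth U j.1 j.2]

/-- Proof. `x` itself is not in the filter: `Finset.card_lt_card`. -/
theorem pos_lt (U : Finset ℕ) (x : ℕ) (h : x ∈ U) : pos U x < U.card := by
  refine Finset.card_lt_card ⟨Finset.filter_subset _ _, fun hsub => ?_⟩
  have h1 := hsub h
  rw [Finset.mem_filter] at h1
  exact lt_irrefl _ h1.2

/-- Proof. `(U.filter (· < x)) ⊂ (U.filter (· < y))`: `x` is in the second only. -/
theorem pos_lt_pos (U : Finset ℕ) (x y : ℕ) (h : x ∈ U) (hxy : x < y) : pos U x < pos U y := by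
  refine Finset.card_lt_card ⟨fun z hz => ?_, fun hsub => ?_⟩
  · rw [Finset.mem_filter] at hz ⊢
    exact ⟨hz.1, lt_trans hz.2 hxy⟩
  · have h1 : x ∈ U.filter (· < x) := hsub (Finset.mem_filter.2 ⟨h, hxy⟩)
    rw [Finset.mem_filter] at h1
    exact lt_irrefl _ h1.2

end Pool.Agent.Lib.H3F
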