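import Pool.Agent.Lib.H3F.Def2
import Pool.Agent.Lib.H3F.N1a

/-! # N1: positions in finite sets of natural numbers (b) -/

set_option autoImplicit false

namespace Pool.Agent.Lib.H3F

/-- Proof. `(U.image f).filter (· < f x)` is the image of `U.filter (· < x)` (strict monotonicity), `f` is injective on
`U`: `Finset.card_image_of_injOn`. -/
theorem pos_image (f : ℕ → ℕ) (U : Finset ℕ) (hf : StrictMonoOn f (U : Set ℕ)) (x : ℕ)
    (h : x ∈ U) : pos (U.image f) (f x) = pos U x := by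
  unfold pos
  have h1 : (U.image f).filter (· < f x) = (U.filter (· < x)).image f := by
    ext y
    simp only [Finset.mem_filter, Finset.mem_image]
    constructor
    · rintro ⟨⟨z, hz, rfl⟩, hlt⟩
      exact ⟨z, ⟨hz, (hf.lt_iff_lt (Finset.mem_coe.2 hz) (Finset.mem_coe.2 h)).1 hlt⟩, rfl⟩
    · rintro ⟨z, ⟨hz, hlt⟩, rfl⟩
      exact ⟨⟨z, hz, rfl⟩, hf (Finset.mem_coe.2 hz) (Finset.mem_coe.2 h) hlt⟩
  rw [h1]
  refine Finset.card_image_of_injOn ?_
  intro a ha b hb hab
  exact hf.injOn (Finset.mem_coe.2 (Finset.mem_filter.1 (Finset.mem_coe.1 ha)).1)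
    (Finset.mem_coe.2 (Finset.mem_filter.1 (Finset.mem_coe.1 hb)).1) hab

/-- Proof. `Finset.card_image_of_injOn`, `StrictMonoOn.injOn`. -/
theorem card_image_mono (f : ℕ → ℕ) (U : Finset ℕ) (hf : StrictMonoOn f (U : Set ℕ)) :
    (U.image f).card = U.card :=
  Finset.card_image_of_injOn hf.injOn

/-- Proof. Let `x = nth U i ∈ U`; `pos (U.image f) (f x) = pos U x = i`, then `nth_pos` for `U.image f`. -/
theorem nth_image (f : ℕ → ℕ) (U : Finset ℕ) (hf : StrictMonoOn f (U : Set ℕ)) (i : ℕ)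
    (h : i < U.card) : nth (U.image f) i = f (nth U i) := by
  have h1 : nth U i ∈ U := nth_mem U i h
  have h2 := pos_image f U hf _ h1
  rw [pos_nth U i h] at h2
  have h3 := nth_pos (U.image f) (f (nth U i)) (Finset.mem_image_of_mem f h1)
  rw [h2] at h3
  exact h3

/-- Proof. `nth_lt`. -/
theorem nth_mono (U : Finset ℕ) : StrictMonoOn (nth U) (Finset.range U.card : Set ℕ) := by
  intro a _ b hb hab
  exact nth_lt U a b hab (Finset.mem_range.1 (Finset.mem_coe.1 hb))

/-- Proof. `nth_mem`, `nth_pos`, `pos_lt`. -/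
theorem image_nth (U : Finset ℕ) : (Finset.range U.card).image (nth U) = U := by
  ext x
  simp only [Finset.mem_image, Finset.mem_range]
  constructor
  · rintro ⟨i, hi, rfl⟩
    exact nth_mem U i hi
  · intro hx
    exact ⟨pos U x, pos_lt U x hx, nth_pos U x hx⟩

/-- Proof. `Fin.val_ofNat` and `Nat.mod_eq_of_lt`: `pos U x < U.card ≤ d`. -/
theorem ps_val (d : ℕ) (U : Finset ℕ) (x : ℕ) (h : x ∈ U) (hU : U.card ≤ d) :
    ((ps d U x : Fin (d + 1)) : ℕ) = pos U x := by
  unfold ps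
  have h1 := pos_lt U x h
  show pos U x % (d + 1) = pos U x
  exact Nat.mod_eq_of_lt (by omega)

/-- Proof. `rg t` is the image of `Finset.univ` (`Fintype.ofFinite`), or `Set.ncard` and `Nat.card_range..`:
`(Set.finite_range t).toFinset.card = (Set.range t).ncard ≤ Nat.card κ`. -/
theorem card_rg {κ : Type} [Finite κ] (t : κ → ℕ) : (rg t).card ≤ Nat.card κ := by
  classical
  have := Fintype.ofFinite κ
  have h1 : rg t = Finset.univ.image t := by
    ext x
    rw [mem_rg, Finset.mem_image]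
    simp
  rw [h1, Nat.card_eq_fintype_card]
  exact Finset.card_image_le

/-- Proof. `mem_rg`, `Finset.mem_image`. -/
theorem rg_comp {κ : Type} [Finite κ] (t : κ → ℕ) (f : ℕ → ℕ) :
    rg (fun i => f (t i)) = (rg t).image f := by
  ext x
  rw [mem_rg, Finset.mem_image]
  constructor
  · rintro ⟨i, rfl⟩
    exact ⟨t i, (mem_rg t _).2 ⟨i, rfl⟩, rfl⟩
  · rintro ⟨y, hy, rfl⟩
    obtain ⟨i, rfl⟩ := (mem_rg t _).1 hy
    exact ⟨i, rfl⟩

/-- Proof. `mem_rg`. -/
theorem rg_sub {κ : Type} [Finite κ] (t : κ → ℕ) (D : Finset ℕ) :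
    rg t ⊆ D ↔ ∀ i, t i ∈ D := by
  constructor
  · intro h i
    exact h ((mem_rg t _).2 ⟨i, rfl⟩)
  · intro h x hx
    obtain ⟨i, rfl⟩ := (mem_rg t _).1 hx
    exact h i

end Pool.Agent.Lib.H3F
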