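import Pool.Agent.Lib.H3F.N1a
import Pool.Agent.Lib.H3F.N1b

/-! # N1: positions in finite sets of natural numbers (all parts) -/
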