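import Pool.Agent.Lib.H3F.N1

/-! # N2: local operations are natural (a) -/

set_option autoImplicit false

namespace Pool.Agent.Lib.H3F

variable {R : Type} {ar : R → Type} [∀ r, Finite (ar r)] {d : ℕ}

/-- Proof. `if_neg`. -/
theorem lo_of_not (lam : LoD R ar d) (C : Str R ar ℕ) (S : Finset ℕ) (r : R) (t : ar r → ℕ)
    (h : ¬ S ⊆ rg t) : lo lam C S r t ↔ C r t := by
  unfold lo
  rw [if_neg h]

/-- Proof. With `U = rg t`: `nrm d U C r (fun i => ps d U (t i))` says `C r (fun i => nth U (ps d U (t i)))` (the first part holds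
by `ps_val`, `pos_lt`; `U.card ≤ d` by `card_rg` and `hd`), and `nth U (pos U (t i)) = t i` (`nth_pos`). -/
theorem lo_idLo (hd : ∀ r, Nat.card (ar r) ≤ d) (C : Str R ar ℕ) (S : Finset ℕ) (r : R)
    (t : ar r → ℕ) : lo (idLo : LoD R ar d) C S r t ↔ C r t := by
  by_cases h : S ⊆ rg t
  · have hU : (rg t).card ≤ d := le_trans (card_rg t) (hd r)
    have hm : ∀ i, t i ∈ rg t := fun i => (mem_rg t (t i)).2 ⟨i, rfl⟩
    have h1 : ∀ i, ((ps d (rg t) (t i) : Fin (d + 1)) : ℕ) = pos (rg t) (t i) := fun i =>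
      ps_val d (rg t) (t i) (hm i) hU
    have h2 : (fun i => nth (rg t) (ps d (rg t) (t i) : Fin (d + 1))) = t := by
      funext i
      rw [h1 i, nth_pos (rg t) (t i) (hm i)]
    unfold lo
    rw [if_pos h]
    show ((∀ i, ((ps d (rg t) (t i) : Fin (d + 1)) : ℕ) < (rg t).card) ∧
      C r (fun i => nth (rg t) (ps d (rg t) (t i) : Fin (d + 1)))) ↔ C r t
    rw [h2]
    constructor
    · exact fun h => h.2
    · exact fun h => ⟨fun i => by rw [h1 i]; exact pos_lt _ _ (hm i), h⟩
  · exact lo_of_not idLo C S r t h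

/-- The normal form is invariant.

Proof. `card_image_mono`; for `s` with all `s i < U.card` we have `nth (U.image f) (s i) = f (nth U (s i))` (`nth_image`), and the
tuple `fun i => nth U (s i)` lies in `U` (`nth_mem`), so `h` applies. -/
theorem nrm_image (f : ℕ → ℕ) (U : Finset ℕ) (hf : StrictMonoOn f (U : Set ℕ))
    (C C' : Str R ar ℕ) (h : EqS (U : Set ℕ) C' (cm f C)) : nrm d (U.image f) C = nrm d U C' := by
  funext r s
  refine propext ?_
  show ((∀ i, ((s i : Fin (d + 1)) : ℕ) < (U.image f).card) ∧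
      C r (fun i => nth (U.image f) (s i : Fin (d + 1)))) ↔
    ((∀ i, ((s i : Fin (d + 1)) : ℕ) < U.card) ∧ C' r (fun i => nth U (s i : Fin (d + 1))))
  rw [card_image_mono f U hf]
  refine and_congr_right fun hs => ?_
  have h1 : (fun i => nth (U.image f) (s i : Fin (d + 1))) =
      fun i => f (nth U (s i : Fin (d + 1))) := by
    funext i
    exact nth_image f U hf _ (hs i)
  rw [h1]
  exact (h r (fun i => nth U (s i : Fin (d + 1)))
    fun i => Finset.mem_coe.2 (nth_mem U _ (hs i))).symm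

end Pool.Agent.Lib.H3F
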