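import Pool.Agent.Lib.H3F.N1
import Pool.Agent.Lib.H3F.N2a

/-! # N2: local operations are natural (b) -/

set_option autoImplicit false

namespace Pool.Agent.Lib.H3F

variable {R : Type} {ar : R → Type} [∀ r, Finite (ar r)] {d : ℕ}

/-- **Local operations are natural and local.**

Proof. Let `t` be a tuple in `D` and `U = rg t ⊆ D`; `rg (fun i => f (t i)) = U.image f` (`rg_comp`), and
`S.image f ⊆ U.image f ↔ S ⊆ U` as `f` is injective on `D ⊇ S ∪ U`.  If not `S ⊆ U`: `lo_of_not` twice and `h`.  If `S ⊆ U`: the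
normal forms agree (`nrm_image` for `f` on `U`), `(S.image f).image (ps d (U.image f)) = S.image (ps d U)` and
`ps d (U.image f) (f x) = ps d U x` for `x ∈ U` (`pos_image`). -/
theorem lo_nat (lam : LoD R ar d) (f : ℕ → ℕ) (D S : Finset ℕ) (C C' : Str R ar ℕ)
    (hf : StrictMonoOn f (D : Set ℕ)) (hS : S ⊆ D) (h : EqS (D : Set ℕ) C' (cm f C)) :
    EqS (D : Set ℕ) (lo lam C' S) (cm f (lo lam C (S.image f))) := by
  intro r t ht
  have hU : rg t ⊆ D := (rg_sub t D).2 ht
  have hrg : rg (fun i => f (t i)) = (rg t).image f := rg_comp t f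
  by_cases hSU : S ⊆ rg t
  · have hfU : StrictMonoOn f (rg t : Set ℕ) := hf.mono (Finset.coe_subset.2 hU)
    have hnrm : nrm d ((rg t).image f) C = nrm d (rg t) C' :=
      nrm_image f (rg t) hfU C C' (h.mono (Finset.coe_subset.2 hU))
    have hps : ∀ x ∈ rg t, ps d ((rg t).image f) (f x) = ps d (rg t) x := by
      intro x hx
      unfold ps
      rw [pos_image f (rg t) hfU x hx]
    have himg : (S.image f).image (ps d ((rg t).image f)) = S.image (ps d (rg t)) := by
      rw [Finset.image_image]
      exact Finset.image_congr fun x hx => hps x (hSU hx)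
    have h1 : S.image f ⊆ rg (fun i => f (t i)) := by
      rw [hrg]
      exact Finset.image_subset_image hSU
    have h2 : (fun i => ps d ((rg t).image f) (f (t i))) = fun i => ps d (rg t) (t i) := by
      funext i
      exact hps (t i) ((mem_rg t (t i)).2 ⟨i, rfl⟩)
    show lo lam C' S r t ↔ lo lam C (S.image f) r (fun i => f (t i))
    unfold lo
    rw [if_pos hSU, if_pos h1, hrg, hnrm, himg, h2]
  · have h1 : ¬ S.image f ⊆ rg (fun i => f (t i)) := by
      intro h1
      rw [hrg] at h1
      apply hSU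
      intro x hx
      obtain ⟨y, hy, hxy⟩ := Finset.mem_image.1 (h1 (Finset.mem_image_of_mem f hx))
      have := hf.injOn (Finset.mem_coe.2 (hU hy)) (Finset.mem_coe.2 (hS hx)) hxy
      rwa [← this]
    show lo lam C' S r t ↔ lo lam C (S.image f) r (fun i => f (t i))
    rw [lo_of_not lam C' S r t hSU, lo_of_not lam C (S.image f) r (fun i => f (t i)) h1]
    exact h r t ht

/-- Local operations are local.

Proof. For a tuple `t` in `D`: if `S ⊆ rg t` then `S ⊆ D`; use `lo_nat` with `f = id` (`Finset.image_id`) or compare the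
normal forms; otherwise `lo_of_not` twice. -/
theorem lo_congr (lam : LoD R ar d) (D S : Finset ℕ) (C C' : Str R ar ℕ)
    (h : EqS (D : Set ℕ) C C') : EqS (D : Set ℕ) (lo lam C S) (lo lam C' S) := by
  intro r t ht
  by_cases hSU : S ⊆ rg t
  · have hS : S ⊆ D := hSU.trans ((rg_sub t D).2 ht)
    have h1 := lo_nat lam id D S C' C (strictMono_id.strictMonoOn _) hS h r t ht
    rw [Finset.image_id] at h1
    exact h1
  · rw [lo_of_not lam C S r t hSU, lo_of_not lam C' S r t hSU]
    exact h r t ht

/-- Proof. `lo_nat`. -/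
theorem natF_lo (lam : LoD R ar d) : NatF (fun S C => lo lam C S : Finset ℕ → Str R ar ℕ → Str R ar ℕ) :=
  fun f D S C C' hf hS h => lo_nat lam f D S C C' hf hS h

end Pool.Agent.Lib.H3F
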