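import Pool.Agent.Lib.H3F.N2

/-! # N4: all subsets in a natural order (a) -/

set_option autoImplicit false

namespace Pool.Agent.Lib.H3F

/-- Proof. `List.mem_map`, `List.mem_sublists'`: a sublist `l` of `D.sort` has `l.toFinset ⊆ D` (`Finset.mem_sort`); conversely
for `P ⊆ D` the list `P.sort (· ≤ ·)` is a sublist of `D.sort (· ≤ ·)` (both sorted, `List.sublist_of_subperm_of_sorted` or filter:
`(D.sort (· ≤ ·)).filter (· ∈ P)` is a sublist whose `toFinset` is `P`). -/
theorem mem_subs (D P : Finset ℕ) : P ∈ subs D ↔ P ⊆ D := by
  unfold subs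
  simp only [List.mem_map, List.mem_sublists']
  constructor
  · rintro ⟨l, hl, rfl⟩ x hx
    rw [List.mem_toFinset] at hx
    exact (Finset.mem_sort _).1 (hl.subset hx)
  · intro h
    refine ⟨(D.sort (· ≤ ·)).filter (· ∈ P), List.filter_sublist, ?_⟩
    ext x
    simp only [List.mem_toFinset, List.mem_filter, Finset.mem_sort, decide_eq_true_eq]
    exact ⟨fun hx => hx.2, fun hx => ⟨h hx, hx⟩⟩

/-- Proof. `List.nodup_sublists'` (`D.sort` is without repetition), and `List.toFinset` is injective on the sublists of a
list without repetition (for sublists `l`, `l'` of a nodup list with the same elements: `l = l'`, e.g. both are the filter of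
`D.sort` by membership). -/
theorem nodup_subs (D : Finset ℕ) : (subs D).Nodup := by
  have hnd : (D.sort (· ≤ ·)).Nodup := Finset.sort_nodup _ _
  have key : ∀ (L l : List ℕ), L.Nodup → l.Sublist L → l = L.filter (· ∈ l.toFinset) := by
    intro L l hL hl
    induction hl with
    | slnil => simp
    | @cons l L a hl ih =>
      have ha : a ∉ l := fun h => (List.nodup_cons.1 hL).1 (hl.subset h)
      rw [List.filter_cons_of_neg (by simpa using ha)]
      exact ih (List.nodup_cons.1 hL).2
    | @cons_cons l L a hl ih =>
      have haL : a ∉ L := (List.nodup_cons.1 hL).1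
      rw [List.filter_cons_of_pos (by simp)]
      congr 1
      refine (ih (List.nodup_cons.1 hL).2).trans (List.filter_congr ?_)
      intro x hx
      have hxa : x ≠ a := fun h => haL (h ▸ hx)
      simp [hxa]
  unfold subs
  refine List.Nodup.map_on ?_ (List.nodup_sublists'.2 hnd)
  intro l hl l' hl' h
  rw [key _ l hnd (List.mem_sublists'.1 hl), key _ l' hnd (List.mem_sublists'.1 hl'), h]

end Pool.Agent.Lib.H3F
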