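import Pool.Agent.Lib.H3F.N2
import Pool.Agent.Lib.H3F.N4a

/-! # N4: all subsets in a natural order (b) -/

set_option autoImplicit false

namespace Pool.Agent.Lib.H3F

private theorem n4b_filter (p : ℕ → Bool) : ∀ l : List ℕ,
    (l.filter p).sublists' = l.sublists'.filter (fun s => s.all p)
  | [] => by
    rw [List.filter_nil, List.sublists'_nil]
    rfl
  | a :: l => by
    have ih := n4b_filter p l
    rw [List.sublists'_cons, List.filter_append, List.filter_map]
    by_cases h : p a = true
    · have e : ((fun s : List ℕ => s.all p) ∘ List.cons a) = fun s => s.all p := by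
        funext s
        simp [h]
      rw [List.filter_cons_of_pos h, List.sublists'_cons, ih, e]
    · have e : ((fun s : List ℕ => s.all p) ∘ List.cons a) = fun _ => false := by
        funext s
        simp [h]
      rw [List.filter_cons_of_neg h, ih, e]
      simp

/-- Proof. For a list `l`: `(l.filter p).sublists' = (l.sublists').filter (fun s => ∀ x ∈ s, p x)` by induction on `l`
(`List.sublists'_cons`, `List.filter_append`, `List.filter_map`), and `E.sort = (D.sort).filter (· ∈ E)` (both sorted with the same
elements, `List.eq_of_perm_of_sorted`); then through `List.filter_map`. -/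
theorem subs_filter (D E : Finset ℕ) (h : E ⊆ D) :
    (subs D).filter (fun P => decide (P ⊆ E)) = subs E := by
  have e1 : E.sort (· ≤ ·) = (D.sort (· ≤ ·)).filter (fun x => decide (x ∈ E)) := by
    have hn : ((D.sort (· ≤ ·)).filter (fun x => decide (x ∈ E))).Nodup :=
      (Finset.sort_nodup D _).filter _
    have h1 := (List.toFinset_sort (r := (· ≤ ·)) hn).2
      ((Finset.pairwise_sort D (· ≤ ·)).filter _)
    have h2 : ((D.sort (· ≤ ·)).filter (fun x => decide (x ∈ E))).toFinset = E := by
      ext x
      rw [List.mem_toFinset, List.mem_filter, Finset.mem_sort]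
      constructor
      · rintro ⟨_, hx⟩
        exact of_decide_eq_true hx
      · intro hx
        exact ⟨h hx, decide_eq_true hx⟩
    rw [h2] at h1
    exact h1
  unfold subs
  rw [List.filter_map, e1, n4b_filter]
  have e2 : ((fun P : Finset ℕ => decide (P ⊆ E)) ∘ List.toFinset) =
      fun s : List ℕ => s.all (fun x => decide (x ∈ E)) := by
    funext s
    rw [Bool.eq_iff_iff]
    simp [Finset.subset_iff]
  rw [e2]

end Pool.Agent.Lib.H3F
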