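import Pool.Agent.Lib.H3F.N2
import Pool.Agent.Lib.H3F.N4a
import Pool.Agent.Lib.H3F.N4b

/-! # N4: all subsets in a natural order (c) -/

set_option autoImplicit false

namespace Pool.Agent.Lib.H3F

/-- Proof. `(D.image f).sort = (D.sort).map f` (sorted because `f` is strictly monotone on `D`; same elements; no
repetition), `List.sublists'_map`, and `(l.map f).toFinset = l.toFinset.image f`. -/
theorem subs_image (f : ℕ → ℕ) (D : Finset ℕ) (hf : StrictMonoOn f (D : Set ℕ)) :
    subs (D.image f) = (subs D).map (fun P => P.image f) := by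
  have h1 : (D.image f).sort (· ≤ ·) = (D.sort (· ≤ ·)).map f := by
    have hs : ((D.sort (· ≤ ·)).map f).Pairwise (· ≤ ·) := by
      rw [List.pairwise_map]
      refine (Finset.pairwise_sort D (· ≤ ·)).imp_of_mem ?_
      intro a b ha hb hab
      rw [Finset.mem_sort] at ha hb
      exact hf.monotoneOn (Finset.mem_coe.2 ha) (Finset.mem_coe.2 hb) hab
    have hn : ((D.sort (· ≤ ·)).map f).Nodup := by
      refine List.Nodup.map_on ?_ (Finset.sort_nodup D (· ≤ ·))
      intro a ha b hb hab
      rw [Finset.mem_sort] at ha hb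
      exact hf.injOn (Finset.mem_coe.2 ha) (Finset.mem_coe.2 hb) hab
    have he : ((D.sort (· ≤ ·)).map f).toFinset = D.image f := by
      ext x
      simp [Finset.mem_sort]
    refine List.Perm.eq_of_pairwise (le := (· ≤ ·)) ?_ (Finset.pairwise_sort _ _) hs ?_
    · intro a b _ _ hab hba
      exact le_antisymm hab hba
    · rw [List.perm_ext_iff_of_nodup (Finset.sort_nodup _ _) hn]
      intro x
      rw [Finset.mem_sort, ← he, List.mem_toFinset]
  unfold subs
  rw [h1, List.sublists'_map, List.map_map, List.map_map]
  refine List.map_congr_left ?_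
  intro l _
  ext x
  simp

end Pool.Agent.Lib.H3F
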