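import Pool.Agent.Lib.H3F.N4a
import Pool.Agent.Lib.H3F.N4b
import Pool.Agent.Lib.H3F.N4c

/-! # N4: all subsets in a natural order (all parts) -/
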