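import Pool.Agent.Lib.H3F.Defs
import Mathlib.Combinatorics.Pigeonhole

/-! # R1: Ramsey's theorem for `k`-sets (a) -/

set_option autoImplicit false

namespace Pool.Agent.Lib.H3F

theorem R1a_pre (k r : ℕ) (ih : ∀ n : ℕ, ∃ N : ℕ, ∀ S : Finset ℕ, N ≤ S.card →
    ∀ χ : Finset ℕ → Fin (r + 1), ∃ T ⊆ S, T.card = n ∧ ∃ c, ∀ U ⊆ T, U.card = k → χ U = c)
    (m : ℕ) : ∃ N : ℕ, ∀ S : Finset ℕ, N ≤ S.card → ∀ χ : Finset ℕ → Fin (r + 1),
      ∃ T ⊆ S, T.card = m ∧ ∃ c : ℕ → Fin (r + 1), ∀ x ∈ T, ∀ U ⊆ T, U.card = k →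
        (∀ y ∈ U, x < y) → χ (insert x U) = c x := by
  classical
  induction m with
  | zero => exact ⟨0, fun S _ χ => ⟨∅, Finset.empty_subset _, rfl, fun _ => 0, by simp⟩⟩
  | succ m ihm =>
    obtain ⟨N₁, hN₁⟩ := ihm
    obtain ⟨N₂, hN₂⟩ := ih N₁
    refine ⟨N₂ + 1, fun S hS χ => ?_⟩
    have hne : S.Nonempty := Finset.card_pos.1 (by omega)
    have hx := S.min'_mem hne
    set x := S.min' hne with hxdef
    have h1 : N₂ ≤ (S.erase x).card := by
      rw [Finset.card_erase_of_mem hx]
      omega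
    obtain ⟨T₁, hT₁, hc₁, c₁, hcol⟩ := hN₂ (S.erase x) h1 (fun U => χ (insert x U))
    obtain ⟨T₂, hT₂, hc₂, c, hcc⟩ := hN₁ T₁ (by omega) χ
    have hxlt : ∀ y ∈ T₂, x < y := by
      intro y hy
      have h2 := hT₁ (hT₂ hy)
      have h3 := Finset.min'_le S y (Finset.mem_of_mem_erase h2)
      exact lt_of_le_of_ne h3 (Finset.ne_of_mem_erase h2).symm
    have hxT : x ∉ T₂ := fun h => lt_irrefl _ (hxlt x h)
    refine ⟨insert x T₂, ?_, ?_, fun y => if y = x then c₁ else c y, ?_⟩
    · intro y hy
      rcases Finset.mem_insert.1 hy with rfl | hy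
      · exact hx
      · exact Finset.mem_of_mem_erase (hT₁ (hT₂ hy))
    · rw [Finset.card_insert_of_notMem hxT, hc₂]
    · intro z hz U hU hUk hlt
      have hxU : x ∉ U := by
        intro h
        have h4 := hlt x h
        rcases Finset.mem_insert.1 hz with h5 | h5
        · rw [h5] at h4
          exact lt_irrefl _ h4
        · exact lt_asymm h4 (hxlt z h5)
      have hU2 : U ⊆ T₂ := by
        intro y hy
        rcases Finset.mem_insert.1 (hU hy) with h5 | h5
        · rw [h5] at hy
          exact absurd hy hxU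
        · exact h5
      by_cases hzx : z = x
      · simp only [if_pos hzx]
        rw [hzx]
        exact hcol U (hU2.trans hT₂) hUk
      · simp only [if_neg hzx]
        exact hcc z ((Finset.mem_insert.1 hz).resolve_left hzx) U hU2 hUk hlt

/-- **Ramsey's theorem, for sets of natural numbers.**

Proof. Induction on `k`.  `k = 0`: `N = n`.  Step `k → k + 1`: first prove by induction on `m`: there is `N₁` such that every
`S` with `N₁ ≤ S.card` and every `χ` there are `T ⊆ S` with `T.card = m` and `c : ℕ → Fin (r + 1)` with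
`χ U = c (U.min' _)` for `U ⊆ T`, `U.card = k + 1` (say it as: for `x ∈ T` and `U ⊆ T` with `U.card = k` and `x < y` for all
`y ∈ U` we have `χ (insert x U) = c x`).  For `m + 1`: let `x` be the least element of `S`, apply the case `k` (induction
hypothesis, target size the `N₁` of `m`) to `S.erase x` and the colouring `U ↦ χ (insert x U)`, then the case `m` to the
set which comes out; add `x`, with `c x` the colour.  Finally take `m = (r + 1) * n` and a subset of `n` points of `T` on which
`c` is constant (pigeonhole, `Finset.exists_le_card_fiber_of_mul_le_card_of_maps_to`); a set `V` with `k + 1` elements is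
`insert x U` with `x` its minimum. -/
theorem ramsey_nat (k : ℕ) : ∀ n r : ℕ, ∃ N : ℕ, ∀ S : Finset ℕ, N ≤ S.card →
    ∀ χ : Finset ℕ → Fin (r + 1), ∃ T ⊆ S, T.card = n ∧
      ∃ c, ∀ U ⊆ T, U.card = k → χ U = c := by
  classical
  induction k with
  | zero =>
    intro n r
    refine ⟨n, fun S hS χ => ?_⟩
    obtain ⟨T, hT, hc⟩ := Finset.exists_subset_card_eq hS
    exact ⟨T, hT, hc, χ ∅, fun U _ hU => by rw [Finset.card_eq_zero.1 hU]⟩
  | succ k ih =>
    intro n r
    obtain ⟨N, hN⟩ := R1a_pre k r (fun n => ih n r) ((r + 1) * n)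
    refine ⟨N, fun S hS χ => ?_⟩
    obtain ⟨T, hT, hc, c, hcol⟩ := hN S hS χ
    obtain ⟨b, -, hb⟩ := Finset.exists_le_card_fiber_of_mul_le_card_of_maps_to (s := T)
      (t := (Finset.univ : Finset (Fin (r + 1)))) (f := c) (n := n) (fun _ _ => Finset.mem_univ _)
      Finset.univ_nonempty (by rw [Finset.card_univ, Fintype.card_fin, hc])
    obtain ⟨T', hT', hc'⟩ := Finset.exists_subset_card_eq hb
    refine ⟨T', (hT'.trans (Finset.filter_subset _ _)).trans hT, hc', b, fun V hV hVk => ?_⟩
    have hne : V.Nonempty := Finset.card_pos.1 (by omega)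
    have hx := V.min'_mem hne
    have h1 : insert (V.min' hne) (V.erase (V.min' hne)) = V := Finset.insert_erase hx
    have h2 := hcol (V.min' hne) (Finset.mem_of_mem_filter _ (hT' (hV hx))) (V.erase (V.min' hne))
      (fun y hy => Finset.mem_of_mem_filter _ (hT' (hV (Finset.mem_of_mem_erase hy))))
      (by rw [Finset.card_erase_of_mem hx]; omega)
      (fun y hy => lt_of_le_of_ne (Finset.min'_le V y (Finset.mem_of_mem_erase hy))
        (Finset.ne_of_mem_erase hy).symm)
    rw [h1] at h2
    rw [h2]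
    exact (Finset.mem_filter.1 (hT' (hV hx))).2

end Pool.Agent.Lib.H3F
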