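import Pool.Agent.Lib.H3F.Defs
import Pool.Agent.Lib.H3F.R1a

/-! # R1: Ramsey's theorem for `k`-sets (b) -/

set_option autoImplicit false

namespace Pool.Agent.Lib.H3F

/-- **Ramsey's theorem for increasing maps.**

Proof. `ramsey_nat` gives `N`; apply it to `S = Finset.range N` and the colouring `χ' U = χ (enumeration of U)`: if
`U.card = k` and `∀ x ∈ U, x < N` then the colour of `fun i => ⟨U.orderEmbOfFin h i, _⟩`, else `0` (a `dif`).  From `T ⊆ range N`
with `T.card = n` let `h i = ⟨T.orderEmbOfFin _ i, _⟩`.  For `f` strictly monotone put `U` = the image of `f` under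
`T.orderEmbOfFin _`; the enumeration of `U` is `i ↦ T.orderEmbOfFin _ (f i)` (`Finset.orderEmbOfFin_unique`). -/
theorem ramsey (k n r : ℕ) : ∃ N : ℕ, ∀ χ : (Fin k → Fin N) → Fin (r + 1),
    ∃ h : Fin n → Fin N, StrictMono h ∧ ∃ c, ∀ f : Fin k → Fin n, StrictMono f →
      χ (fun i => h (f i)) = c := by
  classical
  obtain ⟨N, hN⟩ := ramsey_nat k n r
  refine ⟨N, fun χ => ?_⟩
  obtain ⟨χ', hχ⟩ : ∃ χ' : Finset ℕ → Fin (r + 1), ∀ (U : Finset ℕ) (hU : U.card = k)
      (hN : ∀ x ∈ U, x < N), χ' U = χ (fun i => ⟨U.orderEmbOfFin hU i,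
        hN _ (U.orderEmbOfFin_mem hU i)⟩) := by
    refine ⟨fun U => if h : U.card = k ∧ ∀ x ∈ U, x < N then
      χ (fun i => ⟨U.orderEmbOfFin h.1 i, h.2 _ (U.orderEmbOfFin_mem h.1 i)⟩) else 0, ?_⟩
    intro U hU hN
    exact dif_pos ⟨hU, hN⟩
  obtain ⟨T, hT, hTc, c, hc⟩ := hN (Finset.range N) (by rw [Finset.card_range]) χ'
  have hlt : ∀ i, (T.orderEmbOfFin hTc i) < N := fun i =>
    Finset.mem_range.1 (hT (T.orderEmbOfFin_mem hTc i))
  refine ⟨fun i => ⟨T.orderEmbOfFin hTc i, hlt i⟩, ?_, c, fun f hf => ?_⟩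
  · intro i j hij
    exact (T.orderEmbOfFin hTc).strictMono hij
  · have hinj : Function.Injective (fun i => T.orderEmbOfFin hTc (f i)) :=
      (T.orderEmbOfFin hTc).injective.comp hf.injective
    obtain ⟨U, hU⟩ : ∃ U : Finset ℕ, U = Finset.univ.image (fun i => T.orderEmbOfFin hTc (f i)) :=
      ⟨_, rfl⟩
    have hUT : U ⊆ T := by
      intro x hx
      rw [hU] at hx
      obtain ⟨i, _, rfl⟩ := Finset.mem_image.1 hx
      exact T.orderEmbOfFin_mem hTc _
    have hUc : U.card = k := by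
      rw [hU, Finset.card_image_of_injective _ hinj, Finset.card_univ, Fintype.card_fin]
    have hUN : ∀ x ∈ U, x < N := fun x hx => Finset.mem_range.1 (hT (hUT hx))
    have h3 : (fun i => T.orderEmbOfFin hTc (f i)) = U.orderEmbOfFin hUc :=
      Finset.orderEmbOfFin_unique hUc (fun i => by
        rw [hU]
        exact Finset.mem_image_of_mem _ (Finset.mem_univ i))
        (fun i j hij => (T.orderEmbOfFin hTc).strictMono (hf hij))
    rw [← hc U hUT hUc, hχ U hUc hUN]
    congr 1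
    funext i
    exact Fin.ext (congrFun h3 i)

end Pool.Agent.Lib.H3F
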