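import Pool.Agent.Lib.H3F.R1a
import Pool.Agent.Lib.H3F.R1b

/-! # R1: Ramsey's theorem for `k`-sets (all parts) -/
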