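import Pool.Agent.Lib.H3F.Defs

/-! # R2: the points of the partite step -/

set_option autoImplicit false

namespace Pool.Agent.Lib.H3F

open Combinatorics

variable {R : Type} {ar : R → Type} {α β : Type} {k : ℕ} {P : Str R ar α} {π : α → β}
  {f : Fin k → β} {X : Str R ar (Fin k)} {J : Type}

/-- Proof. `hf` and `Cor.prt_spec v l`. -/
theorem prt_eq (hf : Function.Injective f) (v : Cor π f J) (l : J) (p : Fin k)
    (h : π (v.1 l) = f p) : v.prt = p :=
  hf ((Cor.prt_spec v l).symm.trans h)

/-- Proof. `psi` with `dif_pos`; the chosen `p` is `p` because `f` is injective. -/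
theorem psi_over (hf : Function.Injective f) (L : Line (Cop P π f X) J) (x : α) (p : Fin k)
    (h : π x = f p) : psi L x = Sum.inl ⟨lm L x p, p, lm_part L x p h⟩ := by
  have hex : ∃ p, π x = f p := ⟨p, h⟩
  have hp : hex.choose = p := hf (hex.choose_spec.symm.trans h)
  refine (dif_pos hex).trans (congrArg Sum.inl (Subtype.ext ?_))
  change lm L x hex.choose = lm L x p
  rw [hp]

/-- Proof. `psi` with `dif_neg`. -/
theorem psi_rest (L : Line (Cop P π f X) J) (x : α) (h : ∀ p, π x ≠ f p) :
    psi L x = Sum.inr (L, ⟨x, h⟩) := by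
  have hex : ¬ ∃ p, π x = f p := fun ⟨p, hp⟩ => h p hp
  exact dif_neg hex

/-- Proof. `prt_eq` at any `l` (there is one: `L.proper`). -/
theorem prt_psi (hf : Function.Injective f) (L : Line (Cop P π f X) J) (x : α) (p : Fin k)
    (h : π x = f p) :
    Cor.prt (⟨lm L x p, p, lm_part L x p h⟩ : Cor π f J) = p := by
  obtain ⟨l, _⟩ := L.proper
  exact prt_eq hf _ l p (lm_part L x p h l)

/-- Proof. `x` over some `f p` or not; two points over `f p` and `f p'`: the point of the power has the value `x` at a
coordinate with `L.idxFun l = none` (`L.proper`, `lm_none`). -/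
theorem psi_inj (hf : Function.Injective f) (L : Line (Cop P π f X) J) :
    Function.Injective (psi L : α → Pts P π f X J) := by
  intro x y hxy
  by_cases hx : ∃ p, π x = f p
  · obtain ⟨p, hp⟩ := hx
    by_cases hy : ∃ q, π y = f q
    · obtain ⟨q, hq⟩ := hy
      rw [psi_over hf L x p hp, psi_over hf L y q hq] at hxy
      obtain ⟨l, hl⟩ := L.proper
      have h1 : lm L x p = lm L y q := congrArg Subtype.val (Sum.inl.inj hxy)
      have h2 := congrFun h1 l
      rwa [lm_none L x p l hl, lm_none L y q l hl] at h2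
    · have hy' : ∀ q, π y ≠ f q := fun q hq => hy ⟨q, hq⟩
      rw [psi_over hf L x p hp, psi_rest L y hy'] at hxy
      exact absurd hxy (by simp)
  · have hx' : ∀ p, π x ≠ f p := fun p hp => hx ⟨p, hp⟩
    by_cases hy : ∃ q, π y = f q
    · obtain ⟨q, hq⟩ := hy
      rw [psi_rest L x hx', psi_over hf L y q hq] at hxy
      exact absurd hxy (by simp)
    · have hy' : ∀ q, π y ≠ f q := fun q hq => hy ⟨q, hq⟩
      rw [psi_rest L x hx', psi_rest L y hy'] at hxy
      have h1 := congrArg Prod.snd (Sum.inr.inj hxy)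
      exact congrArg Subtype.val h1

/-- Proof. `psi_over` with `prt_psi`, and `psi_rest`. -/
theorem ptsp_psi (hf : Function.Injective f) (L : Line (Cop P π f X) J) (x : α) :
    ptsp P π f X J (psi L x) = π x := by
  by_cases hx : ∃ p, π x = f p
  · obtain ⟨p, hp⟩ := hx
    rw [psi_over hf L x p hp]
    change f (Cor.prt (⟨lm L x p, p, lm_part L x p hp⟩ : Cor π f J)) = π x
    rw [prt_psi hf L x p hp, hp]
  · have hx' : ∀ p, π x ≠ f p := fun p hp => hx ⟨p, hp⟩
    rw [psi_rest L x hx']
    rfl

end Pool.Agent.Lib.H3F
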