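import Pool.Agent.Lib.H3F.R2

/-! # R3: the copies of the old system in the new one (a) -/

set_option autoImplicit false

namespace Pool.Agent.Lib.H3F

open Combinatorics

variable {R : Type} {ar : R → Type} {α β : Type} {k : ℕ} {P : Str R ar α} {π : α → β}
  {f : Fin k → β} {X : Str R ar (Fin k)} {J : Type}

/-- Inside the power a line copy has the right structure.

Proof. Let `p i` be the part of `t i`.  At a coordinate `l` with `L.idxFun l = none` the value of the tuple is `t`
(`lm_none`); at a coordinate with `L.idxFun l = some e` it is `fun i => e.1 (p i)` (`lm_some`) and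
`P r (fun i => e.1 (p i)) ↔ X r p` because `cm e.1 P = X` (`e.2.2`, `congrFun`).  The parts of the points of the power are
`p i` (`prt_psi`).  If `X r p` holds then the left disjunct of `corS` says `P r` at all coordinates, i.e. `P r t` (there is a
coordinate with `none`, `L.proper`); if `X r p` fails, the right disjunct says `P r` at some coordinate, which has to be one
with `none`. -/
theorem corS_line (hf : Function.Injective f) (L : Line (Cop P π f X) J) (r : R) (t : ar r → α)
    (p : ar r → Fin k) (h : ∀ i, π (t i) = f (p i)) :
    corS P π f X J r (fun i => ⟨lm L (t i) (p i), p i, lm_part L (t i) (p i) (h i)⟩) ↔ P r t := by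
  have hprt : (fun i => Cor.prt (⟨lm L (t i) (p i), p i, lm_part L (t i) (p i) (h i)⟩ : Cor π f J))
      = p := by
    funext i
    exact prt_psi hf L (t i) (p i) (h i)
  have hnone : ∀ l, L.idxFun l = none → (fun i => lm L (t i) (p i) l) = t := by
    intro l hl
    funext i
    exact lm_none L (t i) (p i) l hl
  have hsome : ∀ l (e : Cop P π f X), L.idxFun l = some e →
      (P r (fun i => lm L (t i) (p i) l) ↔ X r p) := by
    intro l e hl
    have h1 : (fun i => lm L (t i) (p i) l) = fun i => e.1 (p i) := by
      funext i
      exact lm_some L (t i) (p i) l e hl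
    rw [h1]
    have h2 : cm e.1 P r p = X r p := by rw [e.2.2]
    exact iff_of_eq h2
  obtain ⟨l0, hl0⟩ := L.proper
  unfold corS
  simp only
  rw [hprt]
  constructor
  · rintro (⟨_, h2⟩ | ⟨h1, l, h2⟩)
    · have h3 := h2 l0
      rw [hnone l0 hl0] at h3
      exact h3
    · rcases hl : L.idxFun l with _ | e
      · rw [hnone l hl] at h2
        exact h2
      · exact absurd ((hsome l e hl).1 h2) h1
  · intro hP
    by_cases hX : X r p
    · refine Or.inl ⟨hX, fun l => ?_⟩
      rcases hl : L.idxFun l with _ | e
      · rw [hnone l hl]
        exact hP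
      · exact (hsome l e hl).2 hX
    · refine Or.inr ⟨hX, l0, ?_⟩
      rw [hnone l0 hl0]
      exact hP

end Pool.Agent.Lib.H3F
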