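import Pool.Agent.Lib.H3F.R2
import Pool.Agent.Lib.H3F.R3a

/-! # R3: the copies of the old system in the new one (b) -/

set_option autoImplicit false

namespace Pool.Agent.Lib.H3F

open Combinatorics

variable {R : Type} {ar : R → Type} {α β : Type} {k : ℕ} {P : Str R ar α} {π : α → β}
  {f : Fin k → β} {X : Str R ar (Fin k)} {J : Type}

/-- **Every line gives a copy of the old system.**

Proof. `funext`, `propext`.  Case 1: every `t i` is over some `f (p i)`: the second disjunct of `ptsS` is impossible (it has
a point `t2 i` over no `f p`, `psi L' (t2 i) = Sum.inr _` by `psi_rest`, but `psi L (t i)` is a `Sum.inl`); in the first one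
`t1` is determined (`psi_over`, `Sum.inl_injective`, `funext`), so `corS_line`.  Case 2: some `t i` is over no `f p`: the first
disjunct is impossible; in the second, `psi L (t i) = psi L' (t2 i)` is `Sum.inr (L, _)`, so `t2 i` is over no `f p` (else
`psi_over` gives a `Sum.inl`) and `L' = L` by `psi_rest`, then `t2 = t` by `psi_inj`. -/
theorem cm_psi (hf : Function.Injective f) (L : Line (Cop P π f X) J) :
    cm (psi L) (ptsS P π f X J) = P := by
  funext r t
  apply propext
  change ptsS P π f X J r (fun i => psi L (t i)) ↔ P r t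
  by_cases hall : ∀ i, ∃ p, π (t i) = f p
  · choose p hp using hall
    have hpsi : ∀ i, psi L (t i) =
        Sum.inl (⟨lm L (t i) (p i), p i, lm_part L (t i) (p i) (hp i)⟩ : Cor π f J) :=
      fun i => psi_over hf L (t i) (p i) (hp i)
    have hcor := corS_line hf L r t p hp
    constructor
    · rintro (⟨t1, h1, h2⟩ | ⟨L', t2, ⟨i, hi⟩, h2, _⟩)
      · have h3 : t1 = fun i => (⟨lm L (t i) (p i), p i, lm_part L (t i) (p i) (hp i)⟩ :
            Cor π f J) := by
          funext i
          exact (Sum.inl.inj ((hpsi i).symm.trans (h1 i))).symm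
        rw [h3] at h2
        exact hcor.1 h2
      · have h4 : psi L (t i) = psi L' (t2 i) := h2 i
        rw [hpsi i, psi_rest L' (t2 i) hi] at h4
        exact absurd h4 (by simp)
    · intro h
      exact Or.inl ⟨_, hpsi, hcor.2 h⟩
  · obtain ⟨i, hi⟩ := not_forall.1 hall
    have hi' : ∀ q, π (t i) ≠ f q := fun q hq => hi ⟨q, hq⟩
    constructor
    · rintro (⟨t1, h1, _⟩ | ⟨L', t2, _, h2, h3⟩)
      · have h4 : psi L (t i) = Sum.inl (t1 i) := h1 i
        rw [psi_rest L (t i) hi'] at h4
        exact absurd h4 (by simp)
      · have h4 : psi L (t i) = psi L' (t2 i) := h2 i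
        have hLL : L' = L := by
          by_cases hx : ∃ q, π (t2 i) = f q
          · obtain ⟨q, hq⟩ := hx
            rw [psi_rest L (t i) hi', psi_over hf L' (t2 i) q hq] at h4
            exact absurd h4 (by simp)
          · have hx' : ∀ q, π (t2 i) ≠ f q := fun q hq => hx ⟨q, hq⟩
            rw [psi_rest L (t i) hi', psi_rest L' (t2 i) hx'] at h4
            exact (congrArg Prod.fst (Sum.inr.inj h4)).symm
        subst hLL
        have h5 : t2 = t := by
          funext j
          exact psi_inj hf L' (h2 j).symm
        rw [h5] at h3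
        exact h3
    · intro h
      exact Or.inr ⟨L, t, ⟨i, hi'⟩, fun j => rfl, h⟩

end Pool.Agent.Lib.H3F
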