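import Pool.Agent.Lib.H3F.R2
import Pool.Agent.Lib.H3F.R3a
import Pool.Agent.Lib.H3F.R3b

/-! # R3: the copies of the old system in the new one (c) -/

set_option autoImplicit false

namespace Pool.Agent.Lib.H3F

open Combinatorics

variable {R : Type} {ar : R → Type} {α β : Type} {k : ℕ} {P : Str R ar α} {π : α → β}
  {f : Fin k → β} {X : Str R ar (Fin k)} {J : Type}

/-- A relation tuple of the new system which has a point in the rest of the copy `L` lies in the copy `L`.

Proof. The first disjunct of `ptsS` is impossible (`Sum.inl ≠ Sum.inr`).  In the second, with `L'`, `t2`: `t i = psi L' (t2 i)`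
is `Sum.inr (L, y)`, so `t2 i` is over no `f p` (`psi_over`) and `L' = L` (`psi_rest`). -/
theorem ptsS_copy (hf : Function.Injective f) (L : Line (Cop P π f X) J) (y : Rest π f) (r : R)
    (t : ar r → Pts P π f X J) (h : ptsS P π f X J r t) (i : ar r) (hi : t i = Sum.inr (L, y)) :
    ∃ t2 : ar r → α, (∀ j, t j = psi L (t2 j)) ∧ P r t2 := by
  rcases h with ⟨t1, h1, _⟩ | ⟨L', t2, _, h2, h3⟩
  · have h4 := (h1 i).symm.trans hi
    exact absurd h4 (by simp)
  · have h4 : psi L' (t2 i) = Sum.inr (L, y) := (h2 i).symm.trans hi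
    by_cases hx : ∃ p, π (t2 i) = f p
    · obtain ⟨p, hp⟩ := hx
      rw [psi_over hf L' (t2 i) p hp] at h4
      exact absurd h4 (by simp)
    · have hx' : ∀ p, π (t2 i) ≠ f p := fun p hp => hx ⟨p, hp⟩
      rw [psi_rest L' (t2 i) hx'] at h4
      have h5 : L' = L := congrArg Prod.fst (Sum.inr.inj h4)
      rw [h5] at h2
      exact ⟨t2, h2, h3⟩

/-- A relation tuple of the new system with all points in the power.

Proof. The second disjunct of `ptsS` has a point `t2 i` in the rest, `psi L (t2 i) = Sum.inr _` (`psi_rest`). -/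
theorem ptsS_power (r : R) (t1 : ar r → Cor π f J) :
    ptsS P π f X J r (fun i => Sum.inl (t1 i)) ↔ corS P π f X J r t1 := by
  constructor
  · rintro (⟨t1', h1, h2⟩ | ⟨L', t2, ⟨i, hi⟩, h2, _⟩)
    · have h3 : t1' = t1 := funext fun i => (Sum.inl.inj (h1 i)).symm
      rw [h3] at h2
      exact h2
    · have h4 := h2 i
      rw [psi_rest L' (t2 i) hi] at h4
      exact absurd h4 (by simp)
  · intro h
    exact Or.inl ⟨t1, fun i => rfl, h⟩

end Pool.Agent.Lib.H3F
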