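import Pool.Agent.Lib.H3F.R3a
import Pool.Agent.Lib.H3F.R3b
import Pool.Agent.Lib.H3F.R3c

/-! # R3: the copies of the old system in the new one (all parts) -/
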