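import Pool.Agent.Lib.H3F.R5
import Pool.Agent.Lib.H3F.R4

/-! # R6: classes with free amalgamation are determined by irreducible structures (a) -/

set_option autoImplicit false

namespace Pool.Agent.Lib.H3F

open Combinatorics

variable {R : Type} {ar : R → Type}

private theorem R6a_sub {Q : ∀ ι : Type, Str R ar ι → Prop} (hQ : FAC Q) (ι : Type)
    (A : Str R ar ι) (h : ∀ F : Set ι, Irr A F → Q F (cm Subtype.val A)) (X : Set ι) :
    ∀ F : Set X, Irr (cm (Subtype.val : X → ι) A) F →
      Q F (cm Subtype.val (cm (Subtype.val : X → ι) A)) := by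
  intro F hF
  have hirr : Irr A (Subtype.val '' F) := by
    rintro a ⟨x, hx, rfl⟩ b ⟨y, hy, rfl⟩ hab
    have hxy : x ≠ y := fun he => hab (by rw [he])
    obtain ⟨r, t, ht, htF, ⟨i, hi⟩, ⟨j, hj⟩⟩ := hF x hx y hy hxy
    refine ⟨r, fun i => (t i).1, ht, fun i => ⟨t i, htF i, rfl⟩, ⟨i, congrArg Subtype.val hi⟩,
      ⟨j, congrArg Subtype.val hj⟩⟩
  have h1 := h _ hirr
  have h2 := hQ.her _ F (fun z => (⟨z.1.1, ⟨z.1, z.2, rfl⟩⟩ : (Subtype.val '' F : Set ι)))
    (cm Subtype.val A) (by
      intro z w hzw
      have : z.1.1 = w.1.1 := congrArg (fun u : (Subtype.val '' F : Set ι) => u.1) hzw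
      exact Subtype.ext (Subtype.ext this)) h1
  exact h2

/-- Proof. Strong induction on `Nat.card ι`.  If `Set.univ` is irreducible use `h Set.univ` and `her` (along
`fun x => ⟨x, trivial⟩`).  Otherwise there are `x ≠ y` without a common tuple (unfold `Irr`, `push_neg`); with `X = {z | z ≠ x}` and
`Y = {z | z ≠ y}` every relation tuple misses `x` or misses `y`, so `hQ.am` applies; `Q X (cm Subtype.val A)` by the induction
hypothesis (`Nat.card X < Nat.card ι`; `Finite.card_lt_of_injective_of_notMem` or `Set.ncard`), an irreducible set `F` of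
`cm Subtype.val A` gives the irreducible set `Subtype.val '' F` of `A`, and `Q F _` by `her` along the obvious map. -/
theorem irr_fac {Q : ∀ ι : Type, Str R ar ι → Prop} (hQ : FAC Q) (ι : Type) [Finite ι]
    (A : Str R ar ι) (h : ∀ F : Set ι, Irr A F → Q F (cm Subtype.val A)) : Q ι A := by
  obtain ⟨n, hn⟩ : ∃ n, Nat.card ι = n := ⟨_, rfl⟩
  induction n using Nat.strong_induction_on generalizing ι with
  | _ n ih =>
    by_cases hirr : Irr A Set.univ
    · have h1 := h _ hirr
      exact hQ.her _ ι (fun x => (⟨x, trivial⟩ : (Set.univ : Set ι))) (cm Subtype.val A)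
        (fun x y hxy => congrArg Subtype.val hxy) h1
    · unfold Irr at hirr
      push Not at hirr
      obtain ⟨x, -, y, -, hxy, hne⟩ := hirr
      have key : ∀ a : ι, Q {z | z ≠ a} (cm Subtype.val A) := by
        intro a
        have hcard : Nat.card ({z | z ≠ a} : Set ι) < n := by
          rw [← hn]
          exact Finite.card_subtype_lt (x := a) (fun hh => hh rfl)
        exact ih _ hcard _ (cm Subtype.val A) (R6a_sub hQ ι A h _) rfl
      refine hQ.am ι A {z | z ≠ x} {z | z ≠ y} ?_ ?_ (key x) (key y)
      · intro z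
        by_cases hz : z = x
        · right
          intro hzy
          exact hxy (hz.symm.trans hzy)
        · left
          exact hz
      · intro r t ht
        by_cases hx : ∃ i, t i = x
        · right
          intro i hi
          obtain ⟨j, hj⟩ := hx
          exact hne r t ht (fun _ => trivial) ⟨j, hj⟩ i hi
        · left
          intro i hi
          exact hx ⟨i, hi⟩

end Pool.Agent.Lib.H3F
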