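import Pool.Agent.Lib.H3F.R5
import Pool.Agent.Lib.H3F.R4
import Pool.Agent.Lib.H3F.R6a

/-! # R6: classes with free amalgamation are determined by irreducible structures (b) -/

set_option autoImplicit false

namespace Pool.Agent.Lib.H3F

open Combinatorics

variable {R : Type} {ar : R → Type}

variable {α β : Type} {k : ℕ} {P : Str R ar α} {π : α → β}
  {f : Fin k → β} {X : Str R ar (Fin k)} {J : Type}

/-- **The power is in the class.**

Proof. `irr_fac` with `finite_cor`.  For an irreducible `F`, `he_cor` says: `v ↦ f v.prt` is injective on `F`, hence so is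
`v ↦ v.prt`, and for `t` in `F`: `corS r t ↔ D r (fun i => f (t i).prt) ↔ X r (fun i => (t i).prt)` (`hX`).  So
`cm Subtype.val (corS ..) = cm (fun v : F => v.1.prt) X` and `Q F _` follows by `her` from `hQX`. -/
theorem q_cor {Q : ∀ ι : Type, Str R ar ι → Prop} (hQ : FAC Q) [Finite α] [Finite J] [Nonempty J]
    {D : Str R ar β} (h : HE P π D) (hX : cm f D = X) (hQX : Q (Fin k) X) :
    Q (Cor π f J) (corS P π f X J) := by
  haveI := finite_cor (π := π) (f := f) (J := J)
  refine irr_fac hQ _ _ (fun F hF => ?_)
  obtain ⟨hinj, hrel⟩ := he_cor h hX F hF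
  have hin : Function.Injective (fun v : F => v.1.prt) := by
    intro v w hvw
    have hvw' : v.1.prt = w.1.prt := hvw
    apply Subtype.ext
    apply hinj v.2 w.2
    change f v.1.prt = f w.1.prt
    rw [hvw']
  have key : cm (Subtype.val : F → Cor π f J) (corS P π f X J) = cm (fun v : F => v.1.prt) X := by
    funext r t
    have h1 := hrel r (fun i => (t i).1) (fun i => (t i).2)
    have h2 : X r (fun i => (t i).1.prt) = D r (fun i => f (t i).1.prt) := by
      rw [← hX]
      rfl
    apply propext
    change corS P π f X J r (fun i => (t i).1) ↔ X r (fun i => (t i).1.prt)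
    rw [h2]
    exact h1
  rw [key]
  exact hQ.her (Fin k) F (fun v : F => v.1.prt) X hin hQX

end Pool.Agent.Lib.H3F
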