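import Pool.Agent.Lib.H3F.Defs

/-! # R9: iterating the partite step -/

set_option autoImplicit false

namespace Pool.Agent.Lib.H3F

variable {R : Type} {ar : R → Type}

/-- **Iteration of the partite step over a list of maps.**

Proof. Induction on the list `fs`, for all `α`, `P`, `π`.  `[]`: `ψ = id`.  `f :: fs`: `hs` gives `(P₁, π₁)` on `α₁` for `f`; the
induction hypothesis for `fs` from `(P₁, π₁)` gives `(P', π')` on `α'`.  For `χ` on `Fin k → α'` the induction hypothesis gives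
`ψ' : α₁ → α'` with colours for all `g ∈ fs`; apply the `Stp` of `f` to the colouring `e ↦ χ (fun p => ψ' (e p))` of
`Fin k → α₁` and get `ψ₁ : α → α₁`.  Take `ψ = ψ' ∘ ψ₁`.  For `g = f` the colour comes from `ψ₁`.  For `g ∈ fs` and `e` over
`g` in `α` with `cm e P = X` the map `fun p => ψ₁ (e p)` is over `g` in `α₁` and `cm _ P₁ = cm e (cm ψ₁ P₁) = X` (`rfl` after
rewriting `cm ψ₁ P₁ = P`), so the colour of the induction hypothesis applies. -/
theorem iter_step {β : Type} {k : ℕ} (X : Str R ar (Fin k)) (r : ℕ) (Hf : (Fin k → β) → Prop)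
    (I : ∀ α : Type, Str R ar α → (α → β) → Prop)
    (hs : ∀ (α : Type) [Finite α] (P : Str R ar α) (π : α → β) (f : Fin k → β), Hf f → I α P π →
      ∃ (α' : Type) (_ : Finite α') (P' : Str R ar α') (π' : α' → β), I α' P' π' ∧
        Stp P π P' π' f X r)
    (fs : List (Fin k → β)) (hfs : ∀ f ∈ fs, Hf f) :
    ∀ (α : Type) [Finite α] (P : Str R ar α) (π : α → β), I α P π →
      ∃ (α' : Type) (_ : Finite α') (P' : Str R ar α') (π' : α' → β), I α' P' π' ∧
        ∀ χ : (Fin k → α') → Fin (r + 1), ∃ ψ : α → α', Function.Injective ψ ∧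
          (∀ x, π' (ψ x) = π x) ∧ cm ψ P' = P ∧ ∀ f ∈ fs, ∃ c, ∀ e : Fin k → α,
            (∀ p, π (e p) = f p) → cm e P = X → χ (fun p => ψ (e p)) = c := by
  induction fs with
  | nil =>
    intro α _ P π hI
    refine ⟨α, inferInstance, P, π, hI, fun χ => ⟨fun x => x, fun x y h => h, fun x => rfl, rfl, ?_⟩⟩
    intro f hf
    exact absurd hf (by simp)
  | cons f fs ih =>
    intro α _ P π hI
    obtain ⟨α₁, hfin₁, P₁, π₁, hI₁, hstp⟩ := hs α P π f (hfs f (by simp)) hI
    have := hfin₁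
    obtain ⟨α', hfin', P', π', hI', hrest⟩ :=
      ih (fun g hg => hfs g (List.mem_cons_of_mem f hg)) α₁ P₁ π₁ hI₁
    refine ⟨α', hfin', P', π', hI', fun χ => ?_⟩
    obtain ⟨ψ', hinj', hπ', hcm', hcol'⟩ := hrest χ
    obtain ⟨ψ₁, hinj₁, hπ₁, hcm₁, c₁, hc₁⟩ := hstp (fun e => χ (fun p => ψ' (e p)))
    refine ⟨fun x => ψ' (ψ₁ x), fun x y h => hinj₁ (hinj' h), fun x => ?_, ?_, ?_⟩
    · rw [hπ', hπ₁]
    · have h1 : cm (fun x => ψ' (ψ₁ x)) P' = cm ψ₁ (cm ψ' P') := rfl
      rw [h1, hcm', hcm₁]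
    · intro g hg
      rcases List.mem_cons.1 hg with rfl | hg
      · exact ⟨c₁, fun e he hX => hc₁ e he hX⟩
      · obtain ⟨c, hc⟩ := hcol' g hg
        refine ⟨c, fun e he hX => ?_⟩
        refine hc (fun p => ψ₁ (e p)) (fun p => ?_) ?_
        · rw [hπ₁]
          exact he p
        · have h2 : cm (fun p => ψ₁ (e p)) P₁ = cm e (cm ψ₁ P₁) := rfl
          rw [h2, hcm₁]
          exact hX

end Pool.Agent.Lib.H3F
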