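import Pool.Agent.Lib.H3F.C1
import Pool.Agent.Lib.H3R.T5

/-! # T1: the structure on the points which are not named -/

set_option autoImplicit false

namespace Pool.Agent.Lib.H3F

open Equiv Function FirstOrder Language
open Pool.Agent.Lib.H3C (Cl FR Olig Sup pai pia autP)
open Pool.Agent.Lib.H3R (colR BigC)

/-- The symbols of the language. -/
abbrev R0 (L : Language.{0, 0}) : Type := Σ n, L.Relations n

/-- The arities. -/
abbrev ar0 (L : Language.{0, 0}) (r : R0 L) : Type := Fin r.1

/-- A structure as a family of relations. -/
def strL (L : Language.{0, 0}) (A : Type) [L.Structure A] : Str (R0 L) (ar0 L) A := fun r t =>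
  Structure.RelMap r.2 t

/-- The points whose 1-type is realised only once: the named points. -/
abbrev Rare (L : Language.{0, 0}) (M : Type) [L.Structure M] : Type :=
  {x : M // ¬ BigC L M (colR L x)}

/-- The other points. -/
abbrev Big (L : Language.{0, 0}) (M : Type) [L.Structure M] : Type :=
  {x : M // BigC L M (colR L x)}

/-- A finite structure together with the named points, as points of `M`. -/
def toM (L : Language.{0, 0}) {M : Type} [L.Structure M] {ι : Type} (a : ι → Big L M) :
    ι ⊕ Rare L M → M := Sum.elim (fun u => (a u).1) Subtype.val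

/-- The structure on the points which are not named, over the named points. -/
def strB (L : Language.{0, 0}) (M : Type) [L.Structure M] :
    Str (Rc (R0 L) (ar0 L) (Rare L M)) (arc (R0 L) (ar0 L) (Rare L M)) (Big L M) :=
  enc (cm (toM L id) (strL L M))

/-- The free amalgamation property of the age, with named points. -/
def FAL (L : Language.{0, 0}) (M : Type) [L.Structure M] : Prop :=
  ∀ (A : Type) [L.Structure A] (X Y : L.Substructure A), Finite A → (∀ a, a ∈ X ∨ a ∈ Y) →
    (∀ (n : ℕ) (r : L.Relations n) (t : Fin n → A), Structure.RelMap r t →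
      (∀ i, t i ∈ X) ∨ ∀ i, t i ∈ Y) →
    (∀ a, (a ∉ X ∨ a ∉ Y) → BigC L M (colR L a)) →
    Nonempty (X ↪[L] M) → Nonempty (Y ↪[L] M) → Nonempty (A ↪[L] M)

end Pool.Agent.Lib.H3F
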