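import Pool.Agent.Lib.H3F.T1

/-! # T2a: the structure on the points which are not named: homogeneity (a) -/

set_option autoImplicit false

namespace Pool.Agent.Lib.H3F

open Equiv Function FirstOrder Language

open Pool.Agent.Lib.H3C (Cl FR Olig Sup pai pia autP)

open Pool.Agent.Lib.H3R (colR BigC rare_fixed rare_finite ultra_ext)

/-- The structure induced on a set of points which are not named.

Proof. `enc_cm`: `cm a (enc C) = enc (cm (Sum.map a id) C)`, and `toM L id ∘ Sum.map a id = toM L a`. -/
theorem cm_strB (L : Language.{0, 0}) {M : Type} [L.Structure M] {ι : Type} (a : ι → Big L M) :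
    cm a (strB L M) = enc (cm (toM L a) (strL L M)) := by
  have h : ∀ z, toM L (id : Big L M → Big L M) (Sum.map a id z) = toM L a z := by
    rintro (z | z) <;> rfl
  have h2 : cm (Sum.map a id) (cm (toM L (id : Big L M → Big L M)) (strL L M)) =
      cm (toM L a) (strL L M) := by
    funext r t
    have h3 : (fun i => toM L (id : Big L M → Big L M) (Sum.map a id (t i))) =
        fun i => toM L a (t i) := funext fun i => h (t i)
    show strL L M r (fun i => toM L (id : Big L M → Big L M) (Sum.map a id (t i))) =
      strL L M r (fun i => toM L a (t i))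
    rw [h3]
  unfold strB
  rw [← enc_cm, h2]

/-- A permutation of the points which are not named which extends (by the identity) to an automorphism is an
automorphism of `strB`.

Proof. For `σ ∈ autP L M` with `σ x = (τ x).1` for all big `x`, and `σ x = x` for the rare `x` (`rare_fixed`):
`toM L τ = σ ∘ toM L id`, so `cm (toM L τ) (strL L M) = cm (toM L id) (strL L M)` and `cm τ (strB L M) = strB L M` by
`cm_strB`; this is `τ ∈ Au` (`congrFun`). -/
theorem mem_Au_strB (L : Language.{0, 0}) {M : Type} [L.Structure M] (σ : Perm M)
    (hσ : σ ∈ autP L M) (τ : Perm (Big L M)) (h : ∀ x : Big L M, σ x.1 = (τ x).1) :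
    τ ∈ Au (strB L M) := by
  have h1 : cm (toM L (fun x => τ x)) (strL L M) =
      cm (toM L (id : Big L M → Big L M)) (strL L M) := by
    funext r t
    have h3 : (fun i => toM L (fun x => τ x) (t i)) =
        fun i => σ (toM L (id : Big L M → Big L M) (t i)) := by
      funext i
      rcases t i with x | y
      · exact (h x).symm
      · exact (rare_fixed L hσ y.1 y.2).symm
    apply propext
    show Structure.RelMap r.2 (fun i => toM L (fun x => τ x) (t i)) ↔
      Structure.RelMap r.2 (fun i => toM L (id : Big L M → Big L M) (t i))
    rw [h3]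
    exact hσ r.1 r.2 _
  have h2 : cm (fun x => τ x) (strB L M) = strB L M := by
    rw [cm_strB, h1]
    rfl
  intro r t
  have h4 := congrFun (congrFun h2 r) t
  exact Iff.of_eq h4

end Pool.Agent.Lib.H3F
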