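import Pool.Agent.Lib.H3F.T1
import Pool.Agent.Lib.H3F.T2aa

/-! # T2a: the structure on the points which are not named: homogeneity (b) -/

set_option autoImplicit false

namespace Pool.Agent.Lib.H3F

open Equiv Function FirstOrder Language

open Pool.Agent.Lib.H3C (Cl FR Olig Sup pai pia autP)

open Pool.Agent.Lib.H3R (colR BigC rare_fixed rare_finite ultra_ext)

private theorem t2ab_inj (L : Language.{0, 0}) {M : Type} [L.Structure M] {ι : Type}
    (a : ι → Big L M) (ha : Injective a) : Injective (toM L a) := by
  rintro (u | x) (v | y) h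
  · exact congrArg Sum.inl (ha (Subtype.ext h))
  · refine absurd (a u).2 ?_
    have h1 : (a u).1 = y.1 := h
    rw [h1]
    exact y.2
  · refine absurd (a v).2 ?_
    have h1 : x.1 = (a v).1 := h
    rw [← h1]
    exact x.2
  · exact congrArg Sum.inr (Subtype.ext h)

/-- **Homogeneity.**

Proof. `cm_strB` and `enc_inj`: `cm (toM L a) (strL L M) = cm (toM L b) (strL L M)`.  Let `F` be the finite set of all
`toM L a z`, `z : ι ⊕ Rare L M` (`rare_finite`), and `f : M → M` with `f (toM L a z) = toM L b z` (`toM L a` is injective: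
`Function.invFun` or `Function.Injective.extend_apply`).  `f` is injective on `F` and preserves the relations on `F` (a tuple in
`F` is `toM L a ∘ z`), so `ultra_ext` gives `σ ∈ autP L M`.  `σ` fixes the rare points and maps the big points to big points
(also `σ⁻¹`), so it restricts to a permutation `τ` of `Big L M` (`Equiv.Perm.subtypePerm`); `mem_Au_strB`. -/
theorem hom_strB (L : Language.{0, 0}) {M : Type} [L.Structure M] (hL : L.IsRelational)
    (hfin : Finite (Σ n, L.Relations n)) (hu : L.IsUltrahomogeneous M)
    (ι : Type) [Finite ι] (a b : ι → Big L M) (ha : Injective a) (hb : Injective b)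
    (hab : cm a (strB L M) = cm b (strB L M)) : ∃ σ ∈ Au (strB L M), ∀ u, σ (a u) = b u := by
  have h1 : cm (toM L a) (strL L M) = cm (toM L b) (strL L M) := by
    apply enc_inj
    rw [← cm_strB, ← cm_strB, hab]
  have hR : Finite (Rare L M) := (rare_finite L hfin).to_subtype
  have hfr : (Set.range (toM L a)).Finite := Set.finite_range _
  have hfa : ∀ z, Function.extend (toM L a) (toM L b) id (toM L a z) = toM L b z := fun z =>
    (t2ab_inj L a ha).extend_apply _ _ z
  have hF : ∀ x, x ∈ hfr.toFinset ↔ ∃ z, toM L a z = x := fun x => by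
    rw [Set.Finite.mem_toFinset]
    exact Iff.rfl
  obtain ⟨σ, hσ, hσF⟩ := ultra_ext L hL hu hfr.toFinset
    (Function.extend (toM L a) (toM L b) id)
    (by
      intro x hx y hy hxy
      obtain ⟨z, rfl⟩ := (hF x).1 (Finset.mem_coe.1 hx)
      obtain ⟨w, rfl⟩ := (hF y).1 (Finset.mem_coe.1 hy)
      rw [hfa, hfa] at hxy
      rw [t2ab_inj L b hb hxy])
    (by
      intro n r x hx
      choose z hz using fun k => (hF (x k)).1 (hx k)
      have e1 : x = fun k => toM L a (z k) := funext fun k => (hz k).symm
      have e2 : (fun k => Function.extend (toM L a) (toM L b) id (x k)) =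
          fun k => toM L b (z k) := by
        funext k
        rw [← hz k, hfa]
      have e3 : Structure.RelMap r (fun k => toM L a (z k)) =
          Structure.RelMap r (fun k => toM L b (z k)) :=
        congrFun (congrFun h1 (⟨n, r⟩ : R0 L)) z
      rw [e2, e1]
      exact iff_of_eq e3.symm)
  have hp : ∀ x, BigC L M (colR L (σ x)) ↔ BigC L M (colR L x) := fun x => by
    rw [Pool.Agent.Lib.H3R.colR_aut L hσ]
  refine ⟨σ.subtypePerm hp, mem_Au_strB L σ hσ _ fun x => rfl, fun u => Subtype.ext ?_⟩
  have h2 : σ (toM L a (Sum.inl u)) = toM L b (Sum.inl u) := by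
    rw [hσF _ ((hF _).2 ⟨_, rfl⟩), hfa]
  exact h2

end Pool.Agent.Lib.H3F
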