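import Pool.Agent.Lib.H3F.T2aa
import Pool.Agent.Lib.H3F.T2ab

/-! # T2a: the structure on the points which are not named: homogeneity (all parts) -/
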