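import Pool.Agent.Lib.H3F.T2a

/-! # T2b: the structure on the points which are not named: free amalgamation (a) -/

set_option autoImplicit false

namespace Pool.Agent.Lib.H3F

open Equiv Function FirstOrder Language

open Pool.Agent.Lib.H3C (Cl FR Olig Sup pai pia autP)

open Pool.Agent.Lib.H3R (colR BigC rare_fixed rare_finite ultra_ext)

/-- From embeddings of a finite structure which contains the named points.

Proof. `e` preserves all relations, so `colR L (e z) = colR L z` for every `z` (as `colR` of the structure on `ι ⊕ Rare L M`).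
For `z = inr s`: by `hr` the 1-type of `inr s` is the one of `s` in `M`, which is realised only by `s`, so `e (inr s) = s`.  For
`z = inl u` the 1-type is `BigC` (`hb`), so `e (inl u)` is in `Big`.  Take `b u = ⟨e (inl u), _⟩`; `toM L b = e`. -/
theorem ag_of_emb (L : Language.{0, 0}) {M : Type} [L.Structure M] {ι : Type}
    (C : Str (R0 L) (ar0 L) (ι ⊕ Rare L M)) (e : ι ⊕ Rare L M → M) (he : Injective e)
    (hC : cm e (strL L M) = C)
    (hb : ∀ u, BigC L M {r : R0 L | C r (fun _ => Sum.inl u)})
    (hr : ∀ (s : Rare L M) (r : R0 L), C r (fun _ => Sum.inr s) ↔ strL L M r (fun _ => s.1)) :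
    Ag (strB L M) ι (enc C) := by
  have hcol : ∀ z, colR L (e z) = {r : R0 L | C r (fun _ => z)} := by
    intro z
    rw [← hC]
    rfl
  have hb' : ∀ u, BigC L M (colR L (e (Sum.inl u))) := by
    intro u
    rw [hcol]
    exact hb u
  have hr' : ∀ s : Rare L M, e (Sum.inr s) = s.1 := by
    intro s
    by_contra h
    apply s.2
    refine ⟨e (Sum.inr s), s.1, h, ?_, rfl⟩
    rw [hcol]
    ext r
    exact hr s r
  refine ⟨fun u => ⟨e (Sum.inl u), hb' u⟩, ?_, ?_⟩
  · intro u u' h
    exact Sum.inl_injective (he (congrArg Subtype.val h))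
  · rw [cm_strB, ← hC]
    congr 1
    have h1 : toM L (fun u => (⟨e (Sum.inl u), hb' u⟩ : Big L M)) = e := by
      funext z
      rcases z with u | s
      · rfl
      · exact (hr' s).symm
    rw [h1]

end Pool.Agent.Lib.H3F
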