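import Pool.Agent.Lib.H3F.T2a
import Pool.Agent.Lib.H3F.T2ba

/-! # T2b: the structure on the points which are not named: free amalgamation (b) -/

set_option autoImplicit false

namespace Pool.Agent.Lib.H3F

open Equiv Function FirstOrder Language

open Pool.Agent.Lib.H3C (Cl FR Olig Sup pai pia autP)

open Pool.Agent.Lib.H3R (colR BigC rare_fixed rare_finite ultra_ext)

/-- The structure given by `C`. -/
private abbrev T2bb_str (L : Language.{0, 0}) (hL : L.IsRelational) {ι κ : Type}
    (C : Str (R0 L) (ar0 L) (ι ⊕ κ)) : L.Structure (ι ⊕ κ) where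
  funMap := fun {n} f _ => ((hL n).false f).elim
  RelMap := fun {n} r t => C ⟨n, r⟩ t

/-- The points over `X` and the named points. -/
private def T2bb_sub (L : Language.{0, 0}) (hL : L.IsRelational) {ι κ : Type}
    (C : Str (R0 L) (ar0 L) (ι ⊕ κ)) (X : Set ι) :
    @Language.Substructure L (ι ⊕ κ) (T2bb_str L hL C) :=
  letI := T2bb_str L hL C
  { carrier := {z | Sum.elim (fun x => x ∈ X) (fun _ => True) z}
    fun_mem := fun {n} f => ((hL n).false f).elim }

private theorem T2bb_inj (L : Language.{0, 0}) {M : Type} [L.Structure M] {ι : Type}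
    (a : ι → Big L M) (ha : Injective a) : Injective (toM L a) := by
  intro z w h
  rcases z with x | s <;> rcases w with y | s'
  · have h1 : (a x).1 = (a y).1 := h
    rw [ha (Subtype.ext h1)]
  · have h1 : (a x).1 = s'.1 := h
    exact absurd (h1 ▸ (a x).2) s'.2
  · have h1 : s.1 = (a y).1 := h
    exact absurd (h1.symm ▸ (a y).2) s.2
  · have h1 : s.1 = s'.1 := h
    rw [Subtype.ext h1]

private theorem T2bb_emb (L : Language.{0, 0}) (hL : L.IsRelational) {M : Type} [L.Structure M]
    {ι : Type} (C : Str (R0 L) (ar0 L) (ι ⊕ Rare L M)) (X : Set ι) (a : X → Big L M)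
    (ha : Injective a) (h : cm (toM L a) (strL L M) = cm (Sum.map Subtype.val id) C) :
    letI := T2bb_str L hL C
    Nonempty (T2bb_sub L hL C X ↪[L] M) := by
  let _ := T2bb_str L hL C
  have hj : ∀ z : T2bb_sub L hL C X, ∃ w : X ⊕ Rare L M, Sum.map Subtype.val id w = z.1 := by
    rintro ⟨z, hz⟩
    rcases z with x | s
    · exact ⟨Sum.inl ⟨x, hz⟩, rfl⟩
    · exact ⟨Sum.inr s, rfl⟩
  choose j hj using hj
  refine ⟨⟨⟨fun z => toM L a (j z), ?_⟩, ?_, ?_⟩⟩
  · intro z w hzw
    have h1 := T2bb_inj L a ha hzw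
    apply Subtype.ext
    rw [← hj z, ← hj w, h1]
  · intro n f
    exact ((hL n).false f).elim
  · intro n r t
    have h1 : strL L M ⟨n, r⟩ (fun i => toM L a (j (t i))) =
        C ⟨n, r⟩ (fun i => Sum.map Subtype.val id (j (t i))) :=
      congrFun (congrFun h ⟨n, r⟩) (fun i => j (t i))
    have h2 : (fun i => Sum.map Subtype.val id (j (t i))) = fun i => (t i).1 :=
      funext fun i => hj (t i)
    rw [h2] at h1
    exact iff_of_eq h1

/-- **Free amalgamation.**

Proof. `her`: compose the maps (`cm_strB`, or `rfl`).  `am`: let `A = enc C` (`enc_surj`), `C` a structure on `ι ⊕ Rare L M`.  The two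
hypotheses give `aX : X → Big L M`, `aY : Y → Big L M`, injective, with `cm aX (strB L M) = cm Subtype.val A`; by `cm_strB`,
`enc_cm`, `enc_inj`: `cm (toM L aX) (strL L M) = cm (Sum.map Subtype.val id) C` on `X ⊕ Rare L M`; the same for `Y`.  Make
`ι ⊕ Rare L M` an `L`-structure: `RelMap r t = C ⟨_, r⟩ t`, no functions (`hL`).  `X' = {z | z = inl x with x ∈ X, or z = inr s}` and
`Y'` are substructures (no functions), every point is in one of them; a tuple of `C` is `ent q t` with `A q t` (`ent_surj`), `t` is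
in `X` or `Y` (hypothesis), so the tuple is in `X'` or in `Y'`.  `X' ↪[L] M` by `toM L aX` (injective).  A point outside of `X'` or
`Y'` is `inl u`, and its 1-type is the one of `aX u` or `aY u`, which is `BigC`.  `Finite (ι ⊕ Rare L M)`: `rare_finite`.  `FAL` gives
an embedding `e`; `ag_of_emb` (`hb`: every `u` is in `X` or `Y`; `hr`: from the structure on `X ⊕ Rare`). -/
theorem fa_strB (L : Language.{0, 0}) {M : Type} [L.Structure M] (hL : L.IsRelational)
    (hfin : Finite (Σ n, L.Relations n)) (hage : FAL L M) : FAC (Ag (strB L M)) := by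
  refine ⟨?_, ?_⟩
  · intro ι κ e A he hA
    obtain ⟨a, ha, hA⟩ := hA
    refine ⟨fun x => a (e x), ha.comp he, ?_⟩
    rw [← hA]
    rfl
  · intro ι _ A X Y hXY ht hX hY
    obtain ⟨C, hC⟩ := enc_surj A
    have key : ∀ Z : Set ι, Ag (strB L M) Z (cm Subtype.val A) → ∃ a : Z → Big L M,
        Injective a ∧ cm (toM L a) (strL L M) = cm (Sum.map Subtype.val id) C := by
      intro Z hZ
      obtain ⟨a, ha, hZ⟩ := hZ
      refine ⟨a, ha, enc_inj ?_⟩
      rw [← cm_strB, hZ, ← hC, enc_cm]
    obtain ⟨aX, haX, hX⟩ := key X hX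
    obtain ⟨aY, haY, hY⟩ := key Y hY
    have hcol : ∀ (Z : Set ι) (a : Z → Big L M),
        cm (toM L a) (strL L M) = cm (Sum.map Subtype.val id) C → ∀ u ∈ Z,
        BigC L M {r : R0 L | C r (fun _ => Sum.inl u)} := by
      intro Z a h u hu
      have h1 : {r : R0 L | C r (fun _ => Sum.inl u)} = colR L (a ⟨u, hu⟩).1 := by
        ext r
        exact (iff_of_eq (congrFun (congrFun h r) (fun _ => Sum.inl ⟨u, hu⟩))).symm
      rw [h1]
      exact (a ⟨u, hu⟩).2
    have hb : ∀ u, BigC L M {r : R0 L | C r (fun _ => Sum.inl u)} := by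
      intro u
      rcases hXY u with hu | hu
      · exact hcol X aX hX u hu
      · exact hcol Y aY hY u hu
    have hr : ∀ (s : Rare L M) (r : R0 L),
        C r (fun _ => Sum.inr s) ↔ strL L M r (fun _ => s.1) := fun s r =>
      (iff_of_eq (congrFun (congrFun hX r) (fun _ => Sum.inr s))).symm
    let _ := T2bb_str L hL C
    have hrare : Finite (Rare L M) := (rare_finite L hfin).to_subtype
    have hfi : Finite (ι ⊕ Rare L M) := inferInstance
    obtain ⟨e⟩ := hage (ι ⊕ Rare L M) (T2bb_sub L hL C X) (T2bb_sub L hL C Y) hfi (by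
        intro a
        rcases a with x | s
        · rcases hXY x with h | h
          · exact Or.inl h
          · exact Or.inr h
        · exact Or.inl trivial) (by
        intro n r t hrt
        obtain ⟨p, t', hp⟩ := ent_surj (R := R0 L) (ar := ar0 L) ⟨n, r⟩ t
        have h1 : A ⟨⟨n, r⟩, p⟩ t' := by
          rw [← hC]
          have h2 : C ⟨n, r⟩ (ent (⟨⟨n, r⟩, p⟩ : Rc (R0 L) (ar0 L) (Rare L M)) t') := by
            rw [hp]
            exact hrt
          exact h2
        have h3 : ∀ Z : Set ι, (∀ i, t' i ∈ Z) → ∀ i, t i ∈ T2bb_sub L hL C Z := by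
          intro Z hZ i
          rw [← hp]
          rcases h : p i with _ | s
          · rw [ent_none (⟨⟨n, r⟩, p⟩ : Rc (R0 L) (ar0 L) (Rare L M)) t' i h]
            exact hZ ⟨i, h⟩
          · rw [ent_some (⟨⟨n, r⟩, p⟩ : Rc (R0 L) (ar0 L) (Rare L M)) t' i s h]
            exact trivial
        rcases ht _ _ h1 with h | h
        · exact Or.inl (h3 X h)
        · exact Or.inr (h3 Y h)) (by
        intro a ha
        rcases a with x | s
        · exact hb x
        · rcases ha with ha | ha
          · exact absurd trivial ha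
          · exact absurd trivial ha)
      (T2bb_emb L hL C X aX haX hX) (T2bb_emb L hL C Y aY haY hY)
    rw [← hC]
    refine ag_of_emb L C e e.injective ?_ hb hr
    funext r t
    exact propext (e.map_rel r.2 t)

end Pool.Agent.Lib.H3F
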