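import Pool.Agent.Lib.H3F.T2a
import Pool.Agent.Lib.H3F.T2ba
import Pool.Agent.Lib.H3F.T2bb

/-! # T2b: the structure on the points which are not named: free amalgamation (c) -/

set_option autoImplicit false

namespace Pool.Agent.Lib.H3F

open Equiv Function FirstOrder Language

open Pool.Agent.Lib.H3C (Cl FR Olig Sup pai pia autP)

open Pool.Agent.Lib.H3R (colR BigC rare_fixed rare_finite ultra_ext)

/-- Proof. `hom_strB`, `fa_strB`. -/
theorem hfa_strB (L : Language.{0, 0}) {M : Type} [L.Structure M] (hL : L.IsRelational)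
    (hfin : Finite (Σ n, L.Relations n)) (hu : L.IsUltrahomogeneous M) (hage : FAL L M) :
    HFA (strB L M) := by
  exact ⟨fun ι _ a b ha hb hab => hom_strB L hL hfin hu ι a b ha hb hab,
    fa_strB L hL hfin hage⟩

end Pool.Agent.Lib.H3F
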