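import Pool.Agent.Lib.H3F.T2ba
import Pool.Agent.Lib.H3F.T2bb
import Pool.Agent.Lib.H3F.T2bc

/-! # T2b: the structure on the points which are not named: free amalgamation (all parts) -/
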