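import Pool.Agent.Lib.H3F.K1

/-! # T3: finitely many orbits (a) -/

set_option autoImplicit false

namespace Pool.Agent.Lib.H3F

open Equiv Function

open Pool.Agent.Lib.H3C (Cl FR Olig Sup pai pia)

variable {R : Type} {ar : R → Type} {V : Type} {M : Str R ar V}

/-- Two tuples with the same induced structure and the same equalities are in the same orbit.

Proof. Let `S` be a set of representatives of the classes of `i ~ j ↔ a i = a j`: e.g. `ι = Set.range a` with the maps
`Subtype.val` and `v ↦ b (choice of i with a i = v)`, which are injective by `he`; the induced structures on `ι` are equal (a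
tuple in `ι` is `a ∘ t` with `t` the choices; `b` takes the corresponding values by `he`).  `hM.hom`. -/
theorem orb_of_eq (hM : HFA M) {k : ℕ} (a b : Fin k → V) (he : ∀ i j, a i = a j ↔ b i = b j)
    (h : cm a M = cm b M) : ∃ σ ∈ Au M, ∀ i, σ (a i) = b i := by
  have hc : ∀ v : Set.range a, ∃ i, a i = v.1 := fun v => v.2
  choose c hc using hc
  have h1 : Injective fun v : Set.range a => b (c v) := by
    intro v w hvw
    have h2 : a (c v) = a (c w) := (he _ _).2 hvw
    rw [hc, hc] at h2
    exact Subtype.ext h2
  have h3 : cm (Subtype.val : Set.range a → V) M = cm (fun v : Set.range a => b (c v)) M := by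
    funext r t
    have h4 : cm a M r (fun i => c (t i)) = cm b M r (fun i => c (t i)) := by rw [h]
    have h5 : (fun i => a (c (t i))) = fun i => (t i).1 := funext fun i => hc (t i)
    show M r (fun i => (t i).1) = M r (fun i => b (c (t i)))
    rw [← h5]
    exact h4
  obtain ⟨σ, hσ, h6⟩ := hM.hom (Set.range a) Subtype.val (fun v => b (c v))
    Subtype.val_injective h1 h3
  refine ⟨σ, hσ, fun i => ?_⟩
  have h7 := h6 ⟨a i, i, rfl⟩
  have h8 : b (c ⟨a i, i, rfl⟩) = b i := (he _ _).1 (hc ⟨a i, i, rfl⟩)
  exact h7.trans h8

end Pool.Agent.Lib.H3F
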