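import Pool.Agent.Lib.H3F.K1
import Pool.Agent.Lib.H3F.T3a

/-! # T3: finitely many orbits (b) -/

set_option autoImplicit false

namespace Pool.Agent.Lib.H3F

open Equiv Function

open Pool.Agent.Lib.H3C (Cl FR Olig Sup pai pia)

variable {R : Type} {ar : R → Type} {V : Type} {M : Str R ar V}

/-- **Finitely many orbits on tuples.**

Proof. The map `a ↦ (cm a M, {(i, j) | a i = a j})` from `Fin k → V` has values in a finite type; choose one tuple `t` for every
value which occurs (`Finset.image` over a finite type, or the range of a choice function) and use `orb_of_eq`. -/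
theorem olig_Au [Finite R] [∀ r, Finite (ar r)] (hM : HFA M) : Olig (Au M) := by
  intro k
  classical
  obtain ⟨F, hF⟩ : ∃ F : (Fin k → V) → Str R ar (Fin k) × Set (Fin k × Fin k),
      ∀ a, F a = (cm a M, {p | a p.1 = a p.2}) := ⟨_, fun _ => rfl⟩
  have hfin : Finite (Str R ar (Fin k)) := by
    unfold Str
    infer_instance
  have hfs : Finite (Set.range F) := Subtype.finite
  obtain ⟨g, hg⟩ : ∃ g : Set.range F → (Fin k → V), ∀ y, F (g y) = y.1 :=
    ⟨fun y => y.2.choose, fun y => y.2.choose_spec⟩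
  refine ⟨(Set.finite_range g).toFinset, fun a => ⟨g ⟨F a, a, rfl⟩, ?_, ?_⟩⟩
  · rw [Set.Finite.mem_toFinset]
    exact ⟨_, rfl⟩
  · have h := hg ⟨F a, a, rfl⟩
    rw [hF (g ⟨F a, a, rfl⟩)] at h
    have h2 : (cm (g ⟨F a, a, rfl⟩) M, {p : Fin k × Fin k | g ⟨F a, a, rfl⟩ p.1 = g ⟨F a, a, rfl⟩ p.2}) =
        (cm a M, {p : Fin k × Fin k | a p.1 = a p.2}) := h.trans (hF a)
    have h3 := congrArg Prod.fst h2
    have h4 := congrArg Prod.snd h2
    refine orb_of_eq hM _ a (fun i j => ?_) h3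
    have h5 : ((i, j) : Fin k × Fin k) ∈ {p : Fin k × Fin k | g ⟨F a, a, rfl⟩ p.1 = g ⟨F a, a, rfl⟩ p.2} ↔
        ((i, j) : Fin k × Fin k) ∈ {p : Fin k × Fin k | a p.1 = a p.2} := by
      have h6 : {p : Fin k × Fin k | g ⟨F a, a, rfl⟩ p.1 = g ⟨F a, a, rfl⟩ p.2} =
          {p : Fin k × Fin k | a p.1 = a p.2} := h4
      rw [h6]
    exact h5

end Pool.Agent.Lib.H3F
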