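import Pool.Agent.Lib.H3F.T2a

/-! # T4: extending automorphisms by the identity -/

set_option autoImplicit false

namespace Pool.Agent.Lib.H3F

open Equiv Function FirstOrder Language
open Pool.Agent.Lib.H3C (Cl FR Olig Sup pai pia autP)
open Pool.Agent.Lib.H3R (colR BigC extS)

/-- **The extension of an automorphism of `strB` by the identity is an automorphism.**

Proof. Let `τ ∈ Au (strB L M)`, `σ = Equiv.Perm.ofSubtype τ`.  `cm τ (strB L M) = strB L M`, so by `cm_strB` and `enc_inj`
`cm (toM L τ) (strL L M) = cm (toM L id) (strL L M)`.  Every `x : Fin n → M` is `toM L id ∘ z` with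
`z : Fin n → Big L M ⊕ Rare L M` (`BigC` or not), and `σ ∘ x = toM L τ ∘ z` (`Equiv.Perm.ofSubtype_apply_coe`,
`Equiv.Perm.ofSubtype_apply_of_not_mem`).  So `RelMap r (σ ∘ x) ↔ RelMap r x`, which is `σ ∈ autP L M`. -/
theorem extS_le (L : Language.{0, 0}) {M : Type} [L.Structure M]
    [DecidablePred fun x : M => BigC L M (colR L x)] :
    extS (fun x : M => BigC L M (colR L x)) (Au (strB L M)) ≤ autP L M := by
  rintro σ ⟨τ, hτ, rfl⟩
  have h1 : cm τ (strB L M) = strB L M := by
    funext q t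
    exact propext (hτ q t)
  have h2 : cm (toM L τ) (strL L M) = cm (toM L (id : Big L M → Big L M)) (strL L M) := by
    apply enc_inj
    rw [← cm_strB, h1]
    rfl
  have hz : ∀ x : M, ∃ z : Big L M ⊕ Rare L M, toM L id z = x ∧
      toM L τ z = Equiv.Perm.ofSubtype τ x := by
    intro x
    by_cases hx : BigC L M (colR L x)
    · refine ⟨Sum.inl ⟨x, hx⟩, rfl, ?_⟩
      exact (Equiv.Perm.ofSubtype_apply_coe τ ⟨x, hx⟩).symm
    · refine ⟨Sum.inr ⟨x, hx⟩, rfl, ?_⟩
      exact (Equiv.Perm.ofSubtype_apply_of_not_mem τ hx).symm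
  intro n r x
  choose z hz1 hz2 using fun i => hz (x i)
  have h3 := congrFun (congrFun h2 (⟨n, r⟩ : R0 L)) z
  have h4 : (fun i => Equiv.Perm.ofSubtype τ (x i)) = fun i => toM L τ (z i) :=
    funext fun i => (hz2 i).symm
  have h5 : x = fun i => toM L id (z i) := funext fun i => (hz1 i).symm
  rw [h4]
  conv_rhs => rw [h5]
  exact iff_of_eq h3

end Pool.Agent.Lib.H3F
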