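import Pool.Agent.Lib.H3F.T2b
import Pool.Agent.Lib.H3F.T3
import Pool.Agent.Lib.H3F.T4
import Pool.Agent.Lib.H3F.B7
import Pool.Agent.Lib.H3C.A6
import Pool.Agent.Lib.H3C.K3

/-! # T5: the theorem (a) -/

set_option autoImplicit false

namespace Pool.Agent.Lib.H3F

open Equiv Function FirstOrder Language

open Pool.Agent.Lib.H3C (Cl FR Olig Sup pai pia autP olig_mono fr_of_sup finite_reducts)

open Pool.Agent.Lib.H3R (colR BigC extS olig_extS sup_extS_finite rare_finite rare_fixed)

/-- Proof. As `H3R.fr_autP` (file `H3R/T6.lean`).  If `Big L M` is empty then `M` is finite (`rare_finite`) and everything is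
finite.  Otherwise `H' = extS _ (Au (strB L M)) ≤ autP L M` (`extS_le`); `Olig H'` (`olig_extS`, `olig_Au` with `hfa_strB`; the
types `Rc (R0 L) (ar0 L) (Rare L M)` and `arc _ _ _ q` are finite), so `Olig (autP L M)` (`olig_mono`).  With `F` the finite set
of the rare points `(Sup H' F).Finite` (`sup_extS_finite`, `fr_Au`), so `FR H'` (`fr_of_sup`; the elements of `H'` fix the points
of `F`, `rare_fixed`), and the closed supergroups of `autP L M` are among those of `H'`. -/
theorem fr_autP (L : Language.{0, 0}) (hL : L.IsRelational) {M : Type} [L.Structure M]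
    [Countable M] (hfin : Finite (Σ n, L.Relations n)) (hu : L.IsUltrahomogeneous M)
    (hage : FAL L M) : Olig (autP L M) ∧ FR (autP L M) := by
  classical
  have hrare : {x : M | ¬ BigC L M (colR L x)}.Finite := rare_finite L hfin
  by_cases hn : Nonempty {x : M // BigC L M (colR L x)}
  · have hfR : Finite (Rare L M) := hrare.to_subtype
    have hf0 : Finite (R0 L) := hfin
    have hf1 : Finite (Rc (R0 L) (ar0 L) (Rare L M)) := by
      have h1 : ∀ r : R0 L, Finite (ar0 L r → Option (Rare L M)) := fun r => Pi.finite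
      exact inferInstanceAs (Finite (Σ r : R0 L, ar0 L r → Option (Rare L M)))
    have hf2 : ∀ q : Rc (R0 L) (ar0 L) (Rare L M), Finite (arc (R0 L) (ar0 L) (Rare L M) q) :=
      fun q => Subtype.finite
    have hgen : HFA (strB L M) := hfa_strB L hL hfin hu hage
    have hle : extS (fun x : M => BigC L M (colR L x)) (Au (strB L M)) ≤ autP L M := extS_le L
    have hol' : Olig (extS (fun x : M => BigC L M (colR L x)) (Au (strB L M))) :=
      olig_extS _ _ hn (olig_Au hgen) hrare
    refine ⟨olig_mono hle hol', ?_⟩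
    have hF : ∀ x, x ∈ hrare.toFinset ↔ ¬ BigC L M (colR L x) := fun x => by
      rw [Set.Finite.mem_toFinset, Set.mem_ofPred_eq]
    have hsup := sup_extS_finite (fun x : M => BigC L M (colR L x)) (Au (strB L M))
      (fr_Au hgen) hrare.toFinset hF
    have hfr : FR (extS (fun x : M => BigC L M (colR L x)) (Au (strB L M))) := by
      refine fr_of_sup _ hol' hrare.toFinset ?_ hsup
      intro h hh x hx
      exact rare_fixed L (hle hh) x ((hF x).1 hx)
    exact Set.Finite.subset hfr (fun G hG => ⟨hle.trans hG.1, hG.2⟩)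
  · have huniv : {x : M | ¬ BigC L M (colR L x)} = Set.univ :=
      Set.eq_univ_of_forall fun x h => hn ⟨⟨x, h⟩⟩
    rw [huniv] at hrare
    have hfM : Finite M := Set.finite_univ_iff.1 hrare
    let _ : Fintype M := Fintype.ofFinite M
    refine ⟨fun k => ⟨Finset.univ, fun a => ⟨a, Finset.mem_univ _, 1, (autP L M).one_mem,
      fun _ => rfl⟩⟩, ?_⟩
    exact Set.toFinite _

end Pool.Agent.Lib.H3F
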