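import Pool.Agent.Lib.H3F.T2b
import Pool.Agent.Lib.H3F.T3
import Pool.Agent.Lib.H3F.T4
import Pool.Agent.Lib.H3F.B7
import Pool.Agent.Lib.H3C.A6
import Pool.Agent.Lib.H3C.K3
import Pool.Agent.Lib.H3F.T5a

/-! # T5: the theorem (b) -/

set_option autoImplicit false

namespace Pool.Agent.Lib.H3F

open Equiv Function FirstOrder Language

open Pool.Agent.Lib.H3C (Cl FR Olig Sup pai pia autP olig_mono fr_of_sup finite_reducts)

open Pool.Agent.Lib.H3R (colR BigC extS olig_extS sup_extS_finite rare_finite rare_fixed)

/-- **Thomas's conjecture for structures with free amalgamation.**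

Proof. `fr_autP` and `finite_reducts`. -/
theorem thomas_free (L : Language.{0, 0}) (M : Type) [L.Structure M]
    (hM : Countable M) (hL : L.IsRelational) (hfin : Finite (Σ n, L.Relations n))
    (hu : L.IsUltrahomogeneous M) (hage : FAL L M) :
    Set.Finite {D : Set (Σ n : ℕ, Set (Fin n → M)) |
      ∃ (L' : FirstOrder.Language.{0, 0}) (inst' : L'.Structure M), L'.IsRelational ∧
        (∀ (n : ℕ) (r : L'.Relations n),
          (∅ : Set M).Definable L (setOf (FirstOrder.Language.Structure.RelMap r))) ∧
        D = {p : Σ n : ℕ, Set (Fin n → M) | (∅ : Set M).Definable L' p.2}} := by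
  obtain ⟨h1, h3⟩ := fr_autP L hL hfin hu hage
  exact finite_reducts L M hL h1 h3

end Pool.Agent.Lib.H3F
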